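import Mathlib

/-!
Definitions for the scaling limit problem of critical hierarchical percolation:
compact metric measure spaces, the Gromov-Hausdorff-Prokhorov distance, random graphs with
independent edges, the list of rescaled components, and the hierarchical lattice.
-/

open MeasureTheory Filter Topology
open scoped ENNReal NNReal Classical

namespace Pool.Agent.Helper96.HP

/-- A compact metric space with a finite Borel measure on it. -/
structure MMSpace where
  /-- the points -/
  carrier : Type
  [metric : MetricSpace carrier]
  [compact : CompactSpace carrier]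
  [measurable : MeasurableSpace carrier]
  [borel : BorelSpace carrier]
  /-- the measure -/
  mass : Measure carrier
  [finite : IsFiniteMeasure mass]

attribute [instance] MMSpace.metric MMSpace.compact MMSpace.measurable MMSpace.borel
  MMSpace.finite

/-- The Gromov-Hausdorff-Prokhorov distance of two metric measure spaces: the infimum, over all
isometric embeddings of the two spaces into a common metric space `Z`, of the maximum of the
Hausdorff distance of the two images and the Prokhorov distance of the two image measures. -/
noncomputable def ghpEDist (X Y : MMSpace) : ℝ≥0∞ :=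
  ⨅ (Z : Type) (_ : MetricSpace Z) (_ : MeasurableSpace Z) (_ : BorelSpace Z)
    (φ : X.carrier → Z) (ψ : Y.carrier → Z) (_ : Isometry φ) (_ : Isometry ψ),
    max (Metric.hausdorffEDist (Set.range φ) (Set.range ψ))
      (levyProkhorovEDist (X.mass.map φ) (Y.mass.map ψ))

/-- `f` is a bounded function of a sequence of metric measure spaces which is continuous for the
product topology, with the Gromov-Hausdorff-Prokhorov distance on each coordinate. -/
def IsBoundedContinuous (f : (ℕ → MMSpace) → ℝ) : Prop :=
  (∃ M : ℝ, ∀ X, |f X| ≤ M) ∧
    ∀ (X : ℕ → ℕ → MMSpace) (Y : ℕ → MMSpace),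
      (∀ i, Tendsto (fun k => ghpEDist (X k i) (Y i)) atTop (𝓝 0)) →
        Tendsto (fun k => f (X k)) atTop (𝓝 (f Y))

section Graph

variable {V : Type} [Fintype V]

/-- The probability that the random graph on `V`, in which every unordered pair `e` of distinct
vertices is an edge with probability `p e`, independently over pairs, equals `G`. -/
noncomputable def graphProb (p : Sym2 V → ℝ) (G : SimpleGraph V) : ℝ :=
  ∏ e ∈ Finset.univ.filter (fun e : Sym2 V => ¬ e.IsDiag), if e ∈ G.edgeSet then p e else 1 - p e

/-- The expectation of `F` of that random graph. -/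
noncomputable def graphExpect (p : Sym2 V → ℝ) (F : SimpleGraph V → ℝ) : ℝ :=
  ∑ G : SimpleGraph V, graphProb p G * F G

lemma card_pos_of_component (G : SimpleGraph V) (C : G.ConnectedComponent) :
    0 < Fintype.card V := by
  obtain ⟨v, -⟩ := C.exists_rep
  exact Fintype.card_pos_iff.2 ⟨v⟩

/-- A connected component `C` of a graph on `N` vertices as a metric measure space: the graph
distance multiplied by `N ^ (-1/3)` and the counting measure multiplied by `N ^ (-2/3)`. -/
noncomputable def componentSpace (G : SimpleGraph V) (C : G.ConnectedComponent) : MMSpace :=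
  letI m : MetricSpace {v : V // G.connectedComponentMk v = C} :=
    { dist := fun x y => (Fintype.card V : ℝ) ^ (-(1 / 3) : ℝ) * (G.dist x.1 y.1 : ℝ)
      dist_self := fun x => by simp
      dist_comm := fun x y => by simp [SimpleGraph.dist_comm]
      dist_triangle := fun x y z => by
        have h : G.Reachable x.1 y.1 :=
          SimpleGraph.ConnectedComponent.exact (x.2.trans y.2.symm)
        have h1 := h.dist_triangle_left z.1
        have h2 : (G.dist x.1 z.1 : ℝ) ≤ (G.dist x.1 y.1 : ℝ) + (G.dist y.1 z.1 : ℝ) := by
          exact_mod_cast h1
        have h3 : (0 : ℝ) ≤ (Fintype.card V : ℝ) ^ (-(1 / 3) : ℝ) := by positivity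
        rw [← mul_add]
        exact mul_le_mul_of_nonneg_left h2 h3
      eq_of_dist_eq_zero := fun {x y} h => by
        have h0 : (0 : ℝ) < (Fintype.card V : ℝ) ^ (-(1 / 3) : ℝ) :=
          Real.rpow_pos_of_pos (by exact_mod_cast card_pos_of_component G C) _
        have h1 : (G.dist x.1 y.1 : ℝ) = 0 := by
          rcases mul_eq_zero.1 h with h | h
          · exact absurd h h0.ne'
          · exact h
        have h2 : G.dist x.1 y.1 = 0 := by exact_mod_cast h1
        have h3 : G.Reachable x.1 y.1 :=
          SimpleGraph.ConnectedComponent.exact (x.2.trans y.2.symm)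
        exact Subtype.ext (h3.dist_eq_zero_iff.1 h2) }
  letI b : MeasurableSpace {v : V // G.connectedComponentMk v = C} := borel _
  haveI : BorelSpace {v : V // G.connectedComponentMk v = C} := ⟨rfl⟩
  { carrier := {v : V // G.connectedComponentMk v = C}
    mass := Real.toNNReal ((Fintype.card V : ℝ) ^ (-(2 / 3) : ℝ)) • Measure.count }

/-- The space with one point and zero measure. -/
noncomputable def pointSpace : MMSpace where
  carrier := Unit
  mass := 0

/-- The connected components of a graph, listed by decreasing number of vertices. -/
noncomputable def componentList (G : SimpleGraph V) : List G.ConnectedComponent :=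
  Finset.univ.toList.mergeSort (fun C D => decide (D.supp.ncard ≤ C.supp.ncard))

/-- The sequence of the rescaled components of a graph by decreasing size, continued by one-point
spaces of measure zero. -/
noncomputable def scaledComponents (G : SimpleGraph V) : ℕ → MMSpace := fun i =>
  if h : i < (componentList G).length then componentSpace G ((componentList G)[i]'h)
  else pointSpace

end Graph

section Lattice

/-- The box `Λ_n` of the hierarchical lattice: the point `x` has the terms
`x 0, …, x (n - 1)` in `(ℤ/L)^d`, and all later terms are zero. -/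
abbrev Box (d L n : ℕ) : Type := Fin n → Fin d → ZMod L

variable {d L n : ℕ}

/-- The largest `i + 1` with `x i ≠ 0` (and `0` if `x = 0`). -/
noncomputable def level (x : Box d L n) : ℕ :=
  Finset.univ.sup (fun i : Fin n => if x i ≠ 0 then (i : ℕ) + 1 else 0)

/-- The norm of the hierarchical lattice: `‖0‖ = 0` and `‖x‖ = L ^ (level x)` for `x ≠ 0`. -/
noncomputable def hnorm (x : Box d L n) : ℝ := if x = 0 then 0 else (L : ℝ) ^ level x

lemma level_sub_comm (x y : Box d L n) : level (x - y) = level (y - x) := by
  unfold level
  congr 1
  funext i
  have : (x - y) i = 0 ↔ (y - x) i = 0 := by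
    simp only [Pi.sub_apply]
    constructor <;> intro h
    · rw [sub_eq_zero] at h ⊢; exact h.symm
    · rw [sub_eq_zero] at h ⊢; exact h.symm
  by_cases h : (x - y) i = 0
  · rw [if_neg (not_not.2 h), if_neg (not_not.2 (this.1 h))]
  · rw [if_pos h, if_pos ((not_congr this).1 h)]

lemma hnorm_sub_comm (x y : Box d L n) : hnorm (x - y) = hnorm (y - x) := by
  unfold hnorm
  rw [level_sub_comm x y]
  have : x - y = 0 ↔ y - x = 0 := by rw [sub_eq_zero, sub_eq_zero]; exact eq_comm
  by_cases h : x - y = 0
  · simp [h, this.1 h]
  · simp [h, (not_congr this).1 h]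

/-- The intensity `κ(x, y) = max (ρ(‖x - y‖) / z + lam * L ^ (-4nd/3)) 0`. -/
noncomputable def intensity (ρ : ℝ → ℝ) (z lam : ℝ) (x y : Box d L n) : ℝ :=
  max (ρ (hnorm (x - y)) / z + lam * (L : ℝ) ^ (-(4 * (n * d) / 3) : ℝ)) 0

/-- The probability `1 - exp (-κ(x, y))` that the pair `{x, y}` is an edge. -/
noncomputable def edgeProb (ρ : ℝ → ℝ) (z lam : ℝ) : Sym2 (Box d L n) → ℝ :=
  Sym2.lift ⟨fun x y => 1 - Real.exp (-intensity ρ z lam x y), fun x y => by
    simp only [intensity, hnorm_sub_comm x y]⟩

end Lattice

end Pool.Agent.Helper96.HP
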