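import Mathlib
import Pool.Agent.Helper96.HierDefs

/-!
Random graphs with independent edges as functions of independent bits: the one-coordinate lemma.
-/

open Filter Topology
open scoped Classical

namespace Pool.Agent.Helper96.HP

/-- weight of a bit -/
noncomputable def bw (p : ℝ) (b : Bool) : ℝ := if b = true then p else 1 - p

lemma bw_true (p : ℝ) : bw p true = p := by simp [bw]
lemma bw_false (p : ℝ) : bw p false = 1 - p := by simp [bw]
lemma bw_sum (p : ℝ) : ∑ b : Bool, bw p b = 1 := by simp [bw]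
lemma bw_nonneg {p : ℝ} (h0 : 0 ≤ p) (h1 : p ≤ 1) (b : Bool) : 0 ≤ bw p b := by
  cases b <;> simp [bw] <;> linarith

section Bits

variable {E : Type*} [Fintype E]

/-- expectation over independent bits -/
noncomputable def bitExpect (p : E → ℝ) (F : (E → Bool) → ℝ) : ℝ :=
  ∑ ω : E → Bool, (∏ e, bw (p e) (ω e)) * F ω

lemma bitExpect_coord (p : E → ℝ) (F : (E → Bool) → ℝ) (e : E) (b : Bool)
    (hF : ∀ ω ω' : E → Bool, (∀ j, j ≠ e → ω j = ω' j) → F ω = F ω') :
    bitExpect p (fun ω => if ω e = b then F ω else 0) = bw (p e) b * bitExpect p F := by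
  have key : ∀ Φ : (E → Bool) → ℝ,
      ∑ ω : E → Bool, Φ ω = ∑ x : Bool × ({j // j ≠ e} → Bool),
        Φ ((Equiv.funSplitAt e Bool).symm x) := fun Φ =>
    (Equiv.sum_comp (Equiv.funSplitAt e Bool).symm Φ).symm
  have hval : ∀ x : Bool × ({j // j ≠ e} → Bool),
      ((Equiv.funSplitAt e Bool).symm x) e = x.1 := by
    intro x; simp [Equiv.funSplitAt, Equiv.piSplitAt]
  have hval' : ∀ (x : Bool × ({j // j ≠ e} → Bool)) (j : E) (hj : j ≠ e),
      ((Equiv.funSplitAt e Bool).symm x) j = x.2 ⟨j, hj⟩ := by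
    intro x j hj; simp [Equiv.funSplitAt, Equiv.piSplitAt, hj]
  have hprod : ∀ x : Bool × ({j // j ≠ e} → Bool),
      (∏ j, bw (p j) (((Equiv.funSplitAt e Bool).symm x) j)) =
        bw (p e) x.1 * ∏ j : {j // j ≠ e}, bw (p j.1) (x.2 j) := by
    intro x
    rw [← Finset.mul_prod_erase Finset.univ _ (Finset.mem_univ e), hval x]
    congr 1
    rw [Finset.prod_subtype (Finset.univ.erase e) (p := fun j => j ≠ e) (by simp)]
    refine Finset.prod_congr rfl fun j _ => ?_
    rw [hval' x j.1 j.2]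
  have hFv : ∀ x : Bool × ({j // j ≠ e} → Bool),
      F ((Equiv.funSplitAt e Bool).symm x) = F ((Equiv.funSplitAt e Bool).symm (false, x.2)) := by
    intro x
    refine hF _ _ fun j hj => ?_
    rw [hval' x j hj, hval' _ j hj]
  unfold bitExpect
  rw [key, key, Fintype.sum_prod_type, Fintype.sum_prod_type]
  simp only [hprod, hval]
  have e1 : ∀ b' : Bool, ∑ y : {j // j ≠ e} → Bool, (bw (p e) b' *
      ∏ j : {j // j ≠ e}, bw (p j.1) (y j)) * F ((Equiv.funSplitAt e Bool).symm (b', y)) =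
      bw (p e) b' * ∑ y : {j // j ≠ e} → Bool, (∏ j : {j // j ≠ e}, bw (p j.1) (y j)) *
        F ((Equiv.funSplitAt e Bool).symm (false, y)) := by
    intro b'
    rw [Finset.mul_sum]
    refine Finset.sum_congr rfl fun y _ => ?_
    rw [hFv (b', y)]
    ring
  have e2 : ∀ b' : Bool, ∑ y : {j // j ≠ e} → Bool, (bw (p e) b' *
      ∏ j : {j // j ≠ e}, bw (p j.1) (y j)) *
        (if b' = b then F ((Equiv.funSplitAt e Bool).symm (b', y)) else 0) =
      if b' = b then (bw (p e) b' * ∑ y : {j // j ≠ e} → Bool,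
        (∏ j : {j // j ≠ e}, bw (p j.1) (y j)) *
        F ((Equiv.funSplitAt e Bool).symm (false, y))) else 0 := by
    intro b'
    split_ifs with h
    · exact e1 b'
    · simp
  rw [Finset.sum_congr rfl (fun b' _ => e1 b'), Finset.sum_congr rfl (fun b' _ => e2 b'),
    ← Finset.sum_mul, bw_sum, one_mul, Finset.sum_ite_eq' Finset.univ b]
  simp

lemma bitExpect_add (p : E → ℝ) (F G : (E → Bool) → ℝ) :
    bitExpect p (fun ω => F ω + G ω) = bitExpect p F + bitExpect p G := by
  simp [bitExpect, mul_add, Finset.sum_add_distrib]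

lemma bitExpect_const (p : E → ℝ) (c : ℝ) : bitExpect p (fun _ => c) = c := by
  have h : ∏ e : E, ∑ b : Bool, bw (p e) b = ∑ ω : E → Bool, ∏ e, bw (p e) (ω e) := by
    rw [Finset.prod_univ_sum]
    rfl
  unfold bitExpect
  rw [← Finset.sum_mul, ← h, Finset.prod_congr rfl (fun e _ => bw_sum (p e))]
  simp

lemma bitExpect_mono {p : E → ℝ} (h0 : ∀ e, 0 ≤ p e) (h1 : ∀ e, p e ≤ 1)
    {F G : (E → Bool) → ℝ} (h : ∀ ω, F ω ≤ G ω) : bitExpect p F ≤ bitExpect p G := by
  unfold bitExpect
  refine Finset.sum_le_sum fun ω _ => mul_le_mul_of_nonneg_left (h ω) ?_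
  exact Finset.prod_nonneg fun e _ => bw_nonneg (h0 e) (h1 e) _

lemma bitExpect_sum {ι : Type*} (s : Finset ι) (p : E → ℝ) (F : ι → (E → Bool) → ℝ) :
    bitExpect p (fun ω => ∑ i ∈ s, F i ω) = ∑ i ∈ s, bitExpect p (F i) := by
  unfold bitExpect
  simp only [Finset.mul_sum]
  exact Finset.sum_comm

lemma bitExpect_mul_left (p : E → ℝ) (c : ℝ) (F : (E → Bool) → ℝ) :
    bitExpect p (fun ω => c * F ω) = c * bitExpect p F := by
  unfold bitExpect
  rw [Finset.mul_sum]
  exact Finset.sum_congr rfl fun ω _ => by ring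

end Bits

section Graph

variable {V : Type} [Fintype V]

/-- unordered pairs of distinct vertices -/
abbrev Pairs (V : Type) : Type := {e : Sym2 V // ¬ e.IsDiag}

/-- the graph with the edges whose bit is `true` -/
def toGraph (ω : Pairs V → Bool) : SimpleGraph V :=
  SimpleGraph.fromEdgeSet {e | ∃ h : ¬ e.IsDiag, ω ⟨e, h⟩ = true}

omit [Fintype V] in
lemma toGraph_adj (ω : Pairs V → Bool) (x y : V) (h : x ≠ y) :
    (toGraph ω).Adj x y ↔ ω ⟨s(x, y), by simpa using h⟩ = true := by
  simp [toGraph, h]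

omit [Fintype V] in
lemma mem_edgeSet_toGraph (ω : Pairs V → Bool) (e : Pairs V) :
    e.1 ∈ (toGraph ω).edgeSet ↔ ω e = true := by
  obtain ⟨e, he⟩ := e
  induction e using Sym2.ind with
  | h x y =>
    have hxy : x ≠ y := by simpa using he
    rw [SimpleGraph.mem_edgeSet, toGraph_adj ω x y hxy]

/-- graphs as bit configurations -/
noncomputable def graphEquiv (V : Type) [Fintype V] : (Pairs V → Bool) ≃ SimpleGraph V where
  toFun := toGraph
  invFun G e := decide (e.1 ∈ G.edgeSet)
  left_inv ω := by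
    funext e
    simp [mem_edgeSet_toGraph]
  right_inv G := by
    ext x y
    by_cases h : x = y
    · subst h; simp
    · rw [toGraph_adj _ x y h]
      simp

lemma graphProb_toGraph (p : Sym2 V → ℝ) (ω : Pairs V → Bool) :
    graphProb p (toGraph ω) = ∏ e : Pairs V, bw (p e.1) (ω e) := by
  unfold graphProb
  rw [Finset.prod_subtype (Finset.univ.filter fun e : Sym2 V => ¬ e.IsDiag)
    (p := fun e => ¬ e.IsDiag) (by simp)]
  refine Finset.prod_congr rfl fun e _ => ?_
  by_cases h : ω e = true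
  · rw [if_pos ((mem_edgeSet_toGraph ω e).2 h), bw, if_pos h]
  · rw [if_neg (fun h' => h ((mem_edgeSet_toGraph ω e).1 h')), bw, if_neg h]

lemma graphExpect_eq (p : Sym2 V → ℝ) (F : SimpleGraph V → ℝ) :
    graphExpect p F = bitExpect (fun e : Pairs V => p e.1) (fun ω => F (toGraph ω)) := by
  have h := Equiv.sum_comp (graphEquiv V) (fun G => graphProb p G * F G)
  rw [graphExpect, bitExpect, ← h]
  clear h
  refine Finset.sum_congr ?_ fun ω _ => ?_
  · ext x; simp only [Finset.mem_univ]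
  · have h1 : graphEquiv V ω = toGraph ω := rfl
    rw [h1, graphProb_toGraph]

lemma graphExpect_mono {p : Sym2 V → ℝ} (h0 : ∀ e, ¬ e.IsDiag → 0 ≤ p e)
    (h1 : ∀ e, ¬ e.IsDiag → p e ≤ 1)
    {F G : SimpleGraph V → ℝ} (h : ∀ g, F g ≤ G g) : graphExpect p F ≤ graphExpect p G := by
  have key := bitExpect_mono (E := Pairs V) (p := fun e => p e.1)
    (F := fun ω => F (toGraph ω)) (G := fun ω => G (toGraph ω))
    (fun e => h0 e.1 e.2) (fun e => h1 e.1 e.2) (fun ω => h _)
  rw [graphExpect_eq, graphExpect_eq]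
  exact key

lemma graphExpect_const (p : Sym2 V → ℝ) (c : ℝ) : graphExpect p (fun _ => c) = c := by
  rw [graphExpect_eq]; exact bitExpect_const _ c

lemma graphExpect_mul_left (p : Sym2 V → ℝ) (c : ℝ) (F : SimpleGraph V → ℝ) :
    graphExpect p (fun ω => c * F ω) = c * graphExpect p F := by
  rw [graphExpect_eq, graphExpect_eq]; exact bitExpect_mul_left _ c _

lemma graphExpect_add (p : Sym2 V → ℝ) (F G : SimpleGraph V → ℝ) :
    graphExpect p (fun ω => F ω + G ω) = graphExpect p F + graphExpect p G := by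
  rw [graphExpect_eq, graphExpect_eq, graphExpect_eq]; exact bitExpect_add _ _ _

lemma graphExpect_sum {ι : Type*} (s : Finset ι) (p : Sym2 V → ℝ) (F : ι → SimpleGraph V → ℝ) :
    graphExpect p (fun ω => ∑ i ∈ s, F i ω) = ∑ i ∈ s, graphExpect p (F i) := by
  rw [graphExpect_eq, bitExpect_sum]
  exact Finset.sum_congr rfl fun i _ => (graphExpect_eq p _).symm

/-- One-edge factorisation. -/
lemma graphExpect_adj (p : Sym2 V → ℝ) (F : SimpleGraph V → ℝ) (x y : V) (hxy : x ≠ y)
    (hF : ∀ G G' : SimpleGraph V, (∀ a b, s(a, b) ≠ s(x, y) → (G.Adj a b ↔ G'.Adj a b)) →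
      F G = F G') :
    graphExpect p (fun G => if G.Adj x y then F G else 0) = p s(x, y) * graphExpect p F := by
  rw [graphExpect_eq, graphExpect_eq]
  have h := bitExpect_coord (fun e : Pairs V => p e.1) (fun ω => F (toGraph ω))
    ⟨s(x, y), by simpa using hxy⟩ true (fun ω ω' h => by
      refine hF _ _ fun a b hab => ?_
      by_cases h' : a = b
      · subst h'; simp
      · rw [toGraph_adj _ a b h', toGraph_adj _ a b h', h _ (by simpa using hab)])
  rw [bw_true] at h
  rw [← h]
  congr 1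
  funext ω
  simp only [toGraph_adj ω x y hxy]

end Graph

end Pool.Agent.Helper96.HP
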