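import Mathlib
import Pool.Agent.Helper96.HierGraph

/-!
Expected cluster sizes in a random graph with independent edges: the bound by non-backtracking
paths.
-/

open Filter Topology
open scoped Classical

namespace Pool.Agent.Helper96.HP

variable {V : Type} [Fintype V]

/-- number of self-avoiding paths of length at most `k` from `x` whose later vertices are
in `W` -/
noncomputable def pathCount (G : SimpleGraph V) : ℕ → Finset V → V → ℝ
  | 0, _, _ => 1
  | k + 1, W, x => 1 + ∑ z ∈ W, if G.Adj x z then pathCount G k (W.erase z) z else 0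

/-- the end points of these paths -/
noncomputable def reachSet (G : SimpleGraph V) : ℕ → Finset V → V → Finset V
  | 0, _, x => {x}
  | k + 1, W, x => {x} ∪ W.biUnion fun z => if G.Adj x z then reachSet G k (W.erase z) z else ∅

omit [Fintype V] in
lemma reachSet_card (G : SimpleGraph V) (k : ℕ) : ∀ (W : Finset V) (x : V),
    ((reachSet G k W x).card : ℝ) ≤ pathCount G k W x := by
  induction k with
  | zero => intro W x; simp [reachSet, pathCount]
  | succ k ih =>
    intro W x
    have h1 : (reachSet G (k + 1) W x).card ≤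
        1 + ∑ z ∈ W, (if G.Adj x z then reachSet G k (W.erase z) z else ∅).card := by
      rw [reachSet]
      refine (Finset.card_union_le _ _).trans ?_
      simp only [Finset.card_singleton]
      exact Nat.add_le_add_left Finset.card_biUnion_le 1
    have h2 : ((reachSet G (k + 1) W x).card : ℝ) ≤
        1 + ∑ z ∈ W, ((if G.Adj x z then reachSet G k (W.erase z) z else ∅).card : ℝ) := by
      exact_mod_cast h1
    refine h2.trans ?_
    rw [pathCount]
    refine add_le_add le_rfl (Finset.sum_le_sum fun z _ => ?_)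
    split_ifs with h
    · exact ih _ _
    · simp

omit [Fintype V] in
lemma mem_reachSet_self (G : SimpleGraph V) (k : ℕ) (W : Finset V) (x : V) :
    x ∈ reachSet G k W x := by
  cases k <;> simp [reachSet]

omit [Fintype V] in
lemma mem_reachSet (G : SimpleGraph V) {x y : V} (p : G.Walk x y) :
    ∀ (k : ℕ) (W : Finset V), p.IsPath → p.length ≤ k → (∀ v ∈ p.support.tail, v ∈ W) →
      y ∈ reachSet G k W x := by
  induction p with
  | nil => intro k W _ _ _; exact mem_reachSet_self G k W _
  | @cons u v w h q ih =>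
    intro k W hp hk hW
    rw [SimpleGraph.Walk.cons_isPath_iff] at hp
    cases k with
    | zero => simp at hk
    | succ k =>
      rw [SimpleGraph.Walk.length_cons] at hk
      rw [SimpleGraph.Walk.support_cons, List.tail_cons] at hW
      have hv : v ∈ W := hW v (SimpleGraph.Walk.start_mem_support q)
      have hnd := hp.1.support_nodup
      rw [← SimpleGraph.Walk.cons_tail_support, List.nodup_cons] at hnd
      have : w ∈ reachSet G k (W.erase v) v := by
        refine ih k (W.erase v) hp.1 (by omega) fun a ha => ?_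
        refine Finset.mem_erase.2 ⟨fun h' => hnd.1 (h' ▸ ha), hW a ?_⟩
        rw [← SimpleGraph.Walk.cons_tail_support]
        exact List.mem_cons_of_mem _ ha
      rw [reachSet, Finset.mem_union]
      right
      rw [Finset.mem_biUnion]
      exact ⟨v, hv, by rw [if_pos h]; exact this⟩

/-- sum of the squares of the cluster sizes -/
noncomputable def clusterSum (G : SimpleGraph V) : ℝ :=
  ∑ x, ((Finset.univ.filter fun y => G.Reachable x y).card : ℝ)

/-- sum over the pairs at `x` -/
noncomputable def pairSum (p : Sym2 V → ℝ) (g : ℝ → ℝ) (x : V) : ℝ :=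
  ∑ y ∈ Finset.univ.erase x, g (p s(x, y))

lemma le_pairSum (p : Sym2 V → ℝ) (g : ℝ → ℝ) (x y : V) (h : x ≠ y)
    (hg : ∀ z, x ≠ z → 0 ≤ g (p s(x, z))) : g (p s(x, y)) ≤ pairSum p g x := by
  unfold pairSum
  exact Finset.single_le_sum (f := fun y => g (p s(x, y)))
    (fun z hz => hg z (Finset.ne_of_mem_erase hz).symm)
    (Finset.mem_erase.2 ⟨h.symm, Finset.mem_univ y⟩)

lemma pairSum_quad (p : Sym2 V → ℝ) (m : ℝ) (x : V) :
    pairSum p (fun t => t * (m - t)) x =
      pairSum p (fun t => t) x * m - pairSum p (fun t => t ^ 2) x := by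
  unfold pairSum
  rw [Finset.sum_mul, ← Finset.sum_sub_distrib]
  exact Finset.sum_congr rfl fun y _ => by ring

lemma card_reachable_le (G : SimpleGraph V) (x : V) :
    ((Finset.univ.filter fun y => G.Reachable x y).card : ℝ) ≤
      pathCount G (Fintype.card V) (Finset.univ.erase x) x := by
  refine le_trans ?_ (reachSet_card G _ _ _)
  have : (Finset.univ.filter fun y => G.Reachable x y) ⊆
      reachSet G (Fintype.card V) (Finset.univ.erase x) x := by
    intro y hy
    rw [Finset.mem_filter] at hy
    obtain ⟨p, hp⟩ := hy.2.exists_isPath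
    refine mem_reachSet G p _ _ hp hp.length_lt.le fun v hv => ?_
    refine Finset.mem_erase.2 ⟨fun h => ?_, Finset.mem_univ _⟩
    have hnd := hp.support_nodup
    rw [← SimpleGraph.Walk.cons_tail_support, List.nodup_cons] at hnd
    exact hnd.1 (h ▸ hv)
  exact_mod_cast Finset.card_le_card this

omit [Fintype V] in
lemma pathCount_congr {G G' : SimpleGraph V} (k : ℕ) : ∀ (W : Finset V) (x : V),
    (∀ a ∈ insert x W, ∀ b ∈ insert x W, G.Adj a b ↔ G'.Adj a b) →
      pathCount G k W x = pathCount G' k W x := by
  induction k with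
  | zero => intro W x _; simp [pathCount]
  | succ k ih =>
    intro W x h
    rw [pathCount, pathCount]
    congr 1
    refine Finset.sum_congr rfl fun z hz => ?_
    have h1 : G.Adj x z ↔ G'.Adj x z :=
      h x (Finset.mem_insert_self _ _) z (Finset.mem_insert_of_mem hz)
    have h2 : pathCount G k (W.erase z) z = pathCount G' k (W.erase z) z := by
      refine ih _ _ fun a ha b hb => ?_
      rw [Finset.insert_erase hz] at ha hb
      exact h a (Finset.mem_insert_of_mem ha) b (Finset.mem_insert_of_mem hb)
    rw [h2]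
    simp only [h1]

/-- expected number of paths -/
noncomputable def pathExp (p : Sym2 V → ℝ) (k : ℕ) (W : Finset V) (x : V) : ℝ :=
  graphExpect p fun G => pathCount G k W x

lemma pathExp_zero (p : Sym2 V → ℝ) (W : Finset V) (x : V) : pathExp p 0 W x = 1 := by
  simp only [pathExp, pathCount]
  exact graphExpect_const p 1

lemma pathExp_succ (p : Sym2 V → ℝ) (k : ℕ) (W : Finset V) (x : V) (hx : x ∉ W) :
    pathExp p (k + 1) W x = 1 + ∑ z ∈ W, p s(x, z) * pathExp p k (W.erase z) z := by
  unfold pathExp
  simp only [pathCount]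
  rw [graphExpect_add, graphExpect_const, graphExpect_sum]
  congr 1
  refine Finset.sum_congr rfl fun z hz => ?_
  have hxz : x ≠ z := fun h => hx (h ▸ hz)
  refine graphExpect_adj p (fun G => pathCount G k (W.erase z) z) x z hxz ?_
  intro G G' h
  refine pathCount_congr k _ _ fun a ha b hb => h a b ?_
  rw [Finset.insert_erase hz] at ha hb
  intro h'
  rw [Sym2.eq_iff] at h'
  rcases h' with ⟨h1, -⟩ | ⟨-, h2⟩
  · exact hx (h1 ▸ ha)
  · exact hx (h2 ▸ hb)

lemma pathExp_le (p : Sym2 V → ℝ) (m r B : ℝ) (h0 : ∀ x y, x ≠ y → 0 ≤ p s(x, y))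
    (hm : ∀ x, ∑ y ∈ Finset.univ.erase x, p s(x, y) ≤ m)
    (hr : ∀ x, ∑ y ∈ Finset.univ.erase x, p s(x, y) * (m - p s(x, y)) ≤ r)
    (hr0 : 0 ≤ r) (hB0 : 0 ≤ B) (hB : 1 + m + r * B ≤ B) (k : ℕ) :
    ∀ (W : Finset V) (x : V), x ∉ W → pathExp p k W x ≤ B ∧ pathExp p (k + 1) W x ≤ B := by
  have hm0 : ∀ x : V, 0 ≤ m := fun x =>
    (Finset.sum_nonneg fun y hy => h0 x y (Finset.ne_of_mem_erase hy).symm).trans (hm x)
  have hWm : ∀ (W : Finset V) (x : V), x ∉ W → ∑ z ∈ W, p s(x, z) ≤ m := by
    intro W x hx
    refine le_trans (Finset.sum_le_sum_of_subset_of_nonneg ?_ ?_) (hm x)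
    · intro z hz
      exact Finset.mem_erase.2 ⟨fun h => hx (h ▸ hz), Finset.mem_univ _⟩
    · intro z hz _
      exact h0 x z (Finset.ne_of_mem_erase hz).symm
  have hle : ∀ x z : V, x ≠ z → p s(x, z) ≤ m := by
    intro x z hxz
    refine le_trans ?_ (hm x)
    exact Finset.single_le_sum (f := fun y => p s(x, y))
      (fun y hy => h0 x y (Finset.ne_of_mem_erase hy).symm)
      (Finset.mem_erase.2 ⟨hxz.symm, Finset.mem_univ z⟩)
  induction k with
  | zero =>
    intro W x hx
    rw [pathExp_zero, pathExp_succ p 0 W x hx]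
    simp only [pathExp_zero, mul_one]
    have h1 := hWm W x hx
    have h2 : 0 ≤ r * B := mul_nonneg hr0 hB0
    have h3 := hm0 x
    constructor <;> linarith
  | succ k ih =>
    intro W x hx
    refine ⟨(ih W x hx).2, ?_⟩
    rw [pathExp_succ p (k + 1) W x hx]
    have step : ∀ z ∈ W, p s(x, z) * pathExp p (k + 1) (W.erase z) z ≤
        p s(x, z) + p s(x, z) * (m - p s(x, z)) * B := by
      intro z hz
      have hxz : x ≠ z := fun h => hx (h ▸ hz)
      have hp := h0 x z hxz
      rw [pathExp_succ p k (W.erase z) z (Finset.notMem_erase z W)]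
      have h1 : ∑ w ∈ W.erase z, p s(z, w) * pathExp p k ((W.erase z).erase w) w ≤
          ∑ w ∈ W.erase z, p s(z, w) * B := by
        refine Finset.sum_le_sum fun w hw => ?_
        refine mul_le_mul_of_nonneg_left (ih _ _ (Finset.notMem_erase w _)).1 ?_
        exact h0 z w (Finset.ne_of_mem_erase hw).symm
      have h2 : ∑ w ∈ W.erase z, p s(z, w) ≤ m - p s(x, z) := by
        have h3 : ∑ w ∈ insert x (W.erase z), p s(z, w) ≤ m := by
          refine hWm _ z ?_
          rw [Finset.mem_insert]
          rintro (h | h)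
          · exact hxz h.symm
          · exact Finset.notMem_erase z W h
        rw [Finset.sum_insert (fun h => hx (Finset.mem_of_mem_erase h))] at h3
        rw [Sym2.eq_swap] at h3
        linarith
      rw [← Finset.sum_mul] at h1
      have h4 : (∑ w ∈ W.erase z, p s(z, w)) * B ≤ (m - p s(x, z)) * B :=
        mul_le_mul_of_nonneg_right h2 hB0
      nlinarith [mul_le_mul_of_nonneg_left (h1.trans h4) hp]
    have h5 : ∑ z ∈ W, p s(x, z) * pathExp p (k + 1) (W.erase z) z ≤
        ∑ z ∈ W, p s(x, z) + (∑ z ∈ W, p s(x, z) * (m - p s(x, z))) * B := by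
      refine (Finset.sum_le_sum step).trans ?_
      rw [Finset.sum_add_distrib, Finset.sum_mul]
    have h6 : ∑ z ∈ W, p s(x, z) * (m - p s(x, z)) ≤ r := by
      refine le_trans (Finset.sum_le_sum_of_subset_of_nonneg ?_ ?_) (hr x)
      · intro z hz
        exact Finset.mem_erase.2 ⟨fun h => hx (h ▸ hz), Finset.mem_univ _⟩
      · intro z hz _
        have hne := (Finset.ne_of_mem_erase hz).symm
        exact mul_nonneg (h0 x z hne) (sub_nonneg.2 (hle x z hne))
    have h7 := mul_le_mul_of_nonneg_right h6 hB0
    have h8 := hWm W x hx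
    linarith

/-- Bound for the expected sum of the squares of the cluster sizes. -/
lemma expect_clusterSum_le (p : Sym2 V → ℝ) (m r B : ℝ) (h0 : ∀ x y, x ≠ y → 0 ≤ p s(x, y))
    (h1 : ∀ x y, x ≠ y → p s(x, y) ≤ 1)
    (hm : ∀ x, pairSum p (fun t => t) x ≤ m)
    (hr : ∀ x, pairSum p (fun t => t * (m - t)) x ≤ r)
    (hr0 : 0 ≤ r) (hB0 : 0 ≤ B) (hB : 1 + m + r * B ≤ B) :
    graphExpect p clusterSum ≤ Fintype.card V * B := by
  unfold clusterSum
  rw [graphExpect_sum]
  have hx : ∀ x ∈ (Finset.univ : Finset V),
      graphExpect p (fun G => ((Finset.univ.filter fun y => G.Reachable x y).card : ℝ)) ≤ B := by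
    intro x _
    refine le_trans ?_ (pathExp_le p m r B h0 hm hr hr0 hB0 hB (Fintype.card V)
      (Finset.univ.erase x) x (Finset.notMem_erase x _)).1
    refine graphExpect_mono ?_ ?_ fun G => card_reachable_le G x
    · intro e
      induction e using Sym2.ind with
      | h a b => intro he; exact h0 a b (by simpa using he)
    · intro e
      induction e using Sym2.ind with
      | h a b => intro he; exact h1 a b (by simpa using he)
  refine (Finset.sum_le_sum hx).trans ?_
  simp

end Pool.Agent.Helper96.HP
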