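import Mathlib
import Pool.Agent.Helper96.HierPath

/-!
The test function: the truncated square of the mass of the first component.
-/

open MeasureTheory Filter Topology
open scoped ENNReal NNReal Classical

namespace Pool.Agent.Helper96.HP

lemma mass_le_of_ghp_lt {X Y : MMSpace} {ε : ℝ≥0∞} (h : ghpEDist X Y < ε) :
    X.mass Set.univ ≤ Y.mass Set.univ + ε ∧ Y.mass Set.univ ≤ X.mass Set.univ + ε := by
  unfold ghpEDist at h
  simp only [iInf_lt_iff] at h
  obtain ⟨Z, mZ, msZ, bZ, φ, ψ, hφ, hψ, h⟩ := h
  have h1 : levyProkhorovEDist (X.mass.map φ) (Y.mass.map ψ) < ε := lt_of_le_of_lt (le_max_right _ _) h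
  have hφm : Measurable φ := hφ.continuous.measurable
  have hψm : Measurable ψ := hψ.continuous.measurable
  have hX : (X.mass.map φ) Set.univ = X.mass Set.univ := by
    rw [Measure.map_apply hφm MeasurableSet.univ, Set.preimage_univ]
  have hY : (Y.mass.map ψ) Set.univ = Y.mass Set.univ := by
    rw [Measure.map_apply hψm MeasurableSet.univ, Set.preimage_univ]
  constructor
  · have h2 := left_measure_le_of_levyProkhorovEDist_lt h1 (B := Set.univ) MeasurableSet.univ
    rw [hX] at h2
    refine h2.trans (add_le_add ?_ le_rfl)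
    rw [← hY]; exact measure_mono (Set.subset_univ _)
  · have h2 := right_measure_le_of_levyProkhorovEDist_lt h1 (B := Set.univ) MeasurableSet.univ
    rw [hY] at h2
    refine h2.trans (add_le_add ?_ le_rfl)
    rw [← hX]; exact measure_mono (Set.subset_univ _)

/-- total mass as a real number -/
noncomputable def totalMass (X : MMSpace) : ℝ := (X.mass Set.univ).toReal

lemma abs_totalMass_sub_le {X Y : MMSpace} {ε : ℝ} (hε : 0 < ε)
    (h : ghpEDist X Y < ENNReal.ofReal ε) : |totalMass X - totalMass Y| ≤ ε := by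
  obtain ⟨h1, h2⟩ := mass_le_of_ghp_lt h
  have hX : X.mass Set.univ ≠ ∞ := measure_ne_top _ _
  have hY : Y.mass Set.univ ≠ ∞ := measure_ne_top _ _
  have e1 : totalMass X ≤ totalMass Y + ε := by
    unfold totalMass
    have := ENNReal.toReal_mono (ENNReal.add_ne_top.2 ⟨hY, ENNReal.ofReal_ne_top⟩) h1
    rwa [ENNReal.toReal_add hY ENNReal.ofReal_ne_top, ENNReal.toReal_ofReal hε.le] at this
  have e2 : totalMass Y ≤ totalMass X + ε := by
    unfold totalMass
    have := ENNReal.toReal_mono (ENNReal.add_ne_top.2 ⟨hX, ENNReal.ofReal_ne_top⟩) h2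
    rwa [ENNReal.toReal_add hX ENNReal.ofReal_ne_top, ENNReal.toReal_ofReal hε.le] at this
  rw [abs_le]; constructor <;> linarith

lemma tendsto_totalMass {X : ℕ → MMSpace} {Y : MMSpace}
    (h : Tendsto (fun k => ghpEDist (X k) Y) atTop (𝓝 0)) :
    Tendsto (fun k => totalMass (X k)) atTop (𝓝 (totalMass Y)) := by
  rw [Metric.tendsto_atTop]
  intro ε hε
  have h1 : ∀ᶠ k in atTop, ghpEDist (X k) Y < ENNReal.ofReal (ε / 2) :=
    h.eventually_lt_const (ENNReal.ofReal_pos.2 (by positivity))
  obtain ⟨N, hN⟩ := eventually_atTop.1 h1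
  refine ⟨N, fun n hn => ?_⟩
  rw [Real.dist_eq]
  exact (abs_totalMass_sub_le (by positivity) (hN n hn)).trans_lt (by linarith)

/-- the test function -/
noncomputable def testFun (X : ℕ → MMSpace) : ℝ := min 1 (totalMass (X 0) ^ 2)

lemma testFun_isBoundedContinuous : IsBoundedContinuous testFun := by
  refine ⟨⟨1, fun X => ?_⟩, fun X Y h => ?_⟩
  · unfold testFun
    rw [abs_le]
    constructor
    · have : 0 ≤ min 1 (totalMass (X 0) ^ 2) := le_min zero_le_one (sq_nonneg _)
      linarith
    · exact min_le_left _ _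
  · unfold testFun
    exact tendsto_const_nhds.min ((tendsto_totalMass (h 0)).pow 2)

variable {V : Type} [Fintype V]

omit [Fintype V] in
lemma smul_count_univ {α : Type} (m : MeasurableSpace α) (c : ℝ≥0) :
    (c • @Measure.count α m) Set.univ = (c : ℝ≥0∞) * (ENat.card α : ℝ≥0∞) := by
  rw [Measure.smul_apply, ENNReal.smul_def, smul_eq_mul, Measure.count_univ]

lemma totalMass_componentSpace (G : SimpleGraph V) (C : G.ConnectedComponent) :
    totalMass (componentSpace G C) =
      (Fintype.card V : ℝ) ^ (-(2 / 3) : ℝ) * (C.supp.ncard : ℝ) := by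
  have h0 : (0 : ℝ) ≤ (Fintype.card V : ℝ) ^ (-(2 / 3) : ℝ) := by positivity
  have hcard : ENat.card {v : V // G.connectedComponentMk v = C} = (C.supp.ncard : ℕ∞) := by
    rw [Set.ncard_eq_toFinset_card', Set.toFinset_card, ENat.card_eq_coe_fintype_card]
    congr 1
    exact Fintype.card_congr (Equiv.refl _)
  have hm : (componentSpace G C).mass Set.univ =
      (Real.toNNReal ((Fintype.card V : ℝ) ^ (-(2 / 3) : ℝ)) : ℝ≥0∞) * (C.supp.ncard : ℝ≥0∞) := by
    have h1 := smul_count_univ (componentSpace G C).measurable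
      (Real.toNNReal ((Fintype.card V : ℝ) ^ (-(2 / 3) : ℝ)))
    refine Eq.trans ?_ (h1.trans ?_)
    · rfl
    · congr 1
      have h2 : ENat.card (componentSpace G C).carrier = (C.supp.ncard : ℕ∞) := hcard
      rw [h2, ENat.toENNReal_coe]
  rw [totalMass, hm, ENNReal.toReal_mul, ENNReal.coe_toReal, Real.coe_toNNReal _ h0]
  simp

lemma totalMass_pointSpace : totalMass pointSpace = 0 := by
  have h : pointSpace.mass = 0 := rfl
  rw [totalMass, h, Measure.coe_zero]
  simp

lemma ncard_supp_eq (G : SimpleGraph V) (C : G.ConnectedComponent) (x : V)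
    (hx : G.connectedComponentMk x = C) :
    C.supp.ncard = (Finset.univ.filter fun y => G.Reachable x y).card := by
  rw [Set.ncard_eq_toFinset_card']
  congr 1
  ext y
  simp only [Set.mem_toFinset, SimpleGraph.ConnectedComponent.mem_supp_iff, Finset.mem_filter,
    Finset.mem_univ, true_and]
  rw [← hx, SimpleGraph.ConnectedComponent.eq]
  exact ⟨fun h => h.symm, fun h => h.symm⟩

lemma sq_ncard_le (G : SimpleGraph V) (C : G.ConnectedComponent) :
    ((C.supp.ncard : ℝ)) ^ 2 ≤ clusterSum G := by
  unfold clusterSum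
  have h1 : ∑ x ∈ C.supp.toFinset, ((Finset.univ.filter fun y => G.Reachable x y).card : ℝ) ≤
      ∑ x, ((Finset.univ.filter fun y => G.Reachable x y).card : ℝ) :=
    Finset.sum_le_sum_of_subset_of_nonneg (Finset.subset_univ _) fun _ _ _ => by positivity
  refine le_trans (le_of_eq ?_) h1
  have h2 : ∀ x ∈ C.supp.toFinset,
      ((Finset.univ.filter fun y => G.Reachable x y).card : ℝ) = (C.supp.ncard : ℝ) := by
    intro x hx
    rw [ncard_supp_eq G C x (by simpa using hx)]
  rw [Finset.sum_congr rfl h2, Finset.sum_const, ← Set.ncard_eq_toFinset_card', nsmul_eq_mul, sq]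

lemma testFun_le (G : SimpleGraph V) :
    testFun (scaledComponents G) ≤ ((Fintype.card V : ℝ) ^ (-(2 / 3) : ℝ)) ^ 2 * clusterSum G := by
  refine (min_le_right _ _).trans ?_
  unfold scaledComponents
  split_ifs with h
  · rw [totalMass_componentSpace, mul_pow]
    exact mul_le_mul_of_nonneg_left (sq_ncard_le G _) (by positivity)
  · rw [totalMass_pointSpace]
    have h1 : (0 : ℝ) ≤ clusterSum G := Finset.sum_nonneg fun _ _ => by positivity
    have h2 : (0 : ℝ) ≤ ((Fintype.card V : ℝ) ^ (-(2 / 3) : ℝ)) ^ 2 := by positivity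
    have h3 := mul_nonneg h2 h1
    simpa using h3

lemma testFun_nonneg (X : ℕ → MMSpace) : 0 ≤ testFun X := le_min zero_le_one (sq_nonneg _)

lemma one_le_testFun (G : SimpleGraph V) (C : G.ConnectedComponent)
    (hC : (Fintype.card V : ℝ) ^ ((2 : ℝ) / 3) ≤ (C.supp.ncard : ℝ)) :
    1 ≤ testFun (scaledComponents G) := by
  have hV : (0 : ℝ) < (Fintype.card V : ℝ) := by exact_mod_cast card_pos_of_component G C
  have hmem : C ∈ componentList G := by
    unfold componentList
    rw [List.mem_mergeSort]
    simp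
  have hlen : 0 < (componentList G).length := List.length_pos_of_mem hmem
  have hsort : (componentList G).Pairwise
      (fun C D : G.ConnectedComponent => decide (D.supp.ncard ≤ C.supp.ncard) = true) := by
    unfold componentList
    refine List.pairwise_mergeSort ?_ ?_ _
    · intro a b c h1 h2
      simp only [decide_eq_true_eq] at h1 h2 ⊢
      exact h2.trans h1
    · intro a b
      simp only [Bool.or_eq_true, decide_eq_true_eq]
      exact le_total _ _
  have hmax : C.supp.ncard ≤ ((componentList G)[0]'hlen).supp.ncard := by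
    obtain ⟨i, hi, hiC⟩ := List.getElem_of_mem hmem
    rcases Nat.eq_zero_or_pos i with h0 | h0
    · subst h0; rw [hiC]
    · have := List.pairwise_iff_getElem.1 hsort 0 i hlen hi h0
      rw [hiC] at this
      simpa using this
  unfold testFun scaledComponents
  rw [dif_pos hlen, totalMass_componentSpace]
  refine le_min le_rfl ?_
  have h1 : (1 : ℝ) ≤ (Fintype.card V : ℝ) ^ (-(2 / 3) : ℝ) *
      (((componentList G)[0]'hlen).supp.ncard : ℝ) := by
    have h2 : (1 : ℝ) = (Fintype.card V : ℝ) ^ (-(2 / 3) : ℝ) *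
        (Fintype.card V : ℝ) ^ ((2 : ℝ) / 3) := by
      rw [← Real.rpow_add hV]; norm_num
    have h3 : (C.supp.ncard : ℝ) ≤ (((componentList G)[0]'hlen).supp.ncard : ℝ) := by
      exact_mod_cast hmax
    calc (1 : ℝ) = _ := h2
      _ ≤ _ := mul_le_mul_of_nonneg_left (hC.trans h3) (by positivity)
  exact one_le_pow₀ h1

end Pool.Agent.Helper96.HP
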