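import Mathlib
import Pool.Agent.Helper96.HierPath
import Pool.Agent.Helper96.HierMM

/-!
The hierarchical random graph: sums over shells and the bound for the expected sum of squares of
the component sizes.
-/

open Filter Topology
open scoped Classical

namespace Pool.Agent.Helper96.HP

variable {d L n : ℕ} [NeZero L]

omit [NeZero L] in
lemma level_le_iff (w : Box d L n) (i : ℕ) :
    level w ≤ i ↔ ∀ j : Fin n, i ≤ (j : ℕ) → w j = 0 := by
  unfold level
  rw [Finset.sup_le_iff]
  constructor
  · intro h j hj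
    by_contra hne
    have := h j (Finset.mem_univ _)
    rw [if_pos hne] at this
    omega
  · intro h j _
    split_ifs with hne
    · by_contra hlt
      exact hne (h j (by omega))
    · exact Nat.zero_le _

omit [NeZero L] in
lemma level_le (w : Box d L n) : level w ≤ n := by
  rw [level_le_iff]
  intro j hj
  exact absurd j.2 (by omega)

omit [NeZero L] in
lemma level_eq_zero_iff (w : Box d L n) : level w = 0 ↔ w = 0 := by
  rw [← Nat.le_zero, level_le_iff]
  constructor
  · intro h; funext j; exact h j (Nat.zero_le _)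
  · intro h j _; rw [h]; rfl

lemma card_level_le (i : ℕ) (hi : i ≤ n) :
    (Finset.univ.filter fun w : Box d L n => level w ≤ i).card = (L ^ d) ^ i := by
  have h1 : (Finset.univ.filter fun w : Box d L n => level w ≤ i) =
      Fintype.piFinset (fun j : Fin n =>
        if (j : ℕ) < i then (Finset.univ : Finset (Fin d → ZMod L)) else {0}) := by
    ext w
    rw [Finset.mem_filter, Fintype.mem_piFinset, level_le_iff]
    constructor
    · rintro ⟨-, h⟩ j
      split_ifs with hj
      · exact Finset.mem_univ _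
      · exact Finset.mem_singleton.2 (h j (by omega))
    · intro h
      refine ⟨Finset.mem_univ _, fun j hj => ?_⟩
      have := h j
      rw [if_neg (by omega)] at this
      exact Finset.mem_singleton.1 this
  rw [h1, Fintype.card_piFinset]
  have h2 : ∀ j : Fin n, (if (j : ℕ) < i then (Finset.univ : Finset (Fin d → ZMod L))
      else {0}).card = if (j : ℕ) < i then L ^ d else 1 := by
    intro j
    split_ifs
    · rw [Finset.card_univ]; simp [ZMod.card]
    · simp
  rw [Finset.prod_congr rfl (fun j _ => h2 j),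
    Fin.prod_univ_eq_prod_range (fun j => if j < i then L ^ d else 1) n, Finset.prod_ite,
    Finset.prod_const, Finset.prod_const_one, mul_one]
  congr 1
  have h3 : (Finset.range n).filter (fun j => j < i) = Finset.range i := by
    ext j; simp only [Finset.mem_filter, Finset.mem_range]; omega
  rw [h3, Finset.card_range]

lemma card_level_eq_zero :
    (Finset.univ.filter fun w : Box d L n => level w = 0).card = 1 := by
  have := card_level_le (d := d) (L := L) (n := n) 0 (Nat.zero_le _)
  simpa using this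

lemma card_level_eq_succ (i : ℕ) (hi : i + 1 ≤ n) :
    ((Finset.univ.filter fun w : Box d L n => level w = i + 1).card : ℝ) =
      ((L : ℝ) ^ d) ^ (i + 1) - ((L : ℝ) ^ d) ^ i := by
  have h1 := card_level_le (d := d) (L := L) (n := n) (i + 1) hi
  have h2 := card_level_le (d := d) (L := L) (n := n) i (by omega)
  have h3 : (Finset.univ.filter fun w : Box d L n => level w ≤ i + 1) =
      (Finset.univ.filter fun w : Box d L n => level w ≤ i) ∪
        (Finset.univ.filter fun w : Box d L n => level w = i + 1) := by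
    ext w; simp only [Finset.mem_filter, Finset.mem_univ, true_and, Finset.mem_union]; omega
  have h4 : Disjoint (Finset.univ.filter fun w : Box d L n => level w ≤ i)
      (Finset.univ.filter fun w : Box d L n => level w = i + 1) := by
    rw [Finset.disjoint_left]
    intro w hw hw'
    simp only [Finset.mem_filter, Finset.mem_univ, true_and] at hw hw'
    omega
  rw [h3, Finset.card_union_of_disjoint h4, h2] at h1
  have h5 : (((L ^ d) ^ i : ℕ) : ℝ) +
      ((Finset.univ.filter fun w : Box d L n => level w = i + 1).card : ℝ) =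
        (((L ^ d) ^ (i + 1) : ℕ) : ℝ) := by exact_mod_cast h1
  push_cast at h5
  linarith

/-- Sum over the shells. -/
lemma sum_level (g : ℕ → ℝ) :
    ∑ w : Box d L n, g (level w) =
      g 0 + ∑ i ∈ Finset.Icc 1 n, (((L : ℝ) ^ d) ^ i - ((L : ℝ) ^ d) ^ (i - 1)) * g i := by
  rw [← Finset.sum_fiberwise_of_maps_to (s := (Finset.univ : Finset (Box d L n)))
    (t := Finset.range (n + 1)) (g := level)
    (fun w _ => Finset.mem_range.2 (Nat.lt_succ_of_le (level_le w)))]
  have h1 : ∀ i ∈ Finset.range (n + 1),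
      ∑ w ∈ (Finset.univ : Finset (Box d L n)) with level w = i, g (level w) =
        ((Finset.univ.filter fun w : Box d L n => level w = i).card : ℝ) * g i := by
    intro i _
    rw [Finset.sum_congr rfl (g := fun _ => g i) (fun w hw => by
      rw [(Finset.mem_filter.1 hw).2]), Finset.sum_const, nsmul_eq_mul]
  rw [Finset.sum_congr rfl h1, Finset.sum_range_succ', card_level_eq_zero]
  have h2 : ∑ i ∈ Finset.Icc 1 n, (((L : ℝ) ^ d) ^ i - ((L : ℝ) ^ d) ^ (i - 1)) * g i =
      ∑ i ∈ Finset.range n, (((L : ℝ) ^ d) ^ (i + 1) - ((L : ℝ) ^ d) ^ i) * g (i + 1) := by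
    have h3 : Finset.Icc 1 n = Finset.Ico 1 (n + 1) := by
      ext i; simp only [Finset.mem_Icc, Finset.mem_Ico]; omega
    rw [h3, Finset.sum_Ico_eq_sum_range]
    refine Finset.sum_congr (by simp) fun i _ => ?_
    rw [add_comm 1 i, Nat.add_sub_cancel]
  rw [h2, add_comm]
  congr 1
  · simp
  · refine Finset.sum_congr rfl fun i hi => ?_
    rw [card_level_eq_succ i (by rw [Finset.mem_range] at hi; omega)]

lemma pairSum_level (p : Sym2 (Box d L n) → ℝ) (φ : ℕ → ℝ)
    (hp : ∀ x y : Box d L n, x ≠ y → p s(x, y) = φ (level (x - y))) (g : ℝ → ℝ)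
    (x : Box d L n) :
    pairSum p g x =
      ∑ i ∈ Finset.Icc 1 n, (((L : ℝ) ^ d) ^ i - ((L : ℝ) ^ d) ^ (i - 1)) * g (φ i) := by
  have h1 : ∑ y : Box d L n, g (φ (level (x - y))) = ∑ w : Box d L n, g (φ (level w)) :=
    Equiv.sum_comp (Equiv.subLeft x) (fun w => g (φ (level w)))
  have h2 := Finset.add_sum_erase Finset.univ (fun y => g (φ (level (x - y)))) (Finset.mem_univ x)
  rw [sum_level (fun i => g (φ i))] at h1
  have h3 : level (x - x) = 0 := by rw [level_eq_zero_iff, sub_self]
  simp only [h3] at h2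
  have h4 : pairSum p g x = ∑ y ∈ Finset.univ.erase x, g (φ (level (x - y))) := by
    unfold pairSum
    refine Finset.sum_congr ?_ fun y hy => ?_
    · ext y; simp only [Finset.mem_erase]
    · rw [hp x y (Finset.ne_of_mem_erase hy).symm]
  rw [h4]
  linarith

/-- edge probability as a function of the level -/
noncomputable def levelProb (L : ℕ) (ρ : ℝ → ℝ) (z b : ℝ) (i : ℕ) : ℝ :=
  1 - Real.exp (-max (ρ ((L : ℝ) ^ i) / z + b) 0)

omit [NeZero L] in
lemma edgeProb_eq (ρ : ℝ → ℝ) (z lam : ℝ) (x y : Box d L n) (h : x ≠ y) :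
    edgeProb ρ z lam s(x, y) =
      levelProb L ρ z (lam * (L : ℝ) ^ (-(4 * (n * d) / 3) : ℝ)) (level (x - y)) := by
  unfold edgeProb levelProb intensity hnorm
  rw [Sym2.lift_mk]
  simp only
  rw [if_neg (sub_ne_zero.2 h)]

omit [NeZero L] in
lemma levelProb_nonneg (ρ : ℝ → ℝ) (z b : ℝ) (i : ℕ) : 0 ≤ levelProb L ρ z b i := by
  unfold levelProb
  have : Real.exp (-max (ρ ((L : ℝ) ^ i) / z + b) 0) ≤ 1 := by
    rw [Real.exp_le_one_iff]
    have := le_max_right (ρ ((L : ℝ) ^ i) / z + b) 0
    linarith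
  linarith

omit [NeZero L] in
lemma levelProb_le_one (ρ : ℝ → ℝ) (z b : ℝ) (i : ℕ) : levelProb L ρ z b i ≤ 1 := by
  unfold levelProb
  have := Real.exp_pos (-max (ρ ((L : ℝ) ^ i) / z + b) 0)
  linarith

omit [NeZero L] in
lemma levelProb_le (ρ : ℝ → ℝ) (z b : ℝ) (i : ℕ) (h : 0 ≤ ρ ((L : ℝ) ^ i) / z) :
    levelProb L ρ z b i ≤ (1 - Real.exp (-ρ ((L : ℝ) ^ i) / z)) + |b| := by
  unfold levelProb
  set a := ρ ((L : ℝ) ^ i) / z with ha
  have e1 : max (a + b) 0 ≤ a + |b| := by
    refine max_le ?_ ?_
    · have := le_abs_self b; linarith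
    · have := abs_nonneg b; linarith
  have e2 : Real.exp (-(a + |b|)) ≤ Real.exp (-max (a + b) 0) := Real.exp_le_exp.2 (by linarith)
  have e3 : Real.exp (-(a + |b|)) = Real.exp (-a) * Real.exp (-|b|) := by
    rw [← Real.exp_add]; congr 1; ring
  have e4 : 1 - |b| ≤ Real.exp (-|b|) := by
    have := Real.add_one_le_exp (-|b|); linarith
  have e5 : Real.exp (-a) ≤ 1 := Real.exp_le_one_iff.2 (by linarith)
  have e6 : 0 < Real.exp (-a) := Real.exp_pos _
  have e7 : -ρ ((L : ℝ) ^ i) / z = -a := by rw [ha]; ring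
  rw [e7]
  have e8 : Real.exp (-a) * (1 - |b|) ≤ Real.exp (-a) * Real.exp (-|b|) :=
    mul_le_mul_of_nonneg_left e4 e6.le
  have e9 : Real.exp (-a) * |b| ≤ 1 * |b| := mul_le_mul_of_nonneg_right e5 (abs_nonneg b)
  nlinarith

omit [NeZero L] in
lemma levelProb_ge (ρ : ℝ → ℝ) (z b u : ℝ) (i : ℕ) (hu : 0 ≤ u)
    (h : u ≤ ρ ((L : ℝ) ^ i) / z + b) : u / (1 + u) ≤ levelProb L ρ z b i := by
  unfold levelProb
  have e1 : Real.exp (-max (ρ ((L : ℝ) ^ i) / z + b) 0) ≤ Real.exp (-u) :=
    Real.exp_le_exp.2 (by have := le_max_left (ρ ((L : ℝ) ^ i) / z + b) 0; linarith)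
  have e2 : Real.exp (-u) ≤ 1 / (1 + u) := by
    rw [Real.exp_neg, ← one_div]
    exact one_div_le_one_div_of_le (by linarith) (by have := Real.add_one_le_exp u; linarith)
  have e3 : u / (1 + u) = 1 - 1 / (1 + u) := by
    field_simp; ring
  rw [e3]; linarith

end Pool.Agent.Helper96.HP
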