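import Mathlib
import Pool.Agent.Helper96.HierLattice

/-!
The upper bound for the test function of the hierarchical random graph.
-/

open Filter Topology
open scoped Classical

namespace Pool.Agent.Helper96.HP

lemma telescoping (q : ℝ) (n : ℕ) :
    ∑ i ∈ Finset.Icc 1 n, (q ^ i - q ^ (i - 1)) = q ^ n - 1 := by
  have h3 : Finset.Icc 1 n = Finset.Ico 1 (n + 1) := by
    ext i; simp only [Finset.mem_Icc, Finset.mem_Ico]; omega
  rw [h3, Finset.sum_Ico_eq_sum_range]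
  have h4 : ∑ i ∈ Finset.range (n + 1 - 1), (q ^ (1 + i) - q ^ (1 + i - 1)) =
      ∑ i ∈ Finset.range n, (q ^ (i + 1) - q ^ i) := by
    refine Finset.sum_congr (by simp) fun i _ => ?_
    rw [add_comm 1 i, Nat.add_sub_cancel]
  rw [h4, Finset.sum_range_sub (fun i => q ^ i)]
  simp

lemma shell_weight (d L i : ℕ) (hi : 1 ≤ i) :
    ((L : ℝ) ^ d - 1) * (L : ℝ) ^ ((i - 1) * d) = ((L : ℝ) ^ d) ^ i - ((L : ℝ) ^ d) ^ (i - 1) := by
  obtain ⟨k, rfl⟩ := Nat.exists_eq_add_of_le hi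
  rw [Nat.add_sub_cancel_left, mul_comm k d, pow_mul, add_comm 1 k, pow_succ]
  ring

/-- mean degree one -/
lemma sum_one (d L n : ℕ) (ρ : ℝ → ℝ) (z : ℝ)
    (heq : ∑ i ∈ Finset.Icc 1 n, ((L : ℝ) ^ d - 1) * (L : ℝ) ^ ((i - 1) * d) *
      Real.exp (-ρ ((L : ℝ) ^ i) / z) = (L : ℝ) ^ (n * d) - 2) :
    ∑ i ∈ Finset.Icc 1 n, (((L : ℝ) ^ d) ^ i - ((L : ℝ) ^ d) ^ (i - 1)) *
      (1 - Real.exp (-ρ ((L : ℝ) ^ i) / z)) = 1 := by
  have h1 : ∑ i ∈ Finset.Icc 1 n, ((L : ℝ) ^ d - 1) * (L : ℝ) ^ ((i - 1) * d) *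
      Real.exp (-ρ ((L : ℝ) ^ i) / z) =
      ∑ i ∈ Finset.Icc 1 n, (((L : ℝ) ^ d) ^ i - ((L : ℝ) ^ d) ^ (i - 1)) *
        Real.exp (-ρ ((L : ℝ) ^ i) / z) := by
    refine Finset.sum_congr rfl fun i hi => ?_
    rw [shell_weight d L i (Finset.mem_Icc.1 hi).1]
  rw [h1] at heq
  have h2 := telescoping ((L : ℝ) ^ d) n
  have h3 : ((L : ℝ) ^ d) ^ n = (L : ℝ) ^ (n * d) := by rw [← pow_mul, mul_comm]
  rw [h3] at h2
  simp only [mul_sub, mul_one, Finset.sum_sub_distrib] at *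
  linarith

set_option maxHeartbeats 1000000 in
/-- Bound for the expectation of the test function in the box of side `n`. -/
lemma hier_bound (d L n : ℕ) [NeZero L] (hd : 1 ≤ d) (hL : 2 ≤ L) (hn : 1 ≤ n)
    (ρ : ℝ → ℝ) (z lam u v : ℝ) (hρ : ∀ r, 1 ≤ r → 0 ≤ ρ r) (hz : 0 < z)
    (heq : ∑ i ∈ Finset.Icc 1 n, ((L : ℝ) ^ d - 1) * (L : ℝ) ^ ((i - 1) * d) *
      Real.exp (-ρ ((L : ℝ) ^ i) / z) = (L : ℝ) ^ (n * d) - 2)
    (hv : v = (L : ℝ) ^ (-((n * d) / 6) : ℝ)) (hu0 : 0 < u) (hu1 : u ≤ 1)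
    (hu : 2 * u ≤ ρ (L : ℝ) / z) (hb : |lam| * v ^ 8 ≤ u)
    (hc : 2 * |lam| * v ^ 2 + lam ^ 2 * v ^ 4 ≤ u ^ 2 / 8) :
    graphExpect (edgeProb (d := d) (L := L) (n := n) ρ z lam)
      (fun G => testFun (scaledComponents G)) ≤ 8 * (2 + |lam| * v ^ 2) * (v ^ 2 / u ^ 2) := by
  have hLpos : (0 : ℝ) < (L : ℝ) := by exact_mod_cast (by omega : 0 < L)
  have hL1 : (1 : ℝ) ≤ (L : ℝ) := by exact_mod_cast (by omega : 1 ≤ L)
  have hvpos : 0 < v := by rw [hv]; exact Real.rpow_pos_of_pos hLpos _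
  -- powers of `v`
  set b : ℝ := lam * (L : ℝ) ^ (-(4 * (n * d) / 3) : ℝ) with hbdef
  have hv8 : v ^ 8 = (L : ℝ) ^ (-(4 * (n * d) / 3) : ℝ) := by
    rw [hv, ← Real.rpow_natCast, ← Real.rpow_mul hLpos.le]
    congr 1; push_cast; ring
  have hv6 : v ^ 6 = (L : ℝ) ^ (-(n * d) : ℝ) := by
    rw [hv, ← Real.rpow_natCast, ← Real.rpow_mul hLpos.le]
    congr 1; push_cast; ring
  have hbabs : |b| = |lam| * v ^ 8 := by
    rw [hbdef, abs_mul, ← hv8, abs_of_pos (pow_pos hvpos 8)]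
  have hbu : |b| ≤ u := by rw [hbabs]; exact hb
  set q : ℝ := (L : ℝ) ^ d with hq
  have hq1 : 1 ≤ q := one_le_pow₀ hL1
  have hVcard : (Fintype.card (Box d L n) : ℝ) = q ^ n := by
    rw [hq, Fintype.card_fun, Fintype.card_fun, ZMod.card]
    simp
  have hVv : q ^ n * v ^ 6 = 1 := by
    rw [hv6, hq, ← pow_mul, ← Real.rpow_natCast, ← Real.rpow_add hLpos]
    push_cast
    rw [show ((d : ℝ) * (n : ℝ) + -((n : ℝ) * (d : ℝ))) = 0 by ring, Real.rpow_zero]
  have hLi : ∀ i : ℕ, 1 ≤ (L : ℝ) ^ i := fun i => one_le_pow₀ hL1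
  have hJ : ∀ i : ℕ, 0 ≤ ρ ((L : ℝ) ^ i) / z := fun i => div_nonneg (hρ _ (hLi i)) hz.le
  set p : Sym2 (Box d L n) → ℝ := edgeProb (d := d) (L := L) (n := n) ρ z lam with hp
  have hpe : ∀ x y : Box d L n, x ≠ y → p s(x, y) = levelProb L ρ z b (level (x - y)) :=
    fun x y h => edgeProb_eq ρ z lam x y h
  have h0 : ∀ x y, x ≠ y → 0 ≤ p s(x, y) := fun x y h => by
    rw [hpe x y h]; exact levelProb_nonneg _ _ _ _
  have h1 : ∀ x y, x ≠ y → p s(x, y) ≤ 1 := fun x y h => by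
    rw [hpe x y h]; exact levelProb_le_one _ _ _ _
  set m : ℝ := 1 + |lam| * v ^ 2 with hm
  have hm1 : 1 ≤ m := by have := mul_nonneg (abs_nonneg lam) (sq_nonneg v); linarith
  have hmsum : ∀ x, pairSum p (fun t => t) x ≤ m := by
    intro x
    rw [pairSum_level p (fun i => levelProb L ρ z b i) hpe (fun t => t) x]
    have e2 : ∑ i ∈ Finset.Icc 1 n, (q ^ i - q ^ (i - 1)) * levelProb L ρ z b i ≤
        ∑ i ∈ Finset.Icc 1 n, ((q ^ i - q ^ (i - 1)) * (1 - Real.exp (-ρ ((L : ℝ) ^ i) / z)) +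
          (q ^ i - q ^ (i - 1)) * |b|) := by
      refine Finset.sum_le_sum fun i hi => ?_
      rw [← mul_add]
      refine mul_le_mul_of_nonneg_left (levelProb_le ρ z b i (hJ i)) ?_
      exact sub_nonneg.2 (pow_le_pow_right₀ hq1 (Nat.sub_le _ _))
    refine e2.trans ?_
    rw [Finset.sum_add_distrib, ← Finset.sum_mul, sum_one d L n ρ z heq, telescoping, hm]
    have e3 : (q ^ n - 1) * |b| ≤ q ^ n * |b| :=
      mul_le_mul_of_nonneg_right (by linarith) (abs_nonneg b)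
    have e4 : q ^ n * |b| = |lam| * v ^ 2 := by
      rw [hbabs]
      calc q ^ n * (|lam| * v ^ 8) = (q ^ n * v ^ 6) * (|lam| * v ^ 2) := by ring
        _ = |lam| * v ^ 2 := by rw [hVv, one_mul]
    linarith
  -- a neighbour at the lowest level
  have hδ : ∀ x : Box d L n, ∃ y, x ≠ y ∧ u / 2 ≤ p s(x, y) := by
    intro x
    have hc1 := card_level_eq_succ (d := d) (L := L) (n := n) 0 (by omega)
    have hLd : (2 : ℝ) ≤ (L : ℝ) ^ d := by
      have : (L : ℝ) ^ 1 ≤ (L : ℝ) ^ d := pow_le_pow_right₀ hL1 hd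
      have h2 : (2 : ℝ) ≤ (L : ℝ) := by exact_mod_cast hL
      linarith [pow_one (L : ℝ)]
    have hc2 : (0 : ℝ) < ((Finset.univ.filter fun w : Box d L n => level w = 0 + 1).card : ℝ) := by
      rw [hc1]; simp; linarith
    have hc3 : 0 < (Finset.univ.filter fun w : Box d L n => level w = 0 + 1).card := by
      exact_mod_cast hc2
    obtain ⟨w, hw⟩ := Finset.card_pos.1 hc3
    rw [Finset.mem_filter] at hw
    have hw1 : level w = 1 := by simpa using hw.2
    have hw0 : w ≠ 0 := fun h => by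
      rw [(level_eq_zero_iff w).2 h] at hw1; exact absurd hw1 (by norm_num)
    have hxy : x ≠ x - w := fun h => hw0 (by
      have : x - (x - w) = w := by abel
      rw [← this, ← h, sub_self])
    refine ⟨x - w, hxy, ?_⟩
    rw [hpe _ _ hxy, show x - (x - w) = w by abel, hw1]
    have e1 : u ≤ ρ ((L : ℝ) ^ 1) / z + b := by
      rw [pow_one]; have := neg_abs_le b; linarith
    refine le_trans ?_ (levelProb_ge ρ z b u 1 hu0.le e1)
    rw [div_le_div_iff₀ (by norm_num) (by linarith)]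
    nlinarith
  set r : ℝ := m ^ 2 - (u / 2) ^ 2 with hr
  have hrsum : ∀ x, pairSum p (fun t => t * (m - t)) x ≤ r := by
    intro x
    obtain ⟨y0, hy0, hy0'⟩ := hδ x
    have e1 : pairSum p (fun t => t * (m - t)) x =
        pairSum p (fun t => t) x * m - pairSum p (fun t => t ^ 2) x := pairSum_quad p m x
    have e2 : p s(x, y0) ^ 2 ≤ pairSum p (fun t => t ^ 2) x :=
      le_pairSum p (fun t => t ^ 2) x y0 hy0 (fun _ _ => sq_nonneg _)
    have e3 : (u / 2) ^ 2 ≤ p s(x, y0) ^ 2 := pow_le_pow_left₀ (by linarith) hy0' 2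
    have e4 : pairSum p (fun t => t) x * m ≤ m * m :=
      mul_le_mul_of_nonneg_right (hmsum x) (by linarith)
    have e5 : m * m = m ^ 2 := by ring
    rw [e1, hr]; linarith
  have hr0 : 0 ≤ r := by
    have e1 : (u / 2) ^ 2 ≤ 1 := by
      have : u / 2 ≤ 1 := by linarith
      exact pow_le_one₀ (by linarith) this
    have e2 : 1 ≤ m ^ 2 := one_le_pow₀ hm1
    rw [hr]; linarith
  set B : ℝ := 8 * (1 + m) / u ^ 2 with hB
  have hB0 : 0 ≤ B := by rw [hB]; positivity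
  have hBB : 1 + m + r * B ≤ B := by
    have e1 : u ^ 2 / 8 ≤ 1 - r := by
      have e0 : (1 + |lam| * v ^ 2) ^ 2 = 1 + (2 * |lam| * v ^ 2 + lam ^ 2 * v ^ 4) := by
        rw [← sq_abs lam]; ring
      have e00 : (u / 2) ^ 2 = u ^ 2 / 4 := by ring
      rw [hr, hm, e0, e00]
      linarith
    have e2 : u ^ 2 / 8 * B = 1 + m := by
      rw [hB]; field_simp
    have e3 := mul_le_mul_of_nonneg_right e1 hB0
    rw [e2] at e3
    have e4 : (1 - r) * B = B - r * B := by ring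
    linarith
  have hmain := expect_clusterSum_le p m r B h0 h1 hmsum hrsum hr0 hB0 hBB
  have hcoef : ((Fintype.card (Box d L n) : ℝ) ^ (-(2 / 3) : ℝ)) ^ 2 = v ^ 8 := by
    rw [hVcard, hq, ← pow_mul, ← Real.rpow_natCast, ← Real.rpow_natCast, ← Real.rpow_mul hLpos.le,
      ← Real.rpow_mul hLpos.le, hv8]
    congr 1; push_cast; ring
  have hmono : graphExpect p (fun G => testFun (scaledComponents G)) ≤
      graphExpect p (fun G => v ^ 8 * clusterSum G) := by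
    refine graphExpect_mono ?_ ?_ fun G => ?_
    · intro e
      induction e using Sym2.ind with
      | h a c => intro he; exact h0 a c (by simpa using he)
    · intro e
      induction e using Sym2.ind with
      | h a c => intro he; exact h1 a c (by simpa using he)
    · rw [← hcoef]; exact testFun_le G
  refine hmono.trans ?_
  rw [graphExpect_mul_left]
  have hfin : v ^ 8 * (q ^ n * B) = 8 * (2 + |lam| * v ^ 2) * (v ^ 2 / u ^ 2) := by
    calc v ^ 8 * (q ^ n * B) = (q ^ n * v ^ 6) * (v ^ 2 * B) := by ring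
      _ = v ^ 2 * B := by rw [hVv, one_mul]
      _ = _ := by rw [hB, hm]; field_simp; ring
  rw [← hfin, ← hVcard]
  exact mul_le_mul_of_nonneg_left hmain (by positivity)

end Pool.Agent.Helper96.HP
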