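import Mathlib
import Pool.Agent.Helper96.HierBound

/-!
The test function of the critical hierarchical random graph tends to zero in mean.
-/

open Filter Topology
open scoped Classical

namespace Pool.Agent.Helper96.HP

lemma rho_le {α A ρr r : ℝ} (hr : 1 ≤ r) (h : r ^ α * ρr ≤ A) : ρr ≤ A * r ^ (-α) := by
  have h0 : 0 < r := by linarith
  have h1 : 0 < r ^ α := Real.rpow_pos_of_pos h0 _
  rw [Real.rpow_neg h0.le, ← div_eq_mul_inv, le_div_iff₀ h1, mul_comm]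
  exact h

lemma le_rho {α A ρr r : ℝ} (hr : 1 ≤ r) (h : A ≤ r ^ α * ρr) : A * r ^ (-α) ≤ ρr := by
  have h0 : 0 < r := by linarith
  have h1 : 0 < r ^ α := Real.rpow_pos_of_pos h0 _
  rw [Real.rpow_neg h0.le, ← div_eq_mul_inv, div_le_iff₀ h1, mul_comm]
  exact h

/-- upper bound for the normalisation -/
lemma zeta_le (d L n : ℕ) (hL : 2 ≤ L) (α A : ℝ) (hα : α ≤ d) (hA : 0 < A)
    (ρ : ℝ → ℝ) (z : ℝ) (hρ0 : ∀ r, 1 ≤ r → 0 ≤ ρ r) (hρ : ∀ r, 1 ≤ r → r ^ α * ρ r ≤ A)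
    (hz : 0 < z)
    (heq : ∑ i ∈ Finset.Icc 1 n, ((L : ℝ) ^ d - 1) * (L : ℝ) ^ ((i - 1) * d) *
      Real.exp (-ρ ((L : ℝ) ^ i) / z) = (L : ℝ) ^ (n * d) - 2) :
    z ≤ A * (n * ((L : ℝ) ^ ((d : ℝ) - α)) ^ n) := by
  have hL1 : (1 : ℝ) ≤ (L : ℝ) := by exact_mod_cast (by omega : 1 ≤ L)
  have hLpos : (0 : ℝ) < (L : ℝ) := by linarith
  have hLi : ∀ i : ℕ, 1 ≤ (L : ℝ) ^ i := fun i => one_le_pow₀ hL1
  have hx1 : 1 ≤ (L : ℝ) ^ ((d : ℝ) - α) := Real.one_le_rpow hL1 (by linarith)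
  have h1 := sum_one d L n ρ z heq
  have h2 : ∀ i ∈ Finset.Icc 1 n, (((L : ℝ) ^ d) ^ i - ((L : ℝ) ^ d) ^ (i - 1)) *
      (1 - Real.exp (-ρ ((L : ℝ) ^ i) / z)) ≤ A * ((L : ℝ) ^ ((d : ℝ) - α)) ^ n / z := by
    intro i hi
    have hin : i ≤ n := (Finset.mem_Icc.1 hi).2
    have e1 : 1 - Real.exp (-ρ ((L : ℝ) ^ i) / z) ≤ ρ ((L : ℝ) ^ i) / z := by
      have := Real.add_one_le_exp (-ρ ((L : ℝ) ^ i) / z)
      have e : -ρ ((L : ℝ) ^ i) / z = -(ρ ((L : ℝ) ^ i) / z) := by ring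
      rw [e] at this ⊢
      linarith
    have e0 : 0 ≤ 1 - Real.exp (-ρ ((L : ℝ) ^ i) / z) := by
      have : Real.exp (-ρ ((L : ℝ) ^ i) / z) ≤ 1 := by
        rw [Real.exp_le_one_iff]
        have := div_nonneg (hρ0 _ (hLi i)) hz.le
        have e : -ρ ((L : ℝ) ^ i) / z = -(ρ ((L : ℝ) ^ i) / z) := by ring
        rw [e]; linarith
      linarith
    have e2 : ((L : ℝ) ^ d) ^ i - ((L : ℝ) ^ d) ^ (i - 1) ≤ ((L : ℝ) ^ d) ^ i := by
      have : 0 ≤ ((L : ℝ) ^ d) ^ (i - 1) := by positivity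
      linarith
    have e3 : 0 ≤ ((L : ℝ) ^ d) ^ i := by positivity
    have e4 : ρ ((L : ℝ) ^ i) ≤ A * ((L : ℝ) ^ i) ^ (-α) := rho_le (hLi i) (hρ _ (hLi i))
    have e5 : ((L : ℝ) ^ d) ^ i * (A * ((L : ℝ) ^ i) ^ (-α)) =
        A * ((L : ℝ) ^ ((d : ℝ) - α)) ^ i := by
      have f1 : ((L : ℝ) ^ d) ^ i = (L : ℝ) ^ ((d : ℝ) * i) := by
        rw [← pow_mul, ← Real.rpow_natCast]; push_cast; rfl
      have f2 : ((L : ℝ) ^ i) ^ (-α) = (L : ℝ) ^ (-(α * i)) := by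
        rw [← Real.rpow_natCast, ← Real.rpow_mul hLpos.le]; congr 1; ring
      have f3 : ((L : ℝ) ^ ((d : ℝ) - α)) ^ i = (L : ℝ) ^ (((d : ℝ) - α) * i) := by
        rw [← Real.rpow_natCast, ← Real.rpow_mul hLpos.le]
      rw [f1, f2, f3, mul_left_comm, ← Real.rpow_add hLpos]
      congr 2; ring
    have e6 : A * ((L : ℝ) ^ ((d : ℝ) - α)) ^ i ≤ A * ((L : ℝ) ^ ((d : ℝ) - α)) ^ n :=
      mul_le_mul_of_nonneg_left (pow_le_pow_right₀ hx1 hin) hA.le
    calc (((L : ℝ) ^ d) ^ i - ((L : ℝ) ^ d) ^ (i - 1)) * (1 - Real.exp (-ρ ((L : ℝ) ^ i) / z))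
        ≤ ((L : ℝ) ^ d) ^ i * (ρ ((L : ℝ) ^ i) / z) := mul_le_mul e2 e1 e0 e3
      _ ≤ ((L : ℝ) ^ d) ^ i * (A * ((L : ℝ) ^ i) ^ (-α) / z) := by
          refine mul_le_mul_of_nonneg_left ?_ e3
          exact div_le_div_of_nonneg_right e4 hz.le
      _ = A * ((L : ℝ) ^ ((d : ℝ) - α)) ^ i / z := by rw [← e5]; ring
      _ ≤ _ := div_le_div_of_nonneg_right e6 hz.le
  have h3 := Finset.sum_le_sum h2
  rw [h1, Finset.sum_const, Nat.card_Icc, nsmul_eq_mul, Nat.add_sub_cancel,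
    ← mul_div_assoc, le_div_iff₀ hz] at h3
  linarith

theorem hier_tendsto (d L : ℕ) [NeZero L] (hd : 1 ≤ d) (hL : 2 ≤ L) (α A₁ A₂ : ℝ)
    (hα : 5 * (d : ℝ) / 6 < α) (hα' : α ≤ d) (hA₁ : 0 < A₁) (hA : A₁ ≤ A₂) (ρ : ℝ → ℝ)
    (hρ : ∀ r, 1 ≤ r → A₁ ≤ r ^ α * ρ r ∧ r ^ α * ρ r ≤ A₂) (ζ : ℕ → ℝ)
    (hζ : ∀ n : ℕ, 3 ≤ L ^ (n * d) → 0 < ζ n ∧
      ∑ i ∈ Finset.Icc 1 n, ((L : ℝ) ^ d - 1) * (L : ℝ) ^ ((i - 1) * d) *
        Real.exp (-ρ ((L : ℝ) ^ i) / ζ n) = (L : ℝ) ^ (n * d) - 2) (lam : ℝ) :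
    Tendsto (fun n : ℕ => graphExpect (edgeProb (d := d) (L := L) (n := n) ρ (ζ n) lam)
      (fun G => testFun (scaledComponents G))) atTop (𝓝 0) := by
  have hL1 : (1 : ℝ) ≤ (L : ℝ) := by exact_mod_cast (by omega : 1 ≤ L)
  have hL1' : (1 : ℝ) < (L : ℝ) := by exact_mod_cast (by omega : 1 < L)
  have hLpos : (0 : ℝ) < (L : ℝ) := by linarith
  have hd' : (1 : ℝ) ≤ d := by exact_mod_cast hd
  have hA₂ : 0 < A₂ := by linarith
  have hρ0 : ∀ r, 1 ≤ r → 0 ≤ ρ r := by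
    intro r hr
    have h1 := le_rho hr (hρ r hr).1
    have h2 : 0 ≤ A₁ * r ^ (-α) := by
      have : 0 < r ^ (-α) := Real.rpow_pos_of_pos (by linarith) _
      positivity
    linarith
  set Z : ℕ → ℝ := fun n => A₂ * (n * ((L : ℝ) ^ ((d : ℝ) - α)) ^ n) + 1 with hZ
  set v : ℕ → ℝ := fun n => (L : ℝ) ^ (-((n * d) / 6) : ℝ) with hv
  set c : ℝ := A₁ * (L : ℝ) ^ (-α) / (2 * (1 + A₁)) with hc
  have hcpos : 0 < c := by
    have : 0 < (L : ℝ) ^ (-α) := Real.rpow_pos_of_pos hLpos _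
    rw [hc]; positivity
  have hZ1 : ∀ n, 1 ≤ Z n := by
    intro n
    have : 0 ≤ A₂ * (n * ((L : ℝ) ^ ((d : ℝ) - α)) ^ n) := by positivity
    simp only [hZ]; linarith
  have hvpos : ∀ n, 0 < v n := fun n => Real.rpow_pos_of_pos hLpos _
  have hv1 : ∀ n, v n ≤ 1 := by
    intro n
    refine Real.rpow_le_one_of_one_le_of_nonpos hL1 ?_
    have : (0 : ℝ) ≤ n * d / 6 := by positivity
    linarith
  -- the product tends to zero
  have hψ : Tendsto (fun n => Z n * v n) atTop (𝓝 0) := by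
    set x : ℝ := (L : ℝ) ^ ((d : ℝ) - α - d / 6) with hx
    set y : ℝ := (L : ℝ) ^ (-(d / 6) : ℝ) with hy
    have hx0 : 0 ≤ x := by positivity
    have hy0 : 0 ≤ y := by positivity
    have hx1 : x < 1 := Real.rpow_lt_one_of_one_lt_of_neg hL1' (by linarith)
    have hy1 : y < 1 := Real.rpow_lt_one_of_one_lt_of_neg hL1' (by linarith)
    have e : ∀ n : ℕ, Z n * v n = A₂ * (n * x ^ n) + y ^ n := by
      intro n
      have f1 : v n = y ^ n := by
        simp only [hv, hy]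
        rw [← Real.rpow_natCast, ← Real.rpow_mul hLpos.le]; congr 1; ring
      have f2 : ((L : ℝ) ^ ((d : ℝ) - α)) ^ n * y ^ n = x ^ n := by
        rw [← mul_pow, hy, hx, ← Real.rpow_add hLpos]; congr 2
      simp only [hZ]
      rw [f1, ← f2]; ring
    simp only [e]
    have t1 := (tendsto_self_mul_const_pow_of_lt_one hx0 hx1).const_mul A₂
    have t2 := tendsto_pow_atTop_nhds_zero_of_lt_one hy0 hy1
    simpa using t1.add t2
  have hψ0 : ∀ n, 0 ≤ Z n * v n := fun n => mul_nonneg (by linarith [hZ1 n]) (hvpos n).le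
  have hψ2 : Tendsto (fun n => (Z n * v n) ^ 2) atTop (𝓝 0) := by simpa using hψ.pow 2
  have ev1 : ∀ᶠ n in atTop, |lam| * (Z n * v n) < c := by
    have := hψ.const_mul |lam|
    rw [mul_zero] at this
    exact this.eventually_lt_const hcpos
  have ev2 : ∀ᶠ n in atTop, (2 * |lam| + lam ^ 2) * (Z n * v n) ^ 2 < c ^ 2 / 8 := by
    have := hψ2.const_mul (2 * |lam| + lam ^ 2)
    rw [mul_zero] at this
    exact this.eventually_lt_const (by positivity)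
  have hbound : ∀ᶠ n in atTop, graphExpect (edgeProb (d := d) (L := L) (n := n) ρ (ζ n) lam)
      (fun G => testFun (scaledComponents G)) ≤
        8 * (2 + |lam|) / c ^ 2 * (Z n * v n) ^ 2 := by
    filter_upwards [ev1, ev2, eventually_ge_atTop 2] with n h1 h2 hn
    have h3 : 3 ≤ L ^ (n * d) := by
      have : 2 ^ 2 ≤ L ^ (n * d) := by
        calc 2 ^ 2 ≤ L ^ 2 := Nat.pow_le_pow_left hL 2
          _ ≤ L ^ (n * d) := Nat.pow_le_pow_right (by omega) (by nlinarith)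
      omega
    obtain ⟨hz, heq⟩ := hζ n h3
    have hzZ : ζ n ≤ Z n := by
      have := zeta_le d L n hL α A₂ hα' hA₂ ρ (ζ n) hρ0 (fun r hr => (hρ r hr).2) hz heq
      simp only [hZ]; linarith
    have hZpos : 0 < Z n := by linarith [hZ1 n]
    have hv1n := hv1 n
    have hvn := hvpos n
    have hu1 : c / Z n ≤ 1 := by
      rw [div_le_one hZpos]
      refine le_trans ?_ (hZ1 n)
      rw [hc, div_le_one (by positivity)]
      have : (L : ℝ) ^ (-α) ≤ 1 := Real.rpow_le_one_of_one_le_of_nonpos hL1 (by linarith)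
      nlinarith
    have hu2 : 2 * (c / Z n) ≤ ρ (L : ℝ) / ζ n := by
      have e1 : A₁ * (L : ℝ) ^ (-α) ≤ ρ L := le_rho hL1 (hρ _ hL1).1
      have e2 : 2 * c ≤ A₁ * (L : ℝ) ^ (-α) := by
        have : 0 < A₁ * (L : ℝ) ^ (-α) := by
          have : 0 < (L : ℝ) ^ (-α) := Real.rpow_pos_of_pos hLpos _
          positivity
        rw [hc, ← mul_div_assoc, div_le_iff₀ (by positivity)]
        nlinarith
      calc 2 * (c / Z n) = (2 * c) / Z n := by ring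
        _ ≤ ρ L / Z n := div_le_div_of_nonneg_right (e2.trans e1) hZpos.le
        _ ≤ ρ L / ζ n := div_le_div_of_nonneg_left (hρ0 _ hL1) hz hzZ
    have hb : |lam| * v n ^ 8 ≤ c / Z n := by
      rw [le_div_iff₀ hZpos]
      have e1 : |lam| * v n ^ 8 * Z n = (|lam| * (Z n * v n)) * v n ^ 7 := by ring
      have e2 : v n ^ 7 ≤ 1 := pow_le_one₀ hvn.le hv1n
      rw [e1]
      calc (|lam| * (Z n * v n)) * v n ^ 7 ≤ (|lam| * (Z n * v n)) * 1 :=
            mul_le_mul_of_nonneg_left e2 (mul_nonneg (abs_nonneg _) (hψ0 n))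
        _ ≤ c := by linarith
    have hcc : 2 * |lam| * v n ^ 2 + lam ^ 2 * v n ^ 4 ≤ (c / Z n) ^ 2 / 8 := by
      have e1 : (c / Z n) ^ 2 / 8 = (c ^ 2 / 8) / Z n ^ 2 := by rw [div_pow, div_right_comm]
      rw [e1, le_div_iff₀ (by positivity)]
      have e2 : v n ^ 4 ≤ v n ^ 2 := pow_le_pow_of_le_one hvn.le hv1n (by norm_num)
      have e3 : lam ^ 2 * v n ^ 4 ≤ lam ^ 2 * v n ^ 2 := mul_le_mul_of_nonneg_left e2 (sq_nonneg _)
      calc (2 * |lam| * v n ^ 2 + lam ^ 2 * v n ^ 4) * Z n ^ 2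
          ≤ (2 * |lam| * v n ^ 2 + lam ^ 2 * v n ^ 2) * Z n ^ 2 :=
            mul_le_mul_of_nonneg_right (by linarith) (by positivity)
        _ = (2 * |lam| + lam ^ 2) * (Z n * v n) ^ 2 := by ring
        _ ≤ c ^ 2 / 8 := h2.le
    have hmain := hier_bound d L n hd hL (by omega) ρ (ζ n) lam (c / Z n) (v n) hρ0 hz heq rfl
      (by positivity) hu1 hu2 hb hcc
    refine hmain.trans ?_
    have e1 : v n ^ 2 / (c / Z n) ^ 2 = (Z n * v n) ^ 2 / c ^ 2 := by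
      field_simp
    rw [e1]
    have e2 : 2 + |lam| * v n ^ 2 ≤ 2 + |lam| := by
      have : |lam| * v n ^ 2 ≤ |lam| * 1 :=
        mul_le_mul_of_nonneg_left (pow_le_one₀ hvn.le hv1n) (abs_nonneg _)
      linarith
    calc 8 * (2 + |lam| * v n ^ 2) * ((Z n * v n) ^ 2 / c ^ 2)
        ≤ 8 * (2 + |lam|) * ((Z n * v n) ^ 2 / c ^ 2) :=
          mul_le_mul_of_nonneg_right (by linarith) (by positivity)
      _ = _ := by ring
  have hnonneg : ∀ n : ℕ, 0 ≤ graphExpect (edgeProb (d := d) (L := L) (n := n) ρ (ζ n) lam)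
      (fun G => testFun (scaledComponents G)) := by
    intro n
    have h := graphExpect_mono (p := edgeProb (d := d) (L := L) (n := n) ρ (ζ n) lam)
      (F := fun _ => (0 : ℝ)) (G := fun G => testFun (scaledComponents G)) ?_ ?_
      (fun G => testFun_nonneg _)
    · rwa [graphExpect_const] at h
    · intro e
      induction e using Sym2.ind with
      | h a c =>
        intro he
        have hac : a ≠ c := by simpa using he
        rw [edgeProb_eq _ _ _ a c hac]; exact levelProb_nonneg _ _ _ _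
    · intro e
      induction e using Sym2.ind with
      | h a c =>
        intro he
        have hac : a ≠ c := by simpa using he
        rw [edgeProb_eq _ _ _ a c hac]; exact levelProb_le_one _ _ _ _
  have hlim : Tendsto (fun n => 8 * (2 + |lam|) / c ^ 2 * (Z n * v n) ^ 2) atTop (𝓝 0) := by
    have := hψ2.const_mul (8 * (2 + |lam|) / c ^ 2)
    rwa [mul_zero] at this
  exact squeeze_zero' (Eventually.of_forall hnonneg) hbound hlim

end Pool.Agent.Helper96.HP
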