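import Mathlib

set_option autoImplicit false
open MeasureTheory Pointwise Set

namespace Pool.Agent.Helper96

/-- One dimensional Brunn-Minkowski for nonempty compact sets. -/
theorem bm1_compact {A B : Set ℝ} (hA : IsCompact A) (hB : IsCompact B)
    (hAn : A.Nonempty) (hBn : B.Nonempty) :
    volume A + volume B ≤ volume (A + B) := by
  have ha : sSup A ∈ A := hA.sSup_mem hAn
  have hb : sInf B ∈ B := hB.sInf_mem hBn
  set a := sSup A with ha_def
  set b := sInf B with hb_def
  have hAle : ∀ x ∈ A, x ≤ a := fun x hx => le_csSup hA.bddAbove hx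
  have hBge : ∀ x ∈ B, b ≤ x := fun x hx => csInf_le hB.bddBelow hx
  have h1 : volume ((fun x => x + b) '' A) = volume A := by simp
  have h2 : volume ((fun x => a + x) '' B) = volume B := by simp
  have hsub : ((fun x => x + b) '' A) ∪ ((fun x => a + x) '' B) ⊆ A + B := by
    rintro _ (⟨x, hx, rfl⟩ | ⟨x, hx, rfl⟩)
    · exact add_mem_add hx hb
    · exact add_mem_add ha hx
  have hdisj : AEDisjoint volume ((fun x => x + b) '' A) ((fun x => a + x) '' B) := by
    have : ((fun x => x + b) '' A) ∩ ((fun x => a + x) '' B) ⊆ {a + b} := by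
      rintro y ⟨⟨x, hx, hxy⟩, ⟨z, hz, hzy⟩⟩
      have h3 := hAle x hx
      have h4 := hBge z hz
      simp only at hxy hzy
      simp only [mem_singleton_iff]
      linarith
    exact measure_mono_null this (by simp)
  have hmeas : MeasurableSet ((fun x => a + x) '' B) := by
    have : IsCompact ((fun x => a + x) '' B) := hB.image (by fun_prop)
    exact this.measurableSet
  calc volume A + volume B = volume ((fun x => x + b) '' A) + volume ((fun x => a + x) '' B) := by
        rw [h1, h2]
    _ = volume (((fun x => x + b) '' A) ∪ ((fun x => a + x) '' B)) := by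
        rw [measure_union₀ hmeas.nullMeasurableSet hdisj]
    _ ≤ volume (A + B) := measure_mono hsub

/-- One dimensional Brunn-Minkowski for nonempty measurable sets. -/
theorem bm1_meas {A B : Set ℝ} (hA : MeasurableSet A) (hB : MeasurableSet B)
    (hAn : A.Nonempty) (hBn : B.Nonempty) :
    volume A + volume B ≤ volume (A + B) := by
  obtain ⟨a, ha⟩ := hAn
  obtain ⟨b, hb⟩ := hBn
  rw [hA.measure_eq_iSup_isCompact, hB.measure_eq_iSup_isCompact]
  have key : ∀ K : Set ℝ, (K ⊆ A ∧ IsCompact K) → ∀ L : Set ℝ, (L ⊆ B ∧ IsCompact L) →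
      volume K + volume L ≤ volume (A + B) := by
    intro K hK L hL
    have h1 := bm1_compact (hK.2.union (isCompact_singleton (x := a)))
      (hL.2.union (isCompact_singleton (x := b))) ⟨a, Or.inr rfl⟩ ⟨b, Or.inr rfl⟩
    have hKA : K ∪ {a} ⊆ A := union_subset hK.1 (by simpa using ha)
    have hLB : L ∪ {b} ⊆ B := union_subset hL.1 (by simpa using hb)
    calc volume K + volume L ≤ volume (K ∪ {a}) + volume (L ∪ {b}) :=
          add_le_add (measure_mono subset_union_left) (measure_mono subset_union_left)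
      _ ≤ volume ((K ∪ {a}) + (L ∪ {b})) := h1
      _ ≤ volume (A + B) := measure_mono (add_subset_add hKA hLB)
  have := ENNReal.biSup_add_biSup_le' (f := fun K : Set ℝ => volume K)
    (g := fun K : Set ℝ => volume K)
    (p := fun K : Set ℝ => K ⊆ A ∧ IsCompact K) (q := fun K : Set ℝ => K ⊆ B ∧ IsCompact K)
    ⟨∅, by simp⟩ ⟨∅, by simp⟩ key
  simpa only [iSup_and] using this

theorem bm1_meas_smul {A B : Set ℝ} (hA : MeasurableSet A) (hB : MeasurableSet B)
    (hAn : A.Nonempty) (hBn : B.Nonempty) {t : ℝ} (ht0 : 0 < t) (ht1 : t < 1) :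
    ENNReal.ofReal t * volume A + ENNReal.ofReal (1 - t) * volume B ≤
      volume (t • A + (1 - t) • B) := by
  have h := bm1_meas (hA.const_smul₀ t) (hB.const_smul₀ (1 - t))
    (hAn.smul_set (a := t)) (hBn.smul_set (a := 1 - t))
  rw [Measure.addHaar_smul, Measure.addHaar_smul] at h
  simpa [abs_of_pos ht0, abs_of_pos (sub_pos.2 ht1)] using h

/-- One dimensional Borell-Brascamp-Lieb inequality with harmonic mean (exponent -1). -/
theorem bbl_harmonic {F G H : ℝ → ℝ} (hF : Measurable F) (hG : Measurable G) (hH : Measurable H)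
    (hF0 : ∀ x, 0 ≤ F x) (hG0 : ∀ x, 0 ≤ G x) (hH0 : ∀ x, 0 ≤ H x)
    (hFb : BddAbove (range F)) (hGb : BddAbove (range G)) {t : ℝ} (ht0 : 0 < t) (ht1 : t < 1)
    (hFpos : ∃ x, 0 < F x) (hGpos : ∃ x, 0 < G x)
    (hFGH : ∀ x y, 0 < F x → 0 < G y → (t / F x + (1 - t) / G y)⁻¹ ≤ H (t * x + (1 - t) * y)) :
    min (∫⁻ x, ENNReal.ofReal (F x)) (∫⁻ x, ENNReal.ofReal (G x)) ≤
      ∫⁻ x, ENNReal.ofReal (H x) := by
  set a := sSup (range F) with ha_def
  set b := sSup (range G) with hb_def
  have ha : 0 < a := by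
    obtain ⟨x, hx⟩ := hFpos
    exact lt_of_lt_of_le hx (le_csSup hFb ⟨x, rfl⟩)
  have hb : 0 < b := by
    obtain ⟨x, hx⟩ := hGpos
    exact lt_of_lt_of_le hx (le_csSup hGb ⟨x, rfl⟩)
  have ht1' : 0 < 1 - t := sub_pos.2 ht1
  set c := t / a + (1 - t) / b with hc_def
  have hc : 0 < c := by positivity
  -- level set inclusion
  have hlev : ∀ u ∈ Ioo (0:ℝ) 1,
      ENNReal.ofReal t * volume {x | u ≤ F x / a} + ENNReal.ofReal (1 - t) * volume {x | u ≤ G x / b}
        ≤ volume {x | u ≤ H x * c} := by
    intro u hu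
    have hne1 : {x | u ≤ F x / a}.Nonempty := by
      have : u * a < sSup (range F) := by
        rw [← ha_def]; nlinarith [hu.2]
      obtain ⟨_, ⟨x, rfl⟩, hx⟩ := exists_lt_of_lt_csSup (range_nonempty F) this
      exact ⟨x, by simp only [mem_setOf_eq]; rw [le_div_iff₀ ha]; exact hx.le⟩
    have hne2 : {x | u ≤ G x / b}.Nonempty := by
      have : u * b < sSup (range G) := by
        rw [← hb_def]; nlinarith [hu.2]
      obtain ⟨_, ⟨x, rfl⟩, hx⟩ := exists_lt_of_lt_csSup (range_nonempty G) this
      exact ⟨x, by simp only [mem_setOf_eq]; rw [le_div_iff₀ hb]; exact hx.le⟩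
    have hm1 : MeasurableSet {x | u ≤ F x / a} := measurableSet_le measurable_const (hF.div_const a)
    have hm2 : MeasurableSet {x | u ≤ G x / b} := measurableSet_le measurable_const (hG.div_const b)
    refine (bm1_meas_smul hm1 hm2 hne1 hne2 ht0 ht1).trans (measure_mono ?_)
    rintro _ ⟨_, ⟨x, hx, rfl⟩, _, ⟨y, hy, rfl⟩, rfl⟩
    simp only [mem_setOf_eq, smul_eq_mul] at hx hy ⊢
    rw [le_div_iff₀ ha] at hx
    rw [le_div_iff₀ hb] at hy
    have hu0 : 0 < u := hu.1
    have hFx : 0 < F x := lt_of_lt_of_le (by positivity) hx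
    have hGy : 0 < G y := lt_of_lt_of_le (by positivity) hy
    have h1 := hFGH x y hFx hGy
    have h2 : t / F x ≤ t / (u * a) := by gcongr
    have h3 : (1 - t) / G y ≤ (1 - t) / (u * b) := by gcongr
    have h4 : t / F x + (1 - t) / G y ≤ c / u := by
      calc t / F x + (1 - t) / G y ≤ t / (u * a) + (1 - t) / (u * b) := add_le_add h2 h3
        _ = c / u := by rw [hc_def]; field_simp
    have h5 : 0 < t / F x + (1 - t) / G y := by positivity
    have h6 : u / c ≤ (t / F x + (1 - t) / G y)⁻¹ := by
      rw [← inv_div]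
      exact inv_anti₀ h5 h4
    have h7 : u / c ≤ H (t * x + (1 - t) * y) := h6.trans h1
    rwa [div_le_iff₀ hc] at h7
  -- layer cake
  have LF : ∫⁻ x, ENNReal.ofReal (F x / a) = ∫⁻ u in Ioo (0:ℝ) 1, volume {x | u ≤ F x / a} := by
    rw [lintegral_eq_lintegral_meas_le volume (Filter.Eventually.of_forall fun x => by
      have := hF0 x; simp only [Pi.zero_apply]; positivity) (hF.div_const a).aemeasurable]
    have hd : Ioi (0:ℝ) = Ioo 0 1 ∪ Ici 1 := by
      ext x; simp only [mem_Ioi, mem_union, mem_Ioo, mem_Ici]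
      constructor
      · intro h; rcases lt_or_ge x 1 with h' | h'
        · exact Or.inl ⟨h, h'⟩
        · exact Or.inr h'
      · rintro (h | h)
        · exact h.1
        · linarith
    rw [hd, lintegral_union measurableSet_Ici]
    · have : ∫⁻ u in Ici (1:ℝ), volume {x | u ≤ F x / a} = 0 := by
        have e : ∫⁻ u in Ici (1:ℝ), volume {x | u ≤ F x / a} = ∫⁻ u in Ioi (1:ℝ), volume {x | u ≤ F x / a} :=
          setLIntegral_congr Ioi_ae_eq_Ici.symm
        rw [e]
        rw [setLIntegral_congr_fun measurableSet_Ioi (g := fun _ => 0)]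
        · simp
        · intro u hu
          simp only [mem_Ioi] at hu
          have : {x | u ≤ F x / a} = ∅ := by
            ext x
            simp only [mem_setOf_eq, mem_empty_iff_false, iff_false, not_le]
            have : F x / a ≤ 1 := by
              rw [div_le_one ha]; exact le_csSup hFb ⟨x, rfl⟩
            linarith
          simp [this]
      rw [this, add_zero]
    · rw [Set.disjoint_left]; intro x hx hx'; exact absurd hx.2 (not_lt.2 hx')
  have LG : ∫⁻ x, ENNReal.ofReal (G x / b) = ∫⁻ u in Ioo (0:ℝ) 1, volume {x | u ≤ G x / b} := by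
    rw [lintegral_eq_lintegral_meas_le volume (Filter.Eventually.of_forall fun x => by
      have := hG0 x; simp only [Pi.zero_apply]; positivity) (hG.div_const b).aemeasurable]
    have hd : Ioi (0:ℝ) = Ioo 0 1 ∪ Ici 1 := by
      ext x; simp only [mem_Ioi, mem_union, mem_Ioo, mem_Ici]
      constructor
      · intro h; rcases lt_or_ge x 1 with h' | h'
        · exact Or.inl ⟨h, h'⟩
        · exact Or.inr h'
      · rintro (h | h)
        · exact h.1
        · linarith
    rw [hd, lintegral_union measurableSet_Ici]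
    · have : ∫⁻ u in Ici (1:ℝ), volume {x | u ≤ G x / b} = 0 := by
        have e : ∫⁻ u in Ici (1:ℝ), volume {x | u ≤ G x / b} = ∫⁻ u in Ioi (1:ℝ), volume {x | u ≤ G x / b} :=
          setLIntegral_congr Ioi_ae_eq_Ici.symm
        rw [e]
        rw [setLIntegral_congr_fun measurableSet_Ioi (g := fun _ => 0)]
        · simp
        · intro u hu
          simp only [mem_Ioi] at hu
          have : {x | u ≤ G x / b} = ∅ := by
            ext x
            simp only [mem_setOf_eq, mem_empty_iff_false, iff_false, not_le]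
            have : G x / b ≤ 1 := by
              rw [div_le_one hb]; exact le_csSup hGb ⟨x, rfl⟩
            linarith
          simp [this]
      rw [this, add_zero]
    · rw [Set.disjoint_left]; intro x hx hx'; exact absurd hx.2 (not_lt.2 hx')
  have LH : ∫⁻ u in Ioo (0:ℝ) 1, volume {x | u ≤ H x * c} ≤ ∫⁻ x, ENNReal.ofReal (H x * c) := by
    rw [lintegral_eq_lintegral_meas_le volume (Filter.Eventually.of_forall fun x => by
      have := hH0 x; simp only [Pi.zero_apply]; positivity) (hH.mul_const c).aemeasurable]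
    exact lintegral_mono_set (fun x hx => hx.1)
  have main : ENNReal.ofReal t * (∫⁻ x, ENNReal.ofReal (F x / a)) +
      ENNReal.ofReal (1 - t) * (∫⁻ x, ENNReal.ofReal (G x / b)) ≤ ∫⁻ x, ENNReal.ofReal (H x * c) := by
    rw [LF, LG]
    refine le_trans ?_ LH
    have hmono1 : Measurable (fun u : ℝ => volume {x | u ≤ F x / a}) := by
      have : Antitone (fun u : ℝ => volume {x | u ≤ F x / a}) := by
        intro u v huv
        exact measure_mono (fun x hx => le_trans huv hx)
      exact this.measurable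
    have hmono2 : Measurable (fun u : ℝ => volume {x | u ≤ G x / b}) := by
      have : Antitone (fun u : ℝ => volume {x | u ≤ G x / b}) := by
        intro u v huv
        exact measure_mono (fun x hx => le_trans huv hx)
      exact this.measurable
    rw [← lintegral_const_mul _ hmono1, ← lintegral_const_mul _ hmono2,
      ← lintegral_add_left (hmono1.const_mul _)]
    exact setLIntegral_mono' measurableSet_Ioo hlev
  -- conclude
  have eF : ∫⁻ x, ENNReal.ofReal (F x / a) = ENNReal.ofReal a⁻¹ * ∫⁻ x, ENNReal.ofReal (F x) := by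
    rw [← lintegral_const_mul _ hF.ennreal_ofReal]
    congr 1; ext x
    rw [← ENNReal.ofReal_mul (by positivity)]
    congr 1; rw [div_eq_inv_mul]
  have eG : ∫⁻ x, ENNReal.ofReal (G x / b) = ENNReal.ofReal b⁻¹ * ∫⁻ x, ENNReal.ofReal (G x) := by
    rw [← lintegral_const_mul _ hG.ennreal_ofReal]
    congr 1; ext x
    rw [← ENNReal.ofReal_mul (by positivity)]
    congr 1; rw [div_eq_inv_mul]
  have eH : ∫⁻ x, ENNReal.ofReal (H x * c) = ENNReal.ofReal c * ∫⁻ x, ENNReal.ofReal (H x) := by
    rw [← lintegral_const_mul _ hH.ennreal_ofReal]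
    congr 1; ext x
    rw [← ENNReal.ofReal_mul (by positivity)]
    congr 1; rw [mul_comm]
  rw [eF, eG, eH] at main
  set m := min (∫⁻ x, ENNReal.ofReal (F x)) (∫⁻ x, ENNReal.ofReal (G x)) with hm
  have h8 : ENNReal.ofReal c * m ≤ ENNReal.ofReal c * ∫⁻ x, ENNReal.ofReal (H x) := by
    refine le_trans ?_ main
    have : ENNReal.ofReal c = ENNReal.ofReal t * ENNReal.ofReal a⁻¹ +
        ENNReal.ofReal (1 - t) * ENNReal.ofReal b⁻¹ := by
      rw [← ENNReal.ofReal_mul ht0.le, ← ENNReal.ofReal_mul ht1'.le,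
        ← ENNReal.ofReal_add (by positivity) (by positivity)]
      congr 1
    rw [this, add_mul, mul_assoc, mul_assoc]
    gcongr
    · exact min_le_left _ _
    · exact min_le_right _ _
  have hc' : ENNReal.ofReal c ≠ 0 := by simp [hc]
  exact (ENNReal.mul_le_mul_iff_right hc' ENNReal.ofReal_ne_top).1 h8

end Pool.Agent.Helper96
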