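import Mathlib
import Pool.Agent.Helper96.BM1

set_option autoImplicit false
open MeasureTheory Pointwise Set

namespace Pool.Agent.Helper96

/-- density of `U`. -/
noncomputable def gU (x : ℝ) : ℝ := 1 / (2 * (1 + |x|) ^ 2)

/-- density of `V`, uniform on `[-63/2, 63/2]`. -/
noncomputable def gV : ℝ → ℝ := (Icc (-(63/2) : ℝ) (63/2)).indicator (fun _ => 1/63)

noncomputable def muU : Measure ℝ := volume.withDensity (fun x => ENNReal.ofReal (gU x))
noncomputable def muV : Measure ℝ := volume.withDensity (fun x => ENNReal.ofReal (gV x))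

lemma gU_pos (x : ℝ) : 0 < gU x := by
  unfold gU; have := abs_nonneg x; positivity

lemma continuous_gU : Continuous gU := by
  unfold gU
  refine continuous_const.div (by fun_prop) ?_
  intro x; have := abs_nonneg x; positivity

lemma measurable_gU : Measurable gU := continuous_gU.measurable

lemma measurable_gV : Measurable gV := measurable_const.indicator measurableSet_Icc

lemma gV_nonneg (x : ℝ) : 0 ≤ gV x := by
  unfold gV; apply indicator_nonneg; intro _ _; norm_num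

lemma muV_apply (T : Set ℝ) (hT : MeasurableSet T) :
    muV T = ENNReal.ofReal (1/63) * volume (T ∩ Icc (-(63/2) : ℝ) (63/2)) := by
  unfold muV
  rw [withDensity_apply _ hT]
  have : ∀ x, ENNReal.ofReal (gV x) =
      (Icc (-(63/2) : ℝ) (63/2)).indicator (fun _ => ENNReal.ofReal (1/63)) x := by
    intro x
    unfold gV
    by_cases hx : x ∈ Icc (-(63/2) : ℝ) (63/2)
    · simp only [indicator_of_mem hx]
    · simp only [indicator_of_notMem hx, ENNReal.ofReal_zero]
  simp_rw [this]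
  rw [lintegral_indicator_const measurableSet_Icc, Measure.restrict_apply measurableSet_Icc,
    inter_comm]

instance : IsProbabilityMeasure muV := by
  constructor
  rw [muV_apply _ MeasurableSet.univ, univ_inter, Real.volume_Icc, ← ENNReal.ofReal_mul (by norm_num)]
  norm_num

/-- Brunn-Minkowski for the uniform law. -/
lemma muV_bm {S T : Set ℝ} (hS : IsCompact S) (hT : IsCompact T) (hS0 : muV S ≠ 0) (hT0 : muV T ≠ 0)
    {t : ℝ} (ht0 : 0 < t) (ht1 : t < 1) :
    ENNReal.ofReal t * muV S + ENNReal.ofReal (1 - t) * muV T ≤ muV (t • S + (1 - t) • T) := by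
  have hI : IsCompact (Icc (-(63/2) : ℝ) (63/2)) := isCompact_Icc
  have hS' := hS.inter hI
  have hT' := hT.inter hI
  have hsum : IsCompact (t • S + (1 - t) • T) := (hS.smul t).add (hT.smul (1 - t))
  rw [muV_apply _ hS.measurableSet] at hS0 ⊢
  rw [muV_apply _ hT.measurableSet] at hT0 ⊢
  rw [muV_apply _ hsum.measurableSet]
  have hSn : (S ∩ Icc (-(63/2) : ℝ) (63/2)).Nonempty := by
    apply nonempty_of_measure_ne_zero (μ := volume)
    intro h; apply hS0; rw [h, mul_zero]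
  have hTn : (T ∩ Icc (-(63/2) : ℝ) (63/2)).Nonempty := by
    apply nonempty_of_measure_ne_zero (μ := volume)
    intro h; apply hT0; rw [h, mul_zero]
  have h := bm1_meas_smul hS'.measurableSet hT'.measurableSet hSn hTn ht0 ht1
  have hsub : t • (S ∩ Icc (-(63/2) : ℝ) (63/2)) + (1 - t) • (T ∩ Icc (-(63/2) : ℝ) (63/2)) ⊆
      (t • S + (1 - t) • T) ∩ Icc (-(63/2) : ℝ) (63/2) := by
    rintro _ ⟨_, ⟨x, hx, rfl⟩, _, ⟨y, hy, rfl⟩, rfl⟩
    refine ⟨⟨_, ⟨x, hx.1, rfl⟩, _, ⟨y, hy.1, rfl⟩, rfl⟩, ?_⟩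
    have := (convex_Icc (-(63/2) : ℝ) (63/2)) hx.2 hy.2 ht0.le (sub_pos.2 ht1).le (by ring)
    simpa using this
  calc ENNReal.ofReal t * (ENNReal.ofReal (1/63) * volume (S ∩ Icc (-(63/2) : ℝ) (63/2))) +
      ENNReal.ofReal (1 - t) * (ENNReal.ofReal (1/63) * volume (T ∩ Icc (-(63/2) : ℝ) (63/2)))
      = ENNReal.ofReal (1/63) * (ENNReal.ofReal t * volume (S ∩ Icc (-(63/2) : ℝ) (63/2)) +
        ENNReal.ofReal (1 - t) * volume (T ∩ Icc (-(63/2) : ℝ) (63/2))) := by ring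
    _ ≤ ENNReal.ofReal (1/63) * volume (t • (S ∩ Icc (-(63/2) : ℝ) (63/2)) +
        (1 - t) • (T ∩ Icc (-(63/2) : ℝ) (63/2))) := by gcongr
    _ ≤ _ := by gcongr

lemma section_sum {A B : Set (ℝ × ℝ)} (t x y : ℝ) :
    t • (Prod.mk x ⁻¹' A) + (1 - t) • (Prod.mk y ⁻¹' B) ⊆
      Prod.mk (t * x + (1 - t) * y) ⁻¹' (t • A + (1 - t) • B) := by
  rintro _ ⟨_, ⟨u, hu, rfl⟩, _, ⟨v, hv, rfl⟩, rfl⟩
  refine ⟨t • (x, u), ⟨(x, u), hu, rfl⟩, (1 - t) • (y, v), ⟨(y, v), hv, rfl⟩, ?_⟩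
  simp

lemma isCompact_section {A : Set (ℝ × ℝ)} (hA : IsCompact A) (x : ℝ) :
    IsCompact (Prod.mk x ⁻¹' A) := by
  have h1 : IsCompact (Prod.snd '' A) := hA.image continuous_snd
  refine h1.of_isClosed_subset (hA.isClosed.preimage (by fun_prop)) ?_
  intro y hy
  exact ⟨(x, y), hy, rfl⟩

/-- elementary inequality -/
lemma elem_ineq {p q a b t : ℝ} (hp : 0 < p) (hq : 0 < q) (ha : 0 < a) (hb : 0 < b)
    (ht0 : 0 < t) (ht1 : t < 1) :
    (t / (1 / (2 * p ^ 2) * a) + (1 - t) / (1 / (2 * q ^ 2) * b))⁻¹ ≤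
      1 / (2 * (t * p + (1 - t) * q) ^ 2) * (t * a + (1 - t) * b) := by
  have ht1' : 0 < 1 - t := sub_pos.2 ht1
  have hpq : 0 < t * p + (1 - t) * q := by positivity
  have hab : 0 < t * a + (1 - t) * b := by positivity
  have e1 : t / (1 / (2 * p ^ 2) * a) + (1 - t) / (1 / (2 * q ^ 2) * b) =
      2 * (t * p ^ 2 * b + (1 - t) * q ^ 2 * a) / (a * b) := by
    field_simp
  rw [e1, inv_div, one_div_mul_eq_div, div_le_div_iff₀ (by positivity) (by positivity)]
  have : 0 ≤ t * (1 - t) * (a * q - b * p) ^ 2 := by positivity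
  nlinarith [this]

noncomputable def mu : Measure (ℝ × ℝ) := muU.prod muV

instance : SFinite muU := by unfold muU; infer_instance

lemma mu_apply {S : Set (ℝ × ℝ)} (hS : MeasurableSet S) :
    mu S = ∫⁻ x, ENNReal.ofReal (gU x * (muV (Prod.mk x ⁻¹' S)).toReal) := by
  unfold mu
  rw [Measure.prod_apply hS]
  unfold muU
  rw [lintegral_withDensity_eq_lintegral_mul _ measurable_gU.ennreal_ofReal
    (measurable_measure_prodMk_left hS)]
  congr 1; ext x
  simp only [Pi.mul_apply]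
  rw [ENNReal.ofReal_mul (gU_pos x).le, ENNReal.ofReal_toReal (measure_ne_top _ _)]

/-- the law `mu` is `-∞`-concave. -/
theorem mu_concave {A B : Set (ℝ × ℝ)} (hA : IsCompact A) (hB : IsCompact B)
    (hA0 : 0 < mu A) (hB0 : 0 < mu B) {t : ℝ} (ht0 : 0 < t) (ht1 : t < 1) :
    min (mu A) (mu B) ≤ mu (t • A + (1 - t) • B) := by
  have ht1' : 0 < 1 - t := sub_pos.2 ht1
  have hC : IsCompact (t • A + (1 - t) • B) := (hA.smul t).add (hB.smul (1 - t))
  rw [mu_apply hA.measurableSet] at hA0 ⊢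
  rw [mu_apply hB.measurableSet] at hB0 ⊢
  rw [mu_apply hC.measurableSet]
  have meas : ∀ S : Set (ℝ × ℝ), IsCompact S →
      Measurable (fun x => gU x * (muV (Prod.mk x ⁻¹' S)).toReal) := by
    intro S hS
    exact measurable_gU.mul (measurable_measure_prodMk_left hS.measurableSet).ennreal_toReal
  have nn : ∀ S : Set (ℝ × ℝ), ∀ x, 0 ≤ gU x * (muV (Prod.mk x ⁻¹' S)).toReal := by
    intro S x; have := gU_pos x; positivity
  have bdd : ∀ S : Set (ℝ × ℝ), BddAbove (range fun x => gU x * (muV (Prod.mk x ⁻¹' S)).toReal) := by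
    intro S
    refine ⟨1, ?_⟩
    rintro _ ⟨x, rfl⟩
    have h1 : gU x ≤ 1 := by
      unfold gU
      rw [div_le_one (by have := abs_nonneg x; positivity)]
      nlinarith [abs_nonneg x]
    have h2 : (muV (Prod.mk x ⁻¹' S)).toReal ≤ 1 := by
      have : muV (Prod.mk x ⁻¹' S) ≤ 1 := prob_le_one
      exact ENNReal.toReal_le_of_le_ofReal zero_le_one (by simpa using this)
    have h3 : (0:ℝ) ≤ (muV (Prod.mk x ⁻¹' S)).toReal := ENNReal.toReal_nonneg
    show gU x * (muV (Prod.mk x ⁻¹' S)).toReal ≤ 1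
    nlinarith [gU_pos x]
  have expos : ∀ S : Set (ℝ × ℝ), 0 < ∫⁻ x, ENNReal.ofReal (gU x * (muV (Prod.mk x ⁻¹' S)).toReal) →
      ∃ x, 0 < gU x * (muV (Prod.mk x ⁻¹' S)).toReal := by
    intro S h
    by_contra hcon
    push Not at hcon
    have : ∀ x, ENNReal.ofReal (gU x * (muV (Prod.mk x ⁻¹' S)).toReal) = 0 := by
      intro x; rw [ENNReal.ofReal_eq_zero]; exact hcon x
    simp [this] at h
  refine bbl_harmonic (meas A hA) (meas B hB) (meas _ hC) (nn A) (nn B) (nn _) (bdd A) (bdd B)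
    ht0 ht1 (expos A hA0) (expos B hB0) ?_
  intro x y hx hy
  have hgx := gU_pos x
  have hgy := gU_pos y
  have hgz := gU_pos (t * x + (1 - t) * y)
  have ha : 0 < (muV (Prod.mk x ⁻¹' A)).toReal := by
    rcases (ENNReal.toReal_nonneg (a := muV (Prod.mk x ⁻¹' A))).lt_or_eq with h | h
    · exact h
    · rw [← h, mul_zero] at hx; exact absurd hx (lt_irrefl _)
  have hb : 0 < (muV (Prod.mk y ⁻¹' B)).toReal := by
    rcases (ENNReal.toReal_nonneg (a := muV (Prod.mk y ⁻¹' B))).lt_or_eq with h | h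
    · exact h
    · rw [← h, mul_zero] at hy; exact absurd hy (lt_irrefl _)
  have hA0' : muV (Prod.mk x ⁻¹' A) ≠ 0 := by
    intro h; rw [h] at ha; simp at ha
  have hB0' : muV (Prod.mk y ⁻¹' B) ≠ 0 := by
    intro h; rw [h] at hb; simp at hb
  have hbm := muV_bm (isCompact_section hA x) (isCompact_section hB y) hA0' hB0' ht0 ht1
  have hbm2 : ENNReal.ofReal t * muV (Prod.mk x ⁻¹' A) + ENNReal.ofReal (1 - t) * muV (Prod.mk y ⁻¹' B)
      ≤ muV (Prod.mk (t * x + (1 - t) * y) ⁻¹' (t • A + (1 - t) • B)) :=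
    hbm.trans (measure_mono (section_sum t x y))
  have hbm3 : t * (muV (Prod.mk x ⁻¹' A)).toReal + (1 - t) * (muV (Prod.mk y ⁻¹' B)).toReal ≤
      (muV (Prod.mk (t * x + (1 - t) * y) ⁻¹' (t • A + (1 - t) • B))).toReal := by
    have := ENNReal.toReal_mono (measure_ne_top _ _) hbm2
    rw [ENNReal.toReal_add (ENNReal.mul_ne_top ENNReal.ofReal_ne_top (measure_ne_top _ _))
      (ENNReal.mul_ne_top ENNReal.ofReal_ne_top (measure_ne_top _ _)),
      ENNReal.toReal_mul, ENNReal.toReal_mul, ENNReal.toReal_ofReal ht0.le,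
      ENNReal.toReal_ofReal ht1'.le] at this
    exact this
  set a := (muV (Prod.mk x ⁻¹' A)).toReal
  set b := (muV (Prod.mk y ⁻¹' B)).toReal
  have hgconc : 1 / (2 * (t * (1 + |x|) + (1 - t) * (1 + |y|)) ^ 2) ≤ gU (t * x + (1 - t) * y) := by
    unfold gU
    have h1 : |t * x + (1 - t) * y| ≤ t * |x| + (1 - t) * |y| := by
      calc |t * x + (1 - t) * y| ≤ |t * x| + |(1 - t) * y| := abs_add_le _ _
        _ = t * |x| + (1 - t) * |y| := by rw [abs_mul, abs_mul, abs_of_pos ht0, abs_of_pos ht1']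
    have h2 : 1 + |t * x + (1 - t) * y| ≤ t * (1 + |x|) + (1 - t) * (1 + |y|) := by linarith
    have h3 : 0 ≤ |t * x + (1 - t) * y| := abs_nonneg _
    gcongr
  calc (t / (gU x * a) + (1 - t) / (gU y * b))⁻¹
      ≤ 1 / (2 * (t * (1 + |x|) + (1 - t) * (1 + |y|)) ^ 2) * (t * a + (1 - t) * b) := by
        unfold gU
        exact elem_ineq (by positivity) (by positivity) ha hb ht0 ht1
    _ ≤ gU (t * x + (1 - t) * y) *
        (muV (Prod.mk (t * x + (1 - t) * y) ⁻¹' (t • A + (1 - t) • B))).toReal := by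
        gcongr

end Pool.Agent.Helper96
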