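import Mathlib
import Pool.Agent.Helper96.BM2

set_option autoImplicit false
open MeasureTheory Pointwise Set Filter Topology

namespace Pool.Agent.Helper96

/-- centred distribution function of `U`. -/
noncomputable def GU (x : ℝ) : ℝ := x * (1 / (2 * (1 + |x|)))

lemma hasDerivAt_GU (x : ℝ) : HasDerivAt GU (gU x) x := by
  rcases lt_trichotomy x 0 with h | h | h
  · have h1 : HasDerivAt (fun y : ℝ => y / (2 * (1 - y))) (gU x) x := by
      have h2 : HasDerivAt (fun y : ℝ => 2 * (1 - y)) (2 * (0 - 1)) x :=
        ((hasDerivAt_const x (1:ℝ)).sub (hasDerivAt_id' x)).const_mul 2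
      have hne : (2 * (1 - x)) ≠ 0 := by nlinarith
      have h3 := (hasDerivAt_id' x).fun_div h2 hne
      refine h3.congr_deriv ?_
      unfold gU; rw [abs_of_neg h]
      have : (1 - x) ≠ 0 := by nlinarith
      have h4 : (1 + -x) ≠ 0 := by nlinarith
      field_simp
      ring
    refine h1.congr_of_eventuallyEq ?_
    filter_upwards [Iio_mem_nhds h] with y hy
    simp only [mem_Iio] at hy
    unfold GU; rw [abs_of_neg hy, mul_one_div]; ring_nf
  · subst h
    rw [hasDerivAt_iff_tendsto_slope]
    have h1 : Tendsto (fun x : ℝ => 1 / (2 * (1 + |x|))) (𝓝[≠] 0) (𝓝 (gU 0)) := by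
      have : ContinuousAt (fun x : ℝ => 1 / (2 * (1 + |x|))) 0 := by
        refine continuousAt_const.div (by fun_prop) (by simp)
      have h2 := this.tendsto
      simp only [abs_zero, add_zero, mul_one] at h2
      have e : gU 0 = 1/2 := by unfold gU; simp
      rw [e]
      exact h2.mono_left nhdsWithin_le_nhds
    refine h1.congr' ?_
    filter_upwards [self_mem_nhdsWithin] with y hy
    simp only [mem_compl_iff, mem_singleton_iff] at hy
    simp only [slope, GU, vsub_eq_sub, sub_zero, smul_eq_mul, zero_mul]
    field_simp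
  · have h1 : HasDerivAt (fun y : ℝ => y / (2 * (1 + y))) (gU x) x := by
      have h2 : HasDerivAt (fun y : ℝ => 2 * (1 + y)) (2 * (0 + 1)) x :=
        ((hasDerivAt_const x (1:ℝ)).add (hasDerivAt_id' x)).const_mul 2
      have hne : (2 * (1 + x)) ≠ 0 := by nlinarith
      have h3 := (hasDerivAt_id' x).fun_div h2 hne
      refine h3.congr_deriv ?_
      unfold gU; rw [abs_of_pos h]
      have : (1 + x) ≠ 0 := by nlinarith
      field_simp
      ring
    refine h1.congr_of_eventuallyEq ?_
    filter_upwards [Ioi_mem_nhds h] with y hy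
    simp only [mem_Ioi] at hy
    unfold GU; rw [abs_of_pos hy, mul_one_div]

lemma continuous_GU : Continuous GU :=
  continuous_iff_continuousAt.2 fun x => (hasDerivAt_GU x).continuousAt

lemma monotone_GU : Monotone GU := by
  apply monotone_of_deriv_nonneg (fun x => (hasDerivAt_GU x).differentiableAt)
  intro x; rw [(hasDerivAt_GU x).deriv]; exact (gU_pos x).le

lemma integral_gU_interval (a b : ℝ) : ∫ x in a..b, gU x = GU b - GU a :=
  intervalIntegral.integral_eq_sub_of_hasDerivAt (fun x _ => hasDerivAt_GU x)
    (continuous_gU.intervalIntegrable a b)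

lemma tendsto_GU_atTop : Tendsto GU atTop (𝓝 (1/2)) := by
  have h1 : Tendsto (fun x : ℝ => 1/2 - 1/2 * (1 + x)⁻¹) atTop (𝓝 (1/2 - 1/2 * 0)) := by
    refine tendsto_const_nhds.sub (Tendsto.const_mul _ ?_)
    exact tendsto_inv_atTop_zero.comp (tendsto_atTop_add_const_left _ _ tendsto_id)
  rw [mul_zero, sub_zero] at h1
  refine h1.congr' ?_
  filter_upwards [eventually_gt_atTop 0] with x hx
  unfold GU; rw [abs_of_pos hx]
  field_simp
  ring

lemma GU_neg (x : ℝ) : GU (-x) = - GU x := by
  unfold GU; rw [abs_neg]; ring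

lemma tendsto_GU_atBot : Tendsto GU atBot (𝓝 (-(1/2))) := by
  have := tendsto_GU_atTop.comp tendsto_neg_atBot_atTop
  have h2 := this.neg
  refine h2.congr ?_
  intro x; simp [GU_neg]

lemma integrable_gU : Integrable gU := by
  have h := integrable_one_add_norm (E := ℝ) (μ := volume) (r := 2) (by simp)
  have h2 := h.const_mul (1/2)
  refine h2.congr (Eventually.of_forall fun x => ?_)
  simp only [gU, Real.norm_eq_abs]
  rw [Real.rpow_neg (by positivity)]
  norm_num
  ring

lemma integral_gU : ∫ x, gU x = 1 := by
  rw [integral_of_hasDerivAt_of_tendsto hasDerivAt_GU integrable_gU tendsto_GU_atBot tendsto_GU_atTop]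
  norm_num

lemma lintegral_gU : ∫⁻ x, ENNReal.ofReal (gU x) = 1 := by
  rw [← ofReal_integral_eq_lintegral_ofReal integrable_gU (Eventually.of_forall fun x => (gU_pos x).le),
    integral_gU, ENNReal.ofReal_one]

instance : IsProbabilityMeasure muU := by
  constructor
  unfold muU
  rw [withDensity_apply _ MeasurableSet.univ, setLIntegral_univ, lintegral_gU]

/-- density of `U + V`. -/
noncomputable def gW (w : ℝ) : ℝ := 1/63 * (GU (w + 63/2) - GU (w - 63/2))

lemma gW_nonneg (w : ℝ) : 0 ≤ gW w := by
  unfold gW
  have := monotone_GU (show w - 63/2 ≤ w + 63/2 by linarith)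
  linarith

lemma continuous_gW : Continuous gW := by
  unfold gW
  exact continuous_const.mul ((continuous_GU.comp (by fun_prop)).sub (continuous_GU.comp (by fun_prop)))

lemma gW_neg (w : ℝ) : gW (-w) = gW w := by
  unfold gW
  have h1 : -w + 63/2 = -(w - 63/2) := by ring
  have h2 : -w - 63/2 = -(w + 63/2) := by ring
  rw [h1, h2, GU_neg, GU_neg]; ring

lemma conv_eq (w : ℝ) : ∫⁻ y, ENNReal.ofReal (gU y) * ENNReal.ofReal (gV (-y + w)) =
    ENNReal.ofReal (gW w) := by
  have h1 : ∀ y, ENNReal.ofReal (gU y) * ENNReal.ofReal (gV (-y + w)) =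
      (Icc (w - 63/2) (w + 63/2)).indicator (fun y => ENNReal.ofReal (1/63 * gU y)) y := by
    intro y
    unfold gV
    by_cases hy : y ∈ Icc (w - 63/2) (w + 63/2)
    · have : -y + w ∈ Icc (-(63/2) : ℝ) (63/2) := by
        simp only [mem_Icc] at hy ⊢; constructor <;> linarith [hy.1, hy.2]
      rw [indicator_of_mem this, indicator_of_mem hy, ENNReal.ofReal_mul (by norm_num), mul_comm]
    · have : -y + w ∉ Icc (-(63/2) : ℝ) (63/2) := by
        intro h; apply hy; simp only [mem_Icc] at h ⊢; constructor <;> linarith [h.1, h.2]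
      rw [indicator_of_notMem this, indicator_of_notMem hy]; simp
  simp_rw [h1]
  rw [lintegral_indicator measurableSet_Icc,
    ← ofReal_integral_eq_lintegral_ofReal ((integrable_gU.const_mul _).integrableOn)
      (Eventually.of_forall fun x => by have := gU_pos x; simp only [Pi.zero_apply]; positivity)]
  congr 1
  rw [integral_Icc_eq_integral_Ioc, ← intervalIntegral.integral_of_le (by linarith),
    intervalIntegral.integral_const_mul, integral_gU_interval]
  rfl

lemma map_sum : mu.map (fun x => x.1 + x.2) = volume.withDensity (fun x => ENNReal.ofReal (gW x)) := by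
  have h := conv_withDensity_eq_lconvolution (μ := (volume : Measure ℝ))
    (f := fun x => ENNReal.ofReal (gU x)) (g := fun x => ENNReal.ofReal (gV x))
    measurable_gU.ennreal_ofReal measurable_gV.ennreal_ofReal
  have e : (fun x => ENNReal.ofReal (gU x)) ⋆ₗ[volume] (fun x => ENNReal.ofReal (gV x)) =
      fun x => ENNReal.ofReal (gW x) := by
    ext w
    rw [lconvolution_def]
    exact conv_eq w
  rw [e] at h
  exact h

lemma map_fst : mu.map Prod.fst = volume.withDensity (fun x => ENNReal.ofReal (gU x)) := by
  unfold mu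
  rw [Measure.map_fst_prod, measure_univ, one_smul]; rfl

lemma map_snd : mu.map Prod.snd = volume.withDensity (fun x => ENNReal.ofReal (gV x)) := by
  unfold mu
  rw [Measure.map_snd_prod, measure_univ, one_smul]; rfl

lemma map_neg_withDensity (f : ℝ → ENNReal) (hf : Measurable f) (hs : ∀ x, f (-x) = f x) :
    (volume.withDensity f).map (fun x => -x) = volume.withDensity f := by
  ext s hs'
  rw [Measure.map_apply measurable_neg hs', withDensity_apply _ hs',
    withDensity_apply _ (measurable_neg hs')]
  have h := (Measure.measurePreserving_neg (volume : Measure ℝ)).setLIntegral_comp_preimage hs' hf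
  rw [← h]
  simp_rw [hs]

lemma map_neg_mu : mu.map (fun x => -x) = mu := by
  have e : (fun x : ℝ × ℝ => -x) = Prod.map (fun x => -x) (fun x => -x) := by
    ext x <;> simp
  unfold mu
  rw [e, ← Measure.map_prod_map _ _ measurable_neg measurable_neg]
  unfold muU muV
  rw [map_neg_withDensity _ measurable_gU.ennreal_ofReal (by intro x; simp [gU]),
    map_neg_withDensity _ measurable_gV.ennreal_ofReal]
  intro x
  unfold gV
  by_cases hx : x ∈ Icc (-(63/2) : ℝ) (63/2)
  · have : -x ∈ Icc (-(63/2) : ℝ) (63/2) := by
      simp only [mem_Icc] at hx ⊢; constructor <;> linarith [hx.1, hx.2]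
    rw [indicator_of_mem hx, indicator_of_mem this]
  · have : -x ∉ Icc (-(63/2) : ℝ) (63/2) := by
      intro h; apply hx; simp only [mem_Icc] at h ⊢; constructor <;> linarith [h.1, h.2]
    rw [indicator_of_notMem hx, indicator_of_notMem this]

end Pool.Agent.Helper96
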