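import Mathlib
import Pool.Agent.Helper96.BM3

set_option autoImplicit false
open MeasureTheory Pointwise Set Filter Topology

namespace Pool.Agent.Helper96

lemma tendsto_aux1 : Tendsto (fun x : ℝ => -(1/12) * ((1 + x) ^ 3)⁻¹) atTop (𝓝 0) := by
  have h : Tendsto (fun x : ℝ => (1 + x) ^ 3) atTop atTop :=
    (tendsto_pow_atTop (by norm_num)).comp (tendsto_atTop_add_const_left _ _ tendsto_id)
  have := (tendsto_inv_atTop_zero.comp h).const_mul (-(1/12) : ℝ)
  simpa using this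

lemma integrableOn_aux1 : IntegrableOn (fun x : ℝ => 1 / (4 * (1 + x) ^ 4)) (Ioi 0) := by
  have hderiv : ∀ x ∈ Ici (0:ℝ), HasDerivAt (fun x : ℝ => -(1/12) * ((1 + x) ^ 3)⁻¹)
      (1 / (4 * (1 + x) ^ 4)) x := by
    intro x hx
    simp only [mem_Ici] at hx
    have h2 : HasDerivAt (fun y : ℝ => (1 + y) ^ 3) (3 * (1 + x) ^ 2 * (0 + 1)) x := by
      simpa using ((hasDerivAt_const x (1:ℝ)).fun_add (hasDerivAt_id' x)).fun_pow 3
    have hne : (1 + x) ^ 3 ≠ 0 := by positivity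
    refine ((h2.fun_inv hne).const_mul (-(1/12) : ℝ)).congr_deriv ?_
    field_simp
    norm_num
  exact integrableOn_Ioi_deriv_of_nonneg' hderiv (fun x hx => by
    simp only [mem_Ioi] at hx; positivity) tendsto_aux1

lemma integral_aux1 : ∫ x in Ioi (0:ℝ), 1 / (4 * (1 + x) ^ 4) = 1/12 := by
  have hderiv : ∀ x ∈ Ici (0:ℝ), HasDerivAt (fun x : ℝ => -(1/12) * ((1 + x) ^ 3)⁻¹)
      (1 / (4 * (1 + x) ^ 4)) x := by
    intro x hx
    simp only [mem_Ici] at hx
    have h2 : HasDerivAt (fun y : ℝ => (1 + y) ^ 3) (3 * (1 + x) ^ 2 * (0 + 1)) x := by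
      simpa using ((hasDerivAt_const x (1:ℝ)).fun_add (hasDerivAt_id' x)).fun_pow 3
    have hne : (1 + x) ^ 3 ≠ 0 := by positivity
    refine ((h2.fun_inv hne).const_mul (-(1/12) : ℝ)).congr_deriv ?_
    field_simp
    norm_num
  rw [integral_Ioi_of_hasDerivAt_of_tendsto' hderiv integrableOn_aux1 tendsto_aux1]
  norm_num

lemma integral_gU_sq : ∫ x, gU x ^ 2 = 1/6 := by
  have e : ∀ x, gU x ^ 2 = (fun y : ℝ => 1 / (4 * (1 + y) ^ 4)) |x| := by
    intro x
    simp only [gU]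
    rw [div_pow, mul_pow, ← pow_mul]
    norm_num
  simp_rw [e]
  rw [integral_comp_abs (f := fun y : ℝ => 1 / (4 * (1 + y) ^ 4)), integral_aux1]
  norm_num

lemma integrable_gU_sq : Integrable (fun x => gU x ^ 2) := by
  have : ∀ x, ‖gU x ^ 2‖ ≤ ‖gU x‖ := by
    intro x
    have h0 := gU_pos x
    have h1 : gU x ≤ 1 := by
      unfold gU
      rw [div_le_one (by have := abs_nonneg x; positivity)]
      nlinarith [abs_nonneg x]
    rw [Real.norm_of_nonneg (by positivity), Real.norm_of_nonneg h0.le]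
    nlinarith
  exact integrable_gU.mono (measurable_gU.pow_const 2).aestronglyMeasurable
    (Eventually.of_forall this)

lemma lintegral_gU_sq : ∫⁻ x, ENNReal.ofReal (gU x ^ 2) = ENNReal.ofReal (1/6) := by
  rw [← ofReal_integral_eq_lintegral_ofReal integrable_gU_sq
    (Eventually.of_forall fun x => by simp only [Pi.zero_apply]; positivity), integral_gU_sq]

lemma lintegral_gV_sq : ∫⁻ x, ENNReal.ofReal (gV x ^ 2) = ENNReal.ofReal (1/63) := by
  have : ∀ x, ENNReal.ofReal (gV x ^ 2) =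
      (Icc (-(63/2) : ℝ) (63/2)).indicator (fun _ => ENNReal.ofReal ((1/63)^2)) x := by
    intro x
    unfold gV
    by_cases hx : x ∈ Icc (-(63/2) : ℝ) (63/2)
    · simp only [indicator_of_mem hx]
    · simp only [indicator_of_notMem hx]; norm_num
  simp_rw [this]
  rw [lintegral_indicator_const measurableSet_Icc, Real.volume_Icc, ← ENNReal.ofReal_mul (by norm_num)]
  norm_num

lemma GU_of_nonneg {x : ℝ} (hx : 0 ≤ x) : GU x = 1/2 * (1 - 1 / (1 + x)) := by
  unfold GU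
  rw [abs_of_nonneg hx]
  have : (1 + x) ≠ 0 := by positivity
  field_simp
  ring

lemma GU_of_nonpos {x : ℝ} (hx : x ≤ 0) : GU x = -(1/2 * (1 - 1 / (1 - x))) := by
  have := GU_of_nonneg (neg_nonneg.2 hx)
  rw [GU_neg] at this
  have e : 1 + -x = 1 - x := by ring
  rw [e] at this
  linarith

/-- bound on `(0, 63/2]` -/
lemma gW_bound1 {w : ℝ} (hw0 : 0 ≤ w) (hw : w ≤ 63/2) :
    gW w ^ 2 ≤ 1/7938 * ((1 - 1 / (65/2 + w)) ^ 2 + (1 - 1 / (65/2 - w)) ^ 2) := by
  have e : gW w = 1/126 * ((1 - 1 / (65/2 + w)) + (1 - 1 / (65/2 - w))) := by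
    unfold gW
    rw [GU_of_nonneg (by linarith : 0 ≤ w + 63/2), GU_of_nonpos (by linarith : w - 63/2 ≤ 0)]
    have h3 : (1 + (w + 63/2)) = 65/2 + w := by ring
    have h4 : (1 - (w - 63/2)) = 65/2 - w := by ring
    rw [h3, h4]
    generalize 1 / (65/2 + w) = p
    generalize 1 / (65/2 - w) = q
    ring
  rw [e]
  nlinarith [sq_nonneg ((1 - 1 / (65/2 + w)) - (1 - 1 / (65/2 - w)))]

lemma gW_bound2 {w : ℝ} (hw : 63/2 < w) :
    gW w ^ 2 ≤ 1/15876 * (1 / (w - 61/2) ^ 2) := by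
  have e : gW w = 1/126 * (1 / (w - 61/2) - 1 / (65/2 + w)) := by
    unfold gW
    rw [GU_of_nonneg (by linarith : 0 ≤ w + 63/2), GU_of_nonneg (by linarith : 0 ≤ w - 63/2)]
    have h3 : (1 + (w + 63/2)) = 65/2 + w := by ring
    have h4 : (1 + (w - 63/2)) = w - 61/2 := by ring
    rw [h3, h4]
    generalize 1 / (65/2 + w) = p
    generalize 1 / (w - 61/2) = q
    ring
  have h0 := gW_nonneg w
  have h1 : gW w ≤ 1/126 * (1 / (w - 61/2)) := by
    rw [e]
    have : 0 ≤ 1 / (65/2 + w) := by apply div_nonneg <;> linarith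
    linarith
  calc gW w ^ 2 ≤ (1/126 * (1 / (w - 61/2))) ^ 2 := by gcongr
    _ = 1/15876 * (1 / (w - 61/2) ^ 2) := by
      rw [← one_div_pow]
      generalize 1 / (w - 61/2) = q
      ring

lemma integral_part1 : ∫ w in (0:ℝ)..(63/2),
    1/7938 * ((1 - 1 / (65/2 + w)) ^ 2 + (1 - 1 / (65/2 - w)) ^ 2) =
    1/7938 * (64 - 2 * Real.log 64 - 1/64) := by
  have hderiv : ∀ w ∈ uIcc (0:ℝ) (63/2), HasDerivAt (fun w : ℝ => 1/7938 *
      ((w - 2 * Real.log (65/2 + w) - (65/2 + w)⁻¹) + (w + 2 * Real.log (65/2 - w) + (65/2 - w)⁻¹)))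
      (1/7938 * ((1 - 1 / (65/2 + w)) ^ 2 + (1 - 1 / (65/2 - w)) ^ 2)) w := by
    intro w hw
    rw [uIcc_of_le (by norm_num)] at hw
    have h1 : (65/2 + w) ≠ 0 := by linarith [hw.1]
    have h2 : (65/2 - w) ≠ 0 := by linarith [hw.2]
    have d1 : HasDerivAt (fun y : ℝ => 65/2 + y) (0 + 1) w :=
      (hasDerivAt_const w (65/2:ℝ)).fun_add (hasDerivAt_id' w)
    have d2 : HasDerivAt (fun y : ℝ => 65/2 - y) (0 - 1) w :=
      (hasDerivAt_const w (65/2:ℝ)).fun_sub (hasDerivAt_id' w)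
    have d3 := ((hasDerivAt_id' w).fun_sub ((d1.log h1).const_mul 2)).fun_sub (d1.fun_inv h1)
    have d4 := ((hasDerivAt_id' w).fun_add ((d2.log h2).const_mul 2)).fun_add (d2.fun_inv h2)
    refine ((d3.fun_add d4).const_mul (1/7938 : ℝ)).congr_deriv ?_
    have e1 : ∀ z : ℝ, 1 / z = z⁻¹ := fun z => one_div z
    have e2 : ∀ z y : ℝ, y / z ^ 2 = y * (z⁻¹) ^ 2 := by
      intro z y; rw [inv_pow]; rfl
    have e3 : ∀ z y : ℝ, y / z = y * z⁻¹ := fun z y => rfl
    rw [e2, e2, e1 (65/2 + w), e1 (65/2 - w), e3 (65/2 + w), e3 (65/2 - w)]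
    generalize (65/2 + w)⁻¹ = p
    generalize (65/2 - w)⁻¹ = q
    ring
  rw [intervalIntegral.integral_eq_sub_of_hasDerivAt hderiv]
  · have e1 : (65/2 : ℝ) + 63/2 = 64 := by norm_num
    have e2 : (65/2 : ℝ) - 63/2 = 1 := by norm_num
    rw [e1, e2, add_zero, sub_zero, Real.log_one]
    ring
  · apply ContinuousOn.intervalIntegrable
    rw [uIcc_of_le (by norm_num)]
    intro w hw
    have h1 : (65/2 + w) ≠ 0 := by linarith [hw.1]
    have h2 : (65/2 - w) ≠ 0 := by linarith [hw.2]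
    apply ContinuousAt.continuousWithinAt
    fun_prop (disch := assumption)

lemma tendsto_aux2 : Tendsto (fun x : ℝ => -(1/15876) * (x - 61/2)⁻¹) atTop (𝓝 0) := by
  have h : Tendsto (fun x : ℝ => (x - 61/2)) atTop atTop :=
    tendsto_atTop_add_const_right _ _ tendsto_id
  have := (tendsto_inv_atTop_zero.comp h).const_mul (-(1/15876) : ℝ)
  simpa using this

lemma hasDeriv_aux2 : ∀ x ∈ Ici (63/2:ℝ), HasDerivAt (fun x : ℝ => -(1/15876) * (x - 61/2)⁻¹)
      (1/15876 * (1 / (x - 61/2) ^ 2)) x := by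
  intro x hx
  simp only [mem_Ici] at hx
  have h2 : HasDerivAt (fun y : ℝ => y - 61/2) (1 - 0) x :=
    (hasDerivAt_id' x).fun_sub (hasDerivAt_const x (61/2:ℝ))
  have hne : (x - 61/2) ≠ 0 := by linarith
  refine ((h2.fun_inv hne).const_mul (-(1/15876) : ℝ)).congr_deriv ?_
  field_simp
  norm_num

lemma integrableOn_aux2 : IntegrableOn (fun x : ℝ => 1/15876 * (1 / (x - 61/2) ^ 2)) (Ioi (63/2)) :=
  integrableOn_Ioi_deriv_of_nonneg' hasDeriv_aux2 (fun x hx => by positivity) tendsto_aux2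

lemma integral_part2 : ∫ x in Ioi (63/2:ℝ), 1/15876 * (1 / (x - 61/2) ^ 2) = 1/15876 := by
  rw [integral_Ioi_of_hasDerivAt_of_tendsto' hasDeriv_aux2 integrableOn_aux2 tendsto_aux2]
  norm_num

lemma integrable_gW : Integrable (fun x => gW x) := by
  have h : ∫⁻ x, ENNReal.ofReal (gW x) = 1 := by
    have := congrArg (fun m : Measure ℝ => m univ) map_sum
    beta_reduce at this
    rw [withDensity_apply _ MeasurableSet.univ, setLIntegral_univ,
      Measure.map_apply (by fun_prop) MeasurableSet.univ, preimage_univ] at this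
    rw [← this]
    unfold mu
    exact measure_univ
  refine ⟨continuous_gW.aestronglyMeasurable, ?_⟩
  rw [hasFiniteIntegral_iff_ofReal (Eventually.of_forall gW_nonneg), h]
  exact ENNReal.one_lt_top

lemma gW_le_one (w : ℝ) : gW w ≤ 1 := by
  have h1 : ∀ x, GU x ≤ 1/2 := by
    intro x
    exact monotone_GU.ge_of_tendsto tendsto_GU_atTop x
  have h2 : ∀ x, -(1/2) ≤ GU x := by
    intro x
    exact monotone_GU.le_of_tendsto tendsto_GU_atBot x
  unfold gW
  have := h1 (w + 63/2)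
  have := h2 (w - 63/2)
  linarith

lemma integrable_gW_sq : Integrable (fun x => gW x ^ 2) := by
  have : ∀ x, ‖gW x ^ 2‖ ≤ ‖gW x‖ := by
    intro x
    have h0 := gW_nonneg x
    have h1 := gW_le_one x
    rw [Real.norm_of_nonneg (by positivity), Real.norm_of_nonneg h0]
    nlinarith
  exact integrable_gW.mono (continuous_gW.pow 2).aestronglyMeasurable (Eventually.of_forall this)

lemma integral_gW_sq_lt : ∫ x, gW x ^ 2 < 1/69 := by
  have e : ∀ x, gW x ^ 2 = (fun y : ℝ => gW y ^ 2) |x| := by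
    intro x
    rcases abs_cases x with h | h
    · simp only [h.1]
    · simp only [h.1, gW_neg]
  have e' : ∫ x, gW x ^ 2 = ∫ x, (fun y : ℝ => gW y ^ 2) |x| := by
    congr 1; ext x; exact e x
  rw [e', integral_comp_abs (f := fun y : ℝ => gW y ^ 2)]
  have hsplit : ∫ x in Ioi (0:ℝ), gW x ^ 2 = (∫ x in Ioc (0:ℝ) (63/2), gW x ^ 2) +
      ∫ x in Ioi (63/2:ℝ), gW x ^ 2 := by
    rw [← setIntegral_union _ measurableSet_Ioi integrable_gW_sq.integrableOn
      integrable_gW_sq.integrableOn, Ioc_union_Ioi_eq_Ioi (by norm_num)]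
    exact Set.Ioc_disjoint_Ioi le_rfl
  have hb1 : ∫ x in Ioc (0:ℝ) (63/2), gW x ^ 2 ≤ 1/7938 * (64 - 2 * Real.log 64 - 1/64) := by
    rw [← integral_part1, intervalIntegral.integral_of_le (by norm_num)]
    refine setIntegral_mono_on integrable_gW_sq.integrableOn ?_ measurableSet_Ioc ?_
    · have : IntervalIntegrable (fun w : ℝ => 1/7938 * ((1 - 1 / (65/2 + w)) ^ 2 + (1 - 1 / (65/2 - w)) ^ 2))
          volume 0 (63/2) := by
        apply ContinuousOn.intervalIntegrable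
        rw [uIcc_of_le (by norm_num)]
        intro w hw
        have h1 : (65/2 + w) ≠ 0 := by linarith [hw.1]
        have h2 : (65/2 - w) ≠ 0 := by linarith [hw.2]
        apply ContinuousAt.continuousWithinAt
        fun_prop (disch := assumption)
      exact this.1
    · intro w hw
      exact gW_bound1 hw.1.le hw.2
  have hb2 : ∫ x in Ioi (63/2:ℝ), gW x ^ 2 ≤ 1/15876 := by
    rw [← integral_part2]
    exact setIntegral_mono_on integrable_gW_sq.integrableOn integrableOn_aux2 measurableSet_Ioi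
      (fun w hw => gW_bound2 hw)
  have hlog : Real.log 64 = 6 * Real.log 2 := by
    rw [show (64:ℝ) = 2 ^ 6 by norm_num, Real.log_pow]; norm_num
  have hl2 := Real.log_two_gt_d9
  rw [hlog] at hb1
  rw [hsplit]
  linarith

lemma lintegral_gW_sq_lt : ∫⁻ x, ENNReal.ofReal (gW x ^ 2) < ENNReal.ofReal (1/69) := by
  rw [← ofReal_integral_eq_lintegral_ofReal integrable_gW_sq
    (Eventually.of_forall fun x => by simp only [Pi.zero_apply]; positivity)]
  exact (ENNReal.ofReal_lt_ofReal_iff (by norm_num)).2 integral_gW_sq_lt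

lemma expo : (-((1 - (2:ENNReal)⁻¹)⁻¹).toReal) = (-2 : ℝ) := by
  rw [ENNReal.one_sub_inv_two, inv_inv]; norm_num

lemma eLpNorm_two_pow (f : ℝ → ℝ) (hf : ∀ x, 0 ≤ f x) :
    eLpNorm f 2 volume ^ (-((1 - (2:ENNReal)⁻¹)⁻¹).toReal) = (∫⁻ x, ENNReal.ofReal (f x ^ 2))⁻¹ := by
  rw [expo, eLpNorm_eq_lintegral_rpow_enorm_toReal (by norm_num) (by norm_num), ← ENNReal.rpow_mul]
  have e1 : ∀ x, ‖f x‖ₑ ^ (2:ENNReal).toReal = ENNReal.ofReal (f x ^ 2) := by
    intro x
    rw [Real.enorm_of_nonneg (hf x), ENNReal.ofReal_rpow_of_nonneg (hf x) (by simp)]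
    norm_num
  simp_rw [e1]
  have e2 : 1 / (2:ENNReal).toReal * (-2) = -1 := by norm_num
  rw [e2, ENNReal.rpow_neg_one]

end Pool.Agent.Helper96
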