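import Mathlib

set_option autoImplicit false
open MeasureTheory ProbabilityTheory Set

namespace Pool.Agent.Helper96

/-- Events depending on pairwise disjoint blocks of independent coordinates are independent. -/
theorem measure_biInter_blocks {Ω ι κ : Type*} [mΩ : MeasurableSpace Ω] {μ : Measure Ω}
    {m : ι → MeasurableSpace Ω} (h_le : ∀ i, m i ≤ mΩ) (hind : iIndep m μ)
    (B : κ → Set ι) (A : κ → Set Ω) (I : Finset κ)
    (hB : ∀ a ∈ I, ∀ b ∈ I, a ≠ b → Disjoint (B a) (B b))
    (hA : ∀ a ∈ I, MeasurableSet[⨆ i ∈ B a, m i] (A a)) :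
    μ (⋂ a ∈ I, A a) = ∏ a ∈ I, μ (A a) := by
  classical
  have hprob : IsProbabilityMeasure μ := hind.isProbabilityMeasure
  induction I using Finset.induction_on with
  | empty => simp
  | insert a I ha ih =>
    rw [Finset.prod_insert ha, Finset.set_biInter_insert]
    have h1 : Disjoint (B a) (⋃ b ∈ I, B b) := by
      rw [Set.disjoint_iUnion₂_right]
      intro b hb
      exact hB a (Finset.mem_insert_self _ _) b (Finset.mem_insert_of_mem hb)
        (fun h => ha (h ▸ hb))
    have h2 := indep_iSup_of_disjoint h_le hind h1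
    have h3 : MeasurableSet[⨆ i ∈ (⋃ b ∈ I, B b), m i] (⋂ b ∈ I, A b) := by
      refine MeasurableSet.biInter I.countable_toSet (fun b hb => ?_)
      have h4 := hA b (Finset.mem_insert_of_mem hb)
      have h5 : (⨆ i ∈ B b, m i) ≤ ⨆ i ∈ (⋃ b ∈ I, B b), m i := by
        refine iSup₂_le (fun i hi => ?_)
        exact le_iSup₂_of_le i (Set.mem_biUnion hb hi) le_rfl
      exact h5 _ h4
    rw [(Indep_iff _ _ _).1 h2 (A a) (⋂ b ∈ I, A b) (hA a (Finset.mem_insert_self _ _)) h3]
    rw [ih (fun b hb c hc => hB b (Finset.mem_insert_of_mem hb) c (Finset.mem_insert_of_mem hc))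
      (fun b hb => hA b (Finset.mem_insert_of_mem hb))]

end Pool.Agent.Helper96
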