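import Mathlib
import Pool.Agent.Helper96.HierBound

/-!
Existence and uniqueness of the normalisation `ζ_n`.
-/

open Filter Topology

namespace Pool.Agent.Helper96.HP

/-- For `L ^ (n d) ≥ 3` there is exactly one positive `z` solving the defining equation of `ζ_n`. -/
theorem existsUnique_zeta (d L n : ℕ) (hd : 1 ≤ d) (hL : 2 ≤ L) (ρ : ℝ → ℝ)
    (hρ : ∀ r, 1 ≤ r → 0 < ρ r) (hn : 3 ≤ L ^ (n * d)) :
    ∃! z : ℝ, 0 < z ∧ ∑ i ∈ Finset.Icc 1 n, ((L : ℝ) ^ d - 1) * (L : ℝ) ^ ((i - 1) * d) *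
      Real.exp (-ρ ((L : ℝ) ^ i) / z) = (L : ℝ) ^ (n * d) - 2 := by
  have hL1 : (1 : ℝ) ≤ (L : ℝ) := by exact_mod_cast (by omega : 1 ≤ L)
  have hLpos : (0 : ℝ) < (L : ℝ) := by linarith
  have hLd : (2 : ℝ) ≤ (L : ℝ) ^ d := by
    have h1 : (L : ℝ) ^ 1 ≤ (L : ℝ) ^ d := pow_le_pow_right₀ hL1 hd
    have h2 : (2 : ℝ) ≤ (L : ℝ) := by exact_mod_cast hL
    linarith [pow_one (L : ℝ)]
  have hn3 : (3 : ℝ) ≤ (L : ℝ) ^ (n * d) := by exact_mod_cast hn
  have hn1 : 1 ≤ n := by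
    rcases Nat.eq_zero_or_pos n with h | h
    · subst h; simp at hn
    · exact h
  set w : ℕ → ℝ := fun i => ((L : ℝ) ^ d - 1) * (L : ℝ) ^ ((i - 1) * d) with hw
  have hwpos : ∀ i, 0 < w i := fun i => mul_pos (by linarith) (pow_pos hLpos _)
  have hwsum : ∑ i ∈ Finset.Icc 1 n, w i = (L : ℝ) ^ (n * d) - 1 := by
    have h1 : ∑ i ∈ Finset.Icc 1 n, w i =
        ∑ i ∈ Finset.Icc 1 n, (((L : ℝ) ^ d) ^ i - ((L : ℝ) ^ d) ^ (i - 1)) :=
      Finset.sum_congr rfl fun i hi => shell_weight d L i (Finset.mem_Icc.1 hi).1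
    rw [h1, telescoping, ← pow_mul, mul_comm d n]
  set F : ℝ → ℝ := fun z => ∑ i ∈ Finset.Icc 1 n, w i * Real.exp (-ρ ((L : ℝ) ^ i) / z) with hF
  have hρi : ∀ i : ℕ, 0 < ρ ((L : ℝ) ^ i) := fun i => hρ _ (one_le_pow₀ hL1)
  have hmono : ∀ a b : ℝ, 0 < a → a < b → F a < F b := by
    intro a b ha hab
    refine Finset.sum_lt_sum_of_nonempty ⟨1, Finset.mem_Icc.2 ⟨le_rfl, hn1⟩⟩ fun i _ => ?_
    refine mul_lt_mul_of_pos_left (Real.exp_lt_exp.2 ?_) (hwpos i)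
    rw [neg_div, neg_div, neg_lt_neg_iff]
    exact div_lt_div_of_pos_left (hρi i) ha hab
  have hcont : ContinuousOn F (Set.Ioi 0) := by
    refine continuousOn_finsetSum _ fun i _ => ContinuousOn.mul continuousOn_const ?_
    refine Real.continuous_exp.comp_continuousOn ?_
    exact continuousOn_const.div continuousOn_id fun x hx => ne_of_gt hx
  have hinf : Tendsto F atTop (𝓝 ((L : ℝ) ^ (n * d) - 1)) := by
    rw [← hwsum]
    refine tendsto_finsetSum _ fun i _ => ?_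
    have h1 : Tendsto (fun z : ℝ => -ρ ((L : ℝ) ^ i) / z) atTop (𝓝 0) :=
      tendsto_const_nhds.div_atTop tendsto_id
    have h2 := (Real.continuous_exp.tendsto 0).comp h1
    simpa using h2.const_mul (w i)
  have hzero : Tendsto F (𝓝[>] 0) (𝓝 0) := by
    suffices h : Tendsto F (𝓝[>] 0) (𝓝 (∑ i ∈ Finset.Icc 1 n, w i * 0)) by simpa using h
    refine tendsto_finsetSum _ fun i _ => ?_
    refine Tendsto.const_mul _ ?_
    refine Real.tendsto_exp_atBot.comp ?_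
    have h1 : Tendsto (fun z : ℝ => ρ ((L : ℝ) ^ i) * z⁻¹) (𝓝[>] 0) atTop :=
      Tendsto.const_mul_atTop (hρi i) tendsto_inv_nhdsGT_zero
    have h2 := tendsto_neg_atTop_atBot.comp h1
    refine h2.congr fun z => ?_
    simp only [Function.comp_apply]
    ring
  obtain ⟨a, ha0, ha⟩ : ∃ a : ℝ, 0 < a ∧ F a < (L : ℝ) ^ (n * d) - 2 := by
    have h1 : ∀ᶠ z in 𝓝[>] (0 : ℝ), F z < (L : ℝ) ^ (n * d) - 2 :=
      hzero.eventually_lt_const (by linarith)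
    obtain ⟨a, ha, ha'⟩ := (h1.and self_mem_nhdsWithin).exists
    exact ⟨a, ha', ha⟩
  obtain ⟨b, hb0, hb⟩ : ∃ b : ℝ, a < b ∧ (L : ℝ) ^ (n * d) - 2 < F b := by
    have h1 : ∀ᶠ z in atTop, (L : ℝ) ^ (n * d) - 2 < F z :=
      hinf.eventually_const_lt (by linarith)
    obtain ⟨b, hb, hb'⟩ := (h1.and (eventually_gt_atTop a)).exists
    exact ⟨b, hb', hb⟩
  have hIVT := intermediate_value_Icc hb0.le (hcont.mono fun x hx =>
    lt_of_lt_of_le ha0 hx.1)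
  obtain ⟨z, hz, hFz⟩ := hIVT ⟨ha.le, hb.le⟩
  have hz0 : 0 < z := lt_of_lt_of_le ha0 hz.1
  refine ⟨z, ⟨hz0, hFz⟩, fun y hy => ?_⟩
  rcases lt_trichotomy y z with h | h | h
  · have := hmono y z hy.1 h
    have h2 : F y = F z := hy.2.trans hFz.symm
    linarith
  · exact h
  · have := hmono z y hz0 h
    have h2 : F y = F z := hy.2.trans hFz.symm
    linarith

end Pool.Agent.Helper96.HP
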