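import Mathlib

set_option autoImplicit false
open MeasureTheory ProbabilityTheory Set
open scoped NNReal ENNReal

namespace Pool.Agent.Helper96.Worm

/-- Vertices of the square lattice `ℤ²`. -/
abbrev V : Type := ℤ × ℤ

/-- The nearest-neighbour graph on `ℤ²`. -/
def latticeGraph : SimpleGraph V where
  Adj x y := |x.1 - y.1| + |x.2 - y.2| = 1
  symm := ⟨fun x y h => by rw [abs_sub_comm x.1, abs_sub_comm x.2] at h; exact h⟩
  loopless := ⟨fun x h => by simp at h⟩

/-- The four unit steps. -/
def step : Fin 4 → V := ![(1, 0), (-1, 0), (0, 1), (0, -1)]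

/-- Position at time `t` of the nearest-neighbour path started at `0` with step sequence `w`. -/
def pos {l : ℕ} (w : Fin l → Fin 4) (t : ℕ) : V :=
  ∑ i : Fin l, if (i : ℕ) < t then step (w i) else 0

/-- The trace `{X(0), …, X(l)}` of the path with step sequence `w`. -/
def trace {l : ℕ} (w : Fin l → Fin 4) : Finset V :=
  (Finset.range (l + 1)).image (pos w)

/-- The law `ν` of the trace of one worm started at the origin: its length `l` has law `m`, and given
`l` its `l` steps are i.i.d. uniform over the four unit steps. -/
noncomputable def traceLaw (m : PMF ℕ) : PMF (Finset V) :=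
  m.bind fun l => (PMF.uniformOfFintype (Fin l → Fin 4)).map trace

/-- The law of the family of the numbers of worms at `x` with trace `x + H`: independent over all
pairs `(x, H)`, Poisson with mean `v * ν(H)`. -/
noncomputable def zooLaw (ν : PMF (Finset V)) (v : ℝ≥0) : Measure (V × Finset V → ℕ) :=
  Measure.infinitePi fun i => poissonMeasure (v * (ν i.2).toNNReal)

/-- The set `𝒮` of vertices visited by the worms. -/
def occupied (ω : V × Finset V → ℕ) : Set V := {z | ∃ x H, 1 ≤ ω (x, H) ∧ z - x ∈ H}

/-- `S` percolates: the subgraph of the lattice induced by `S` has an infinite component. -/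
def Percolates (S : Set V) : Prop :=
  ∃ c : (latticeGraph.induce S).ConnectedComponent, c.supp.Infinite

/-- The critical intensity `v_c = inf {v > 0 : P(𝒮^v percolates) > 0} ∈ [0,∞]` of the random length
worms model with length distribution `m`. -/
noncomputable def criticalIntensity (m : PMF ℕ) : ℝ≥0∞ :=
  ⨅ (v : ℝ≥0) (_ : 0 < v) (_ : 0 < zooLaw (traceLaw m) v {ω | Percolates (occupied ω)}), (v : ℝ≥0∞)

end Pool.Agent.Helper96.Worm
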