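import Mathlib
import Pool.Agent.Helper96.WormDefs

set_option autoImplicit false
open MeasureTheory ProbabilityTheory Set
open scoped NNReal ENNReal

namespace Pool.Agent.Helper96.Worm

/-- sup-norm distance, natural number valued -/
def nd (x y : V) : ℕ := max (x.1 - y.1).natAbs (x.2 - y.2).natAbs

lemma nd_comm (x y : V) : nd x y = nd y x := by unfold nd; omega

lemma nd_triangle (x y z : V) : nd x z ≤ nd x y + nd y z := by unfold nd; omega

lemma nd_self (x : V) : nd x x = 0 := by unfold nd; omega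

lemma nd_add_right (x h : V) : nd x (x + h) = nd 0 h := by
  unfold nd; simp only [Prod.fst_add, Prod.snd_add, Prod.fst_zero, Prod.snd_zero]; omega

lemma nd_adj {x y : V} (h : latticeGraph.Adj x y) : nd x y ≤ 1 := by
  have h' : |x.1 - y.1| + |x.2 - y.2| = 1 := h
  rw [Int.abs_eq_natAbs, Int.abs_eq_natAbs] at h'
  unfold nd; omega

/-- `γ 0, …, γ n` is a path in `S`. -/
def PathIn (S : Set V) (γ : ℕ → V) (n : ℕ) : Prop :=
  (∀ i < n, latticeGraph.Adj (γ i) (γ (i + 1))) ∧ ∀ i ≤ n, γ i ∈ S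

def Conn (S : Set V) (y z : V) : Prop := ∃ n γ, PathIn S γ n ∧ γ 0 = y ∧ γ n = z

lemma nd_path_step {S : Set V} {γ : ℕ → V} {n : ℕ} (h : PathIn S γ n) {i : ℕ} (hi : i < n) (c : V) :
    nd c (γ (i + 1)) ≤ nd c (γ i) + 1 := by
  have := nd_adj (h.1 i hi)
  have := nd_triangle c (γ i) (γ (i + 1))
  omega

/-- first exit -/
lemma local_crossing {S S' : Set V} {c : V} {a : ℕ} {γ : ℕ → V} {n : ℕ} (hγ : PathIn S γ n)
    (h0 : nd c (γ 0) ≤ a) (hn : 8 * a < nd c (γ n))
    (hcov : ∀ z ∈ S, nd c z ≤ 8 * a + 1 → z ∈ S') :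
    ∃ y z, nd c y ≤ a ∧ 8 * a < nd c z ∧ Conn S' y z := by
  classical
  have hex : ∃ i, 8 * a < nd c (γ i) := ⟨n, hn⟩
  set i0 := Nat.find hex with hi0
  have h1 : 8 * a < nd c (γ i0) := Nat.find_spec hex
  have h2 : ∀ i < i0, nd c (γ i) ≤ 8 * a := fun i hi => not_lt.1 (Nat.find_min hex hi)
  have h3 : i0 ≤ n := Nat.find_min' hex hn
  have h4 : i0 ≠ 0 := by
    intro h; rw [h] at h1; omega
  refine ⟨γ 0, γ i0, h0, h1, i0, γ, ⟨fun i hi => hγ.1 i (by omega), fun i hi => ?_⟩, rfl, rfl⟩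
  refine hcov _ (hγ.2 i (by omega)) ?_
  rcases lt_or_eq_of_le hi with h | h
  · have := h2 i h; omega
  · obtain ⟨j, hj⟩ : ∃ j, i0 = j + 1 := ⟨i0 - 1, by omega⟩
    have h5 := nd_path_step hγ (i := j) (by omega) c
    have h6 := h2 j (by omega)
    rw [h, hj]; omega

/-- intermediate value -/
lemma path_ivt {S : Set V} {c : V} {R : ℕ} {γ : ℕ → V} {n : ℕ} (hγ : PathIn S γ n)
    (h0 : nd c (γ 0) ≤ R) (hn : R < nd c (γ n)) : ∃ i < n, nd c (γ i) = R := by
  classical
  have hex : ∃ i, R < nd c (γ i) := ⟨n, hn⟩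
  set i0 := Nat.find hex with hi0
  have h1 : R < nd c (γ i0) := Nat.find_spec hex
  have h2 : ∀ i < i0, nd c (γ i) ≤ R := fun i hi => not_lt.1 (Nat.find_min hex hi)
  have h3 : i0 ≤ n := Nat.find_min' hex hn
  have h4 : i0 ≠ 0 := by
    intro h; rw [h] at h1; omega
  obtain ⟨j, hj⟩ : ∃ j, i0 = j + 1 := ⟨i0 - 1, by omega⟩
  have h5 := nd_path_step hγ (i := j) (by omega) c
  have h6 := h2 j (by omega)
  rw [← hj] at h5
  exact ⟨j, by omega, by omega⟩

/-- Occupied set produced by the worms started in `R`. -/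
def occIn (R : Set V) (ω : V × Finset V → ℕ) : Set V :=
  {z | ∃ x H, x ∈ R ∧ 1 ≤ ω (x, H) ∧ z - x ∈ H}

def bigBall (c : V) (r : ℕ) : Set V := {s | nd c s ≤ r}

/-- crossing event -/
def G (x : V) (a : ℕ) : Set (V × Finset V → ℕ) :=
  {ω | ∃ y z, nd x y ≤ a ∧ 8 * a < nd x z ∧ Conn (occIn (bigBall x (10 * a)) ω) y z}

/-- existence of a large worm started nearby -/
def Bad (x : V) (a : ℕ) : Set (V × Finset V → ℕ) :=
  {ω | ∃ s H, nd x s ≤ 100 * a ∧ 1 ≤ ω (s, H) ∧ ∃ h ∈ H, a < nd 0 h}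

/-- existence of a worm coming from far away -/
def Far (x : V) (a : ℕ) : Set (V × Finset V → ℕ) :=
  {ω | ∃ s H, 10 * a < nd x s ∧ 1 ≤ ω (s, H) ∧ ∃ h ∈ H, nd x (s + h) ≤ 8 * a + 1}

/-- grid points of the sphere of radius `R` (in units of `a`) -/
noncomputable def sphereIdx (R : ℕ) : Finset (ℤ × ℤ) :=
  (Finset.Icc (-(R:ℤ)) R ×ˢ Finset.Icc (-(R:ℤ)) R).filter (fun p => max p.1.natAbs p.2.natAbs = R)

lemma mem_sphereIdx {R : ℕ} {p : ℤ × ℤ} : p ∈ sphereIdx R ↔
    ((-(R:ℤ) ≤ p.1 ∧ p.1 ≤ R) ∧ (-(R:ℤ) ≤ p.2 ∧ p.2 ≤ R)) ∧ max p.1.natAbs p.2.natAbs = R := by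
  simp only [sphereIdx, Finset.mem_filter, Finset.mem_product, Finset.mem_Icc]

attribute [irreducible] sphereIdx

def gridPt (x : V) (a : ℕ) (p : ℤ × ℤ) : V := (x.1 + a * p.1, x.2 + a * p.2)

lemma nd_gridPt {x : V} {a R : ℕ} {p : ℤ × ℤ} (hp : p ∈ sphereIdx R) :
    nd x (gridPt x a p) = R * a := by
  rw [mem_sphereIdx] at hp
  obtain ⟨-, hp⟩ := hp
  unfold nd gridPt
  have h1 : (x.1 - (x.1 + a * p.1)).natAbs = a * p.1.natAbs := by
    rw [show x.1 - (x.1 + a * p.1) = -(a * p.1) by ring, Int.natAbs_neg, Int.natAbs_mul,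
      Int.natAbs_natCast]
  have h2 : (x.2 - (x.2 + a * p.2)).natAbs = a * p.2.natAbs := by
    rw [show x.2 - (x.2 + a * p.2) = -(a * p.2) by ring, Int.natAbs_neg, Int.natAbs_mul,
      Int.natAbs_natCast]
  simp only [h1, h2]
  rw [Nat.mul_max_mul_left, hp, mul_comm]

lemma exists_grid {x u : V} {a R : ℕ} (ha : 1 ≤ a) (hu : nd x u = R * a) :
    ∃ p ∈ sphereIdx R, nd (gridPt x a p) u ≤ a := by
  -- coordinates of u - x
  obtain ⟨b, hb⟩ : ∃ b : ℤ, b = u.1 - x.1 := ⟨_, rfl⟩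
  obtain ⟨d, hd⟩ : ∃ d : ℤ, d = u.2 - x.2 := ⟨_, rfl⟩
  have hbR : b.natAbs ≤ R * a := by unfold nd at hu; omega
  have hdR : d.natAbs ≤ R * a := by unfold nd at hu; omega
  have ha' : (0:ℤ) < a := by exact_mod_cast ha
  have hRa : ((R * a : ℕ) : ℤ) = R * a := by push_cast; ring
  have key : ∀ e : ℤ, e.natAbs ≤ R * a → -(R:ℤ) ≤ e / a ∧ e / a ≤ R ∧ (e - a * (e / a)).natAbs ≤ a := by
    intro e he
    have h1 : e ≤ R * a := by omega
    have h2 : -(R * a : ℤ) ≤ e := by omega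
    refine ⟨?_, ?_, ?_⟩
    · rw [Int.le_ediv_iff_mul_le ha']; linarith
    · have := Int.ediv_le_ediv ha' h1
      rwa [Int.mul_ediv_cancel _ ha'.ne'] at this
    · have h3 := Int.emod_nonneg e ha'.ne'
      have h4 := Int.emod_lt_of_pos e ha'
      have h5 := Int.emod_def e a
      omega
  have hmax : b.natAbs = R * a ∨ d.natAbs = R * a := by
    unfold nd at hu
    omega
  rcases hmax with h | h
  · -- first coordinate extreme
    obtain ⟨k1, k2, k3⟩ := key d hdR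
    rcases Int.natAbs_eq b with hs | hs
    · refine ⟨((R:ℤ), d / a), ?_, ?_⟩
      · rw [mem_sphereIdx]
        refine ⟨⟨⟨by omega, le_rfl⟩, k1, k2⟩, ?_⟩
        simp only [Int.natAbs_natCast]
        omega
      · unfold nd gridPt
        simp only
        have e1 : x.1 + a * (R:ℤ) - u.1 = 0 := by
          rw [h, hRa] at hs; linarith
        have e2 : x.2 + a * (d / a) - u.2 = -(d - a * (d / a)) := by rw [hd]; ring
        rw [e1, e2, Int.natAbs_neg]
        simpa using k3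
    · refine ⟨(-(R:ℤ), d / a), ?_, ?_⟩
      · rw [mem_sphereIdx]
        refine ⟨⟨⟨le_rfl, by omega⟩, k1, k2⟩, ?_⟩
        simp only [Int.natAbs_neg, Int.natAbs_natCast]
        omega
      · unfold nd gridPt
        simp only
        have e1 : x.1 + a * (-(R:ℤ)) - u.1 = 0 := by
          rw [h, hRa] at hs; linarith
        have e2 : x.2 + a * (d / a) - u.2 = -(d - a * (d / a)) := by rw [hd]; ring
        rw [e1, e2, Int.natAbs_neg]
        simpa using k3
  · obtain ⟨k1, k2, k3⟩ := key b hbR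
    rcases Int.natAbs_eq d with hs | hs
    · refine ⟨(b / a, (R:ℤ)), ?_, ?_⟩
      · rw [mem_sphereIdx]
        refine ⟨⟨⟨k1, k2⟩, by omega, le_rfl⟩, ?_⟩
        simp only [Int.natAbs_natCast]
        omega
      · unfold nd gridPt
        simp only
        have e1 : x.2 + a * (R:ℤ) - u.2 = 0 := by
          rw [h, hRa] at hs; linarith
        have e2 : x.1 + a * (b / a) - u.1 = -(b - a * (b / a)) := by rw [hb]; ring
        rw [e1, e2, Int.natAbs_neg]
        simpa using k3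
    · refine ⟨(b / a, -(R:ℤ)), ?_, ?_⟩
      · rw [mem_sphereIdx]
        refine ⟨⟨⟨k1, k2⟩, le_rfl, by omega⟩, ?_⟩
        simp only [Int.natAbs_neg, Int.natAbs_natCast]
        omega
      · unfold nd gridPt
        simp only
        have e1 : x.2 + a * (-(R:ℤ)) - u.2 = 0 := by
          rw [h, hRa] at hs; linarith
        have e2 : x.1 + a * (b / a) - u.1 = -(b - a * (b / a)) := by rw [hb]; ring
        rw [e1, e2, Int.natAbs_neg]
        simpa using k3

lemma PathIn.shift {S : Set V} {γ : ℕ → V} {n : ℕ} (h : PathIn S γ n) (k : ℕ) (hk : k ≤ n) :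
    PathIn S (fun i => γ (k + i)) (n - k) :=
  ⟨fun i hi => h.1 (k + i) (by omega), fun i hi => h.2 (k + i) (by omega)⟩

lemma PathIn.reverse {S : Set V} {γ : ℕ → V} {n : ℕ} (h : PathIn S γ n) (k : ℕ) (hk : k ≤ n) :
    PathIn S (fun i => γ (k - i)) k := by
  refine ⟨fun i hi => ?_, fun i hi => h.2 (k - i) (by omega)⟩
  have h1 := h.1 (k - (i + 1)) (by omega)
  have h2 : k - (i + 1) + 1 = k - i := by omega
  rw [h2] at h1
  exact h1.symm

/-- The two-scale inclusion. -/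
theorem G_subset {x : V} {a : ℕ} (ha : 1 ≤ a) :
    G x (10 * a) ⊆ Bad x a ∪ ⋃ p ∈ sphereIdx 10, ⋃ q ∈ sphereIdx 80,
      (G (gridPt x a p) a ∩ G (gridPt x a q) a) := by
  intro ω hω
  by_cases hbad : ω ∈ Bad x a
  · exact Or.inl hbad
  right
  obtain ⟨y, z, hy, hz, n, γ, hγ, h0, hn⟩ := hω
  -- covering property
  have hcov : ∀ c : V, ∀ w ∈ occIn (bigBall x (10 * (10 * a))) ω, nd c w ≤ 8 * a + 1 →
      w ∈ occIn (bigBall c (10 * a)) ω := by
    rintro c w ⟨s, H, hs, hω1, hwH⟩ hcw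
    refine ⟨s, H, ?_, hω1, hwH⟩
    have h1 : ¬ (a < nd 0 (w - s)) := by
      intro hlt
      exact hbad ⟨s, H, by simpa [bigBall, ← mul_assoc] using hs, hω1, w - s, hwH, hlt⟩
    have h2 : nd s w = nd 0 (w - s) := by
      have := nd_add_right s (w - s)
      rwa [add_sub_cancel] at this
    have h3 := nd_triangle c w s
    rw [nd_comm w s] at h3
    show nd c s ≤ 10 * a
    omega
  have h0' : nd x (γ 0) ≤ 10 * a := by rw [h0]; exact hy
  have hn' : 8 * (10 * a) < nd x (γ n) := by rw [hn]; exact hz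
  obtain ⟨i1, hi1, hi1'⟩ := path_ivt (c := x) (R := 10 * a) hγ h0' (by omega)
  obtain ⟨i2, hi2, hi2'⟩ := path_ivt (c := x) (R := 80 * a) hγ (by omega) (by omega)
  obtain ⟨p, hp, hpd⟩ := exists_grid ha hi1'
  obtain ⟨q, hq, hqd⟩ := exists_grid ha hi2'
  refine mem_biUnion hp (mem_biUnion hq ⟨?_, ?_⟩)
  · have hg := nd_gridPt (x := x) (a := a) hp
    refine local_crossing (S' := occIn (bigBall (gridPt x a p) (10 * a)) ω)
      (hγ.shift i1 hi1.le) (by simpa using hpd) ?_ (hcov _)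
    have e : i1 + (n - i1) = n := by omega
    simp only [e]
    have := nd_triangle x (gridPt x a p) (γ n)
    omega
  · have hg := nd_gridPt (x := x) (a := a) hq
    refine local_crossing (S' := occIn (bigBall (gridPt x a q) (10 * a)) ω)
      (hγ.reverse i2 hi2.le) (by simpa using hqd) ?_ (hcov _)
    simp only [Nat.sub_self]
    have h1 := nd_triangle x (γ 0) (gridPt x a q)
    have h2 := nd_comm (γ 0) (gridPt x a q)
    omega

/-- If `x` is connected to a point at distance more than `8a` in the occupied set, then either the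
local crossing event or the far event occurs. -/
theorem conn_subset {x z : V} {a : ℕ} {ω : V × Finset V → ℕ} (hz : 8 * a < nd x z)
    (hc : Conn (occupied ω) x z) : ω ∈ G x a ∪ Far x a := by
  by_cases hfar : ω ∈ Far x a
  · exact Or.inr hfar
  left
  obtain ⟨n, γ, hγ, h0, hn⟩ := hc
  refine local_crossing (S' := occIn (bigBall x (10 * a)) ω) hγ (by rw [h0, nd_self]; omega)
    (by rw [hn]; exact hz) ?_
  rintro w ⟨s, H, hω1, hwH⟩ hw
  refine ⟨s, H, ?_, hω1, hwH⟩
  by_contra hcon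
  simp only [bigBall, mem_ofPred_eq, not_le] at hcon
  exact hfar ⟨s, H, hcon, hω1, w - s, hwH, by rwa [add_sub_cancel]⟩

end Pool.Agent.Helper96.Worm
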