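import Mathlib
import Pool.Agent.Helper96.WormGeom

set_option autoImplicit false
open MeasureTheory ProbabilityTheory Set Filter Topology
open scoped NNReal ENNReal

namespace Pool.Agent.Helper96.Worm

lemma poisson_ge_one (r : ℝ≥0) : poissonMeasure r {n | 1 ≤ n} ≤ r := by
  have h : {n : ℕ | 1 ≤ n} = {0}ᶜ := by
    ext n; simp only [mem_ofPred_eq, mem_compl_iff, mem_singleton_iff]; omega
  rw [h, prob_compl_eq_one_sub (measurableSet_singleton 0), poissonMeasure_singleton]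
  simp only [pow_zero, mul_one, Nat.factorial_zero, Nat.cast_one, div_one]
  rw [← ENNReal.ofReal_one, ← ENNReal.ofReal_sub _ (Real.exp_pos _).le]
  rw [← ENNReal.ofReal_coe_nnreal]
  apply ENNReal.ofReal_le_ofReal
  have := Real.add_one_le_exp (-(r:ℝ))
  linarith

variable (ν : PMF (Finset V)) (v : ℝ≥0)

instance : IsProbabilityMeasure (zooLaw ν v) := by unfold zooLaw; infer_instance

lemma zoo_coord (i : V × Finset V) : zooLaw ν v {ω | 1 ≤ ω i} ≤ v * ν i.2 := by
  have h1 : zooLaw ν v {ω | 1 ≤ ω i} = poissonMeasure (v * (ν i.2).toNNReal) {n | 1 ≤ n} := by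
    have h2 : {ω : V × Finset V → ℕ | 1 ≤ ω i} = (fun ω => ω i) ⁻¹' {n | 1 ≤ n} := rfl
    rw [h2, ← Measure.map_apply (measurable_pi_apply i) (MeasurableSet.of_discrete)]
    unfold zooLaw
    rw [Measure.infinitePi_map_eval]
  rw [h1]
  refine (poisson_ge_one _).trans ?_
  rw [ENNReal.coe_mul, ENNReal.coe_toNNReal (ν.apply_ne_top _)]

lemma zoo_union_le (c : V × Finset V → Prop) [DecidablePred c] :
    zooLaw ν v {ω | ∃ i, c i ∧ 1 ≤ ω i} ≤ ∑' i, if c i then v * ν i.2 else 0 := by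
  have h : {ω : V × Finset V → ℕ | ∃ i, c i ∧ 1 ≤ ω i} =
      ⋃ i, (if c i then {ω | 1 ≤ ω i} else ∅) := by
    ext ω
    simp only [mem_ofPred_eq, mem_iUnion]
    constructor
    · rintro ⟨i, hi, hω⟩
      exact ⟨i, by rw [if_pos hi]; exact hω⟩
    · rintro ⟨i, hi⟩
      by_cases hc : c i
      · rw [if_pos hc] at hi; exact ⟨i, hc, hi⟩
      · rw [if_neg hc] at hi; exact absurd hi (notMem_empty _)
  rw [h]
  refine (measure_iUnion_le _).trans (ENNReal.tsum_le_tsum fun i => ?_)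
  split_ifs
  · exact zoo_coord ν v i
  · simp

/-- finite ball -/
noncomputable def ballF (x : V) (r : ℕ) : Finset V :=
  Finset.Icc (x.1 - r) (x.1 + r) ×ˢ Finset.Icc (x.2 - r) (x.2 + r)

lemma mem_ballF {x : V} {r : ℕ} {s : V} : s ∈ ballF x r ↔ nd x s ≤ r := by
  unfold ballF nd
  simp only [Finset.mem_product, Finset.mem_Icc]
  omega

lemma card_ballF (x : V) (r : ℕ) : (ballF x r).card = (2 * r + 1) ^ 2 := by
  unfold ballF
  rw [Finset.card_product, Int.card_Icc, Int.card_Icc]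
  have h1 : (x.1 + r + 1 - (x.1 - r)).toNat = 2 * r + 1 := by omega
  have h2 : (x.2 + r + 1 - (x.2 - r)).toNat = 2 * r + 1 := by omega
  rw [h1, h2]; ring

attribute [irreducible] ballF

lemma tsum_ball (x : V) (r : ℕ) (c : ℝ≥0∞) :
    ∑' s : V, (if nd x s ≤ r then c else 0) = (2 * r + 1) ^ 2 * c := by
  have h : ∀ s : V, (if nd x s ≤ r then c else 0) = (ballF x r : Set V).indicator (fun _ => c) s := by
    intro s
    by_cases hs : nd x s ≤ r
    · rw [if_pos hs, indicator_of_mem]; exact_mod_cast mem_ballF.2 hs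
    · rw [if_neg hs, indicator_of_notMem]
      intro h'; exact hs (mem_ballF.1 (by exact_mod_cast h'))
  simp_rw [h]
  rw [← tsum_subtype, Finset.tsum_subtype' (ballF x r) (fun _ => c), Finset.sum_const, card_ballF,
    nsmul_eq_mul]
  push_cast
  ring

/-- `ν`-probability that the trace leaves the ball of radius `a`. -/
noncomputable def hBad (a : ℕ) : ℝ≥0∞ := ν.toOuterMeasure {H | ∃ h ∈ H, a < nd 0 h}

/-- expected number of far starting points whose trace comes close to the origin -/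
noncomputable def tFar (a : ℕ) : ℝ≥0∞ :=
  ∑' s : V, if 10 * a < nd 0 s then ν.toOuterMeasure {H | ∃ h ∈ H, nd 0 (s + h) ≤ 8 * a + 1} else 0

lemma prob_Bad (x : V) (a : ℕ) :
    zooLaw ν v (Bad x a) ≤ v * ((2 * (100 * a : ℕ) + 1) ^ 2 * hBad ν a) := by
  classical
  have h : Bad x a = {ω | ∃ i : V × Finset V, (nd x i.1 ≤ 100 * a ∧ ∃ h ∈ i.2, a < nd 0 h) ∧ 1 ≤ ω i} := by
    ext ω
    constructor
    · rintro ⟨s, H, h1, h2, h3⟩; exact ⟨(s, H), ⟨h1, h3⟩, h2⟩
    · rintro ⟨⟨s, H⟩, ⟨h1, h3⟩, h2⟩; exact ⟨s, H, h1, h2, h3⟩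
  rw [h]
  refine (zoo_union_le ν v _).trans ?_
  rw [ENNReal.tsum_prod']
  have h2 : ∀ s : V, (∑' H : Finset V, if (nd x s ≤ 100 * a ∧ ∃ h ∈ H, a < nd 0 h) then v * ν H else 0) =
      if nd x s ≤ 100 * a then v * hBad ν a else 0 := by
    intro s
    by_cases hs : nd x s ≤ 100 * a
    · rw [if_pos hs]
      unfold hBad
      rw [PMF.toOuterMeasure_apply, ← ENNReal.tsum_mul_left]
      congr 1; ext H
      by_cases hH : ∃ h ∈ H, a < nd 0 h
      · rw [if_pos ⟨hs, hH⟩, indicator_of_mem (by exact hH)]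
      · rw [if_neg (fun h' => hH h'.2), indicator_of_notMem (by exact hH), mul_zero]
    · rw [if_neg hs]
      simp [hs]
  simp only at h2 ⊢
  simp_rw [h2]
  rw [tsum_ball]
  apply le_of_eq
  ring

lemma prob_Far (x : V) (a : ℕ) : zooLaw ν v (Far x a) ≤ v * tFar ν a := by
  classical
  have h : Far x a = {ω | ∃ i : V × Finset V,
      (10 * a < nd x i.1 ∧ ∃ h ∈ i.2, nd x (i.1 + h) ≤ 8 * a + 1) ∧ 1 ≤ ω i} := by
    ext ω
    constructor
    · rintro ⟨s, H, h1, h2, h3⟩; exact ⟨(s, H), ⟨h1, h3⟩, h2⟩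
    · rintro ⟨⟨s, H⟩, ⟨h1, h3⟩, h2⟩; exact ⟨s, H, h1, h2, h3⟩
  rw [h]
  refine (zoo_union_le ν v _).trans ?_
  rw [ENNReal.tsum_prod']
  unfold tFar
  rw [← ENNReal.tsum_mul_left, ← (Equiv.addLeft x).tsum_eq]
  apply le_of_eq
  congr 1; ext s
  simp only [Equiv.coe_addLeft]
  have e1 : nd x (x + s) = nd 0 s := nd_add_right x s
  have e2 : ∀ h, nd x (x + s + h) = nd 0 (s + h) := by
    intro h; rw [add_assoc]; exact nd_add_right x (s + h)
  simp only [e1, e2]
  by_cases hs : 10 * a < nd 0 s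
  · rw [if_pos hs, PMF.toOuterMeasure_apply, ← ENNReal.tsum_mul_left]
    congr 1; ext H
    by_cases hH : ∃ h ∈ H, nd 0 (s + h) ≤ 8 * a + 1
    · rw [if_pos ⟨hs, hH⟩, indicator_of_mem (by exact hH)]
    · rw [if_neg (fun h' => hH h'.2), indicator_of_notMem (by exact hH), mul_zero]
  · rw [if_neg hs]
    simp [hs]

/-! ### independence -/

/-- sigma-algebra of the worms started in `R` -/
@[reducible] def sig (R : Set V) : MeasurableSpace (V × Finset V → ℕ) :=
  ⨆ i ∈ {i : V × Finset V | i.1 ∈ R}, MeasurableSpace.comap (fun ω => ω i) inferInstance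

lemma coord_le_sig {R : Set V} {i : V × Finset V} (hi : i.1 ∈ R) (A : Set ℕ) :
    MeasurableSet[sig R] {ω : V × Finset V → ℕ | ω i ∈ A} := by
  have h1 : MeasurableSpace.comap (fun ω : V × Finset V → ℕ => ω i) inferInstance ≤ sig R :=
    le_iSup₂_of_le i hi le_rfl
  exact h1 _ ⟨A, MeasurableSet.of_discrete, rfl⟩

lemma measurableSet_occIn (R : Set V) (z : V) :
    MeasurableSet[sig R] {ω : V × Finset V → ℕ | z ∈ occIn R ω} := by
  classical
  have h : {ω : V × Finset V → ℕ | z ∈ occIn R ω} =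
      ⋃ i ∈ {i : V × Finset V | i.1 ∈ R ∧ z - i.1 ∈ i.2}, {ω | ω i ∈ {n : ℕ | 1 ≤ n}} := by
    ext ω
    simp only [mem_ofPred_eq, mem_iUnion, occIn, exists_prop]
    constructor
    · rintro ⟨x, H, h1, h2, h3⟩; exact ⟨(x, H), ⟨h1, h3⟩, h2⟩
    · rintro ⟨⟨x, H⟩, ⟨h1, h3⟩, h2⟩; exact ⟨x, H, h1, h2, h3⟩
  rw [h]
  exact MeasurableSet.biUnion (to_countable _) fun i hi => coord_le_sig hi.1 _

lemma conn_iff {S : Set V} {y z : V} : Conn S y z ↔ ∃ n : ℕ, ∃ γ : Fin (n + 1) → V,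
    ((∀ i : Fin n, latticeGraph.Adj (γ i.castSucc) (γ i.succ)) ∧ γ 0 = y ∧ γ (Fin.last n) = z) ∧
      ∀ i, γ i ∈ S := by
  constructor
  · rintro ⟨n, γ, hγ, h0, hn⟩
    refine ⟨n, fun i => γ i, ⟨fun i => ?_, h0, hn⟩, fun i => hγ.2 i (by omega)⟩
    simpa using hγ.1 i i.2
  · rintro ⟨n, γ, ⟨hadj, h0, hn⟩, hS⟩
    refine ⟨n, fun i => γ (Fin.ofNat (n + 1) (min i n)), ⟨fun i hi => ?_, fun i hi => hS _⟩, ?_, ?_⟩
    · have h1 := hadj ⟨i, hi⟩
      have e1 : (Fin.castSucc ⟨i, hi⟩ : Fin (n + 1)) = Fin.ofNat (n + 1) (min i n) := by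
        ext; simp [Fin.ofNat, Nat.min_eq_left hi.le, Nat.mod_eq_of_lt (show i < n + 1 by omega)]
      have e2 : (Fin.succ ⟨i, hi⟩ : Fin (n + 1)) = Fin.ofNat (n + 1) (min (i + 1) n) := by
        ext
        simp [Fin.ofNat, Nat.min_eq_left (show i + 1 ≤ n by omega),
          Nat.mod_eq_of_lt (show i + 1 < n + 1 by omega)]
      rw [e1, e2] at h1
      exact h1
    · have e : Fin.ofNat (n + 1) (min 0 n) = 0 := by ext; simp [Fin.ofNat]
      simp only [e, h0]
    · have e : Fin.ofNat (n + 1) (min n n) = Fin.last n := by ext; simp [Fin.ofNat]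
      simp only [e, hn]

lemma measurableSet_conn (R : Set V) (y z : V) :
    MeasurableSet[sig R] {ω : V × Finset V → ℕ | Conn (occIn R ω) y z} := by
  have h : {ω : V × Finset V → ℕ | Conn (occIn R ω) y z} =
      ⋃ n : ℕ, ⋃ γ ∈ {γ : Fin (n + 1) → V |
        (∀ i : Fin n, latticeGraph.Adj (γ i.castSucc) (γ i.succ)) ∧ γ 0 = y ∧ γ (Fin.last n) = z},
        ⋂ i, {ω | γ i ∈ occIn R ω} := by
    ext ω
    simp only [mem_ofPred_eq, mem_iUnion, mem_iInter, conn_iff, exists_prop]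
  rw [h]
  refine MeasurableSet.iUnion fun n => MeasurableSet.biUnion (to_countable _) fun γ _ => ?_
  exact MeasurableSet.iInter fun i => measurableSet_occIn R _

lemma measurableSet_G (x : V) (a : ℕ) : MeasurableSet[sig (bigBall x (10 * a))] (G x a) := by
  have h : G x a = ⋃ y ∈ {y : V | nd x y ≤ a}, ⋃ z ∈ {z : V | 8 * a < nd x z},
      {ω | Conn (occIn (bigBall x (10 * a)) ω) y z} := by
    ext ω
    simp only [G, mem_ofPred_eq, mem_iUnion, exists_prop]
    constructor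
    · rintro ⟨y, z, h1, h2, h3⟩; exact ⟨y, h1, z, h2, h3⟩
    · rintro ⟨y, h1, z, h2, h3⟩; exact ⟨y, z, h1, h2, h3⟩
  rw [h]
  exact MeasurableSet.biUnion (to_countable _) fun y _ =>
    MeasurableSet.biUnion (to_countable _) fun z _ => measurableSet_conn _ y z

lemma indep_G {k l : V} {a : ℕ} (hkl : 20 * a < nd k l) :
    zooLaw ν v (G k a ∩ G l a) = zooLaw ν v (G k a) * zooLaw ν v (G l a) := by
  have hind : iIndep (fun i : V × Finset V =>
      MeasurableSpace.comap (fun ω : V × Finset V → ℕ => ω i) inferInstance) (zooLaw ν v) := by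
    have h := iIndepFun_infinitePi (P := fun i : V × Finset V =>
      poissonMeasure (v * (ν i.2).toNNReal)) (X := fun _ : V × Finset V => (id : ℕ → ℕ))
      (fun _ => measurable_id)
    exact (iIndepFun_iff_iIndep _ _ _).1 h
  have hle : ∀ i : V × Finset V,
      MeasurableSpace.comap (fun ω : V × Finset V → ℕ => ω i) inferInstance ≤
        (inferInstance : MeasurableSpace (V × Finset V → ℕ)) := fun i =>
    (measurable_pi_apply i).comap_le
  have hdisj : Disjoint {i : V × Finset V | i.1 ∈ bigBall k (10 * a)}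
      {i : V × Finset V | i.1 ∈ bigBall l (10 * a)} := by
    rw [Set.disjoint_left]
    rintro ⟨s, H⟩ h1 h2
    simp only [bigBall, mem_ofPred_eq] at h1 h2
    have := nd_triangle k s l
    rw [nd_comm s l] at this
    omega
  have h := indep_iSup_of_disjoint hle hind hdisj
  exact (Indep_iff _ _ _).1 h (G k a) (G l a) (measurableSet_G k a) (measurableSet_G l a)

/-- supremum over the centre of the crossing probability -/
noncomputable def piG (a : ℕ) : ℝ≥0∞ := ⨆ x : V, zooLaw ν v (G x a)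

lemma piG_le_one (a : ℕ) : piG ν v a ≤ 1 := iSup_le fun _ => prob_le_one

lemma piG_rec {a : ℕ} (ha : 1 ≤ a) :
    piG ν v (10 * a) ≤ ((sphereIdx 10).card * (sphereIdx 80).card : ℕ) * (piG ν v a) ^ 2 +
      v * ((2 * (100 * a : ℕ) + 1) ^ 2 * hBad ν a) := by
  refine iSup_le fun x => ?_
  calc zooLaw ν v (G x (10 * a))
      ≤ zooLaw ν v (Bad x a ∪ ⋃ p ∈ sphereIdx 10, ⋃ q ∈ sphereIdx 80,
          (G (gridPt x a p) a ∩ G (gridPt x a q) a)) := measure_mono (G_subset ha)
    _ ≤ zooLaw ν v (Bad x a) + zooLaw ν v (⋃ p ∈ sphereIdx 10, ⋃ q ∈ sphereIdx 80,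
          (G (gridPt x a p) a ∩ G (gridPt x a q) a)) := measure_union_le _ _
    _ ≤ v * ((2 * (100 * a : ℕ) + 1) ^ 2 * hBad ν a) +
        ∑ p ∈ sphereIdx 10, ∑ q ∈ sphereIdx 80, (piG ν v a) ^ 2 := by
        refine add_le_add (prob_Bad ν v x a) ?_
        refine (measure_biUnion_finset_le _ _).trans (Finset.sum_le_sum fun p hp => ?_)
        refine (measure_biUnion_finset_le _ _).trans (Finset.sum_le_sum fun q hq => ?_)
        rw [indep_G ν v, sq]
        · exact mul_le_mul' (le_iSup (fun x => zooLaw ν v (G x a)) _)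
            (le_iSup (fun x => zooLaw ν v (G x a)) _)
        · have h1 := nd_gridPt (x := x) (a := a) hp
          have h2 := nd_gridPt (x := x) (a := a) hq
          have h3 := nd_triangle x (gridPt x a p) (gridPt x a q)
          omega
    _ = _ := by
        rw [Finset.sum_const, Finset.sum_const, nsmul_eq_mul, nsmul_eq_mul, add_comm]
        push_cast
        ring

lemma piG_zero : piG ν v 1 ≤ v * 441 := by
  classical
  refine iSup_le fun x => ?_
  have h : G x 1 ⊆ {ω | ∃ i : V × Finset V, (nd x i.1 ≤ 10) ∧ 1 ≤ ω i} := by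
    rintro ω ⟨y, z, -, -, n, γ, hγ, -, -⟩
    obtain ⟨s, H, hs, hω, -⟩ := hγ.2 0 (Nat.zero_le _)
    exact ⟨(s, H), hs, hω⟩
  refine (measure_mono h).trans ((zoo_union_le ν v _).trans ?_)
  rw [ENNReal.tsum_prod']
  have h2 : ∀ s : V, (∑' H : Finset V, if nd x s ≤ 10 then v * ν H else 0) =
      if nd x s ≤ 10 then (v : ℝ≥0∞) else 0 := by
    intro s
    by_cases hs : nd x s ≤ 10
    · simp only [if_pos hs]
      rw [ENNReal.tsum_mul_left, ν.tsum_coe, mul_one]
    · simp only [if_neg hs, tsum_zero]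
  simp only at h2 ⊢
  simp_rw [h2]
  rw [tsum_ball]
  apply le_of_eq
  norm_num
  ring

/-- real-analysis lemma for the recursion -/
lemma rec_tendsto {f g : ℕ → ℝ} {C δ : ℝ} (hf : ∀ k, 0 ≤ f k) (hC : 0 ≤ C)
    (hCδ : C * δ ≤ 1/2) (hδ : 0 < δ) (h0 : f 0 ≤ δ) (hrec : ∀ k, f (k + 1) ≤ C * f k ^ 2 + g k)
    (hg : ∀ k, g k ≤ δ / 2) (hg0 : Tendsto g atTop (𝓝 0)) : Tendsto f atTop (𝓝 0) := by
  have hle : ∀ k, f k ≤ δ := by
    intro k
    induction k with
    | zero => exact h0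
    | succ k ih =>
      have h1 := hrec k
      have h2 := hg k
      have h3 := hf k
      have h4 : C * f k ^ 2 ≤ δ / 2 := by
        calc C * f k ^ 2 ≤ C * δ ^ 2 := by gcongr
          _ = (C * δ) * δ := by ring
          _ ≤ 1/2 * δ := by gcongr
          _ = δ / 2 := by ring
      linarith
  have hrec2 : ∀ k, f (k + 1) ≤ f k / 2 + g k := by
    intro k
    have h1 := hrec k
    have h3 := hf k
    have h4 : C * f k ^ 2 ≤ f k / 2 := by
      calc C * f k ^ 2 = (C * f k) * f k := by ring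
        _ ≤ (C * δ) * f k := by gcongr; exact hle k
        _ ≤ 1/2 * f k := by gcongr
        _ = f k / 2 := by ring
    linarith
  rw [Metric.tendsto_atTop] at hg0 ⊢
  intro ε hε
  obtain ⟨K, hK⟩ := hg0 (ε / 4) (by positivity)
  have hind : ∀ n, f (K + n) ≤ (1/2) ^ n * δ + ε / 2 := by
    intro n
    induction n with
    | zero =>
      have := hle K
      simp only [add_zero, pow_zero, one_mul]
      linarith
    | succ n ih =>
      have h1 := hrec2 (K + n)
      have h2 := hK (K + n) (by omega)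
      rw [Real.dist_eq, sub_zero] at h2
      have h3 := (abs_lt.1 h2).2
      have e : K + (n + 1) = K + n + 1 := by ring
      rw [e, pow_succ]
      linarith
  have hpow : Tendsto (fun n : ℕ => ((1:ℝ)/2) ^ n * δ) atTop (𝓝 (0 * δ)) :=
    (tendsto_pow_atTop_nhds_zero_of_lt_one (by norm_num) (by norm_num)).mul_const δ
  rw [zero_mul, Metric.tendsto_atTop] at hpow
  obtain ⟨N, hN⟩ := hpow (ε / 2) (by positivity)
  refine ⟨K + N, fun n hn => ?_⟩
  obtain ⟨m, rfl⟩ : ∃ m, n = K + m := ⟨n - K, by omega⟩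
  have h1 := hind m
  have h2 := hN m (by omega)
  rw [Real.dist_eq, sub_zero, abs_of_nonneg (by positivity)] at h2
  rw [Real.dist_eq, sub_zero, abs_of_nonneg (hf _)]
  linarith

/-- `x` lies in an infinite component -/
lemma exists_far_conn {S : Set V} (c : (latticeGraph.induce S).ConnectedComponent)
    (hc : c.supp.Infinite) : ∃ x : V, ∀ R : ℕ, ∃ z : V, R < nd x z ∧ Conn S x z := by
  obtain ⟨x, hx⟩ := hc.nonempty
  refine ⟨x, fun R => ?_⟩
  -- infinitely many points cannot all be in the ball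
  have hfin : {z : S | nd x z ≤ R}.Finite := by
    have h1 : {z : V | nd x z ≤ R}.Finite := by
      refine (ballF (x : V) R).finite_toSet.subset ?_
      intro z hz
      exact_mod_cast mem_ballF.2 hz
    exact h1.preimage Subtype.val_injective.injOn
  obtain ⟨z, hz1, hz2⟩ := (hc.sdiff hfin).nonempty
  simp only [mem_ofPred_eq, not_le] at hz2
  refine ⟨z, hz2, ?_⟩
  rw [SimpleGraph.ConnectedComponent.mem_supp_iff] at hx hz1
  rw [← hz1, SimpleGraph.ConnectedComponent.eq] at hx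
  obtain ⟨p⟩ := hx
  refine ⟨p.length, fun i => (p.getVert i : V), ⟨fun i hi => ?_, fun i _ => (p.getVert i).2⟩, ?_, ?_⟩
  · exact p.adj_getVert_succ hi
  · simp
  · simp

/-- Abstract non-percolation criterion. -/
theorem no_percolation (K : ℝ≥0) (hK : ∀ j : ℕ, (100:ℝ≥0∞) ^ j * hBad ν (10 ^ j) ≤ K)
    (hB : Tendsto (fun j : ℕ => (100:ℝ≥0∞) ^ j * hBad ν (10 ^ j)) atTop (𝓝 0))
    (hT : Tendsto (fun j : ℕ => tFar ν (10 ^ j)) atTop (𝓝 0)) :
    ∃ v0 : ℝ≥0, 0 < v0 ∧ ∀ v ≤ v0, zooLaw ν v {ω | Percolates (occupied ω)} = 0 := by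
  set C : ℝ := (((sphereIdx 10).card * (sphereIdx 80).card : ℕ) : ℝ) with hC
  have hC0 : 0 ≤ C := by positivity
  set δ : ℝ := 1 / (2 * (C + 1)) with hδdef
  have hδ : 0 < δ := by positivity
  have hCδ : C * δ ≤ 1/2 := by
    rw [hδdef]
    rw [mul_one_div, div_le_div_iff₀ (by positivity) (by norm_num)]
    linarith
  have hv0 : ∃ v0 : ℝ≥0, 0 < v0 ∧ (v0 : ℝ) * 441 ≤ δ ∧ (v0 : ℝ) * (40401 * K) ≤ δ / 2 := by
    have hKnn : 0 ≤ (K : ℝ) := K.2
    have hr : 0 < δ / (441 + 80802 * ((K : ℝ) + 1)) := by positivity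
    refine ⟨(δ / (441 + 80802 * ((K : ℝ) + 1))).toNNReal, Real.toNNReal_pos.2 hr, ?_, ?_⟩
    · rw [Real.coe_toNNReal _ hr.le, div_mul_eq_mul_div, div_le_iff₀ (by positivity)]
      nlinarith
    · rw [Real.coe_toNNReal _ hr.le, div_mul_eq_mul_div, div_le_iff₀ (by positivity)]
      nlinarith
  obtain ⟨v0, hv0pos, hv1, hv2⟩ := hv0
  refine ⟨v0, hv0pos, fun v hv => ?_⟩
  have hvR : (v : ℝ) ≤ v0 := by exact_mod_cast hv
  -- the recursion in real numbers
  have hmain : Tendsto (fun j : ℕ => piG ν v (10 ^ j)) atTop (𝓝 0) := by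
    have hne : ∀ j : ℕ, piG ν v (10 ^ j) ≠ ∞ := fun j =>
      ne_top_of_le_ne_top ENNReal.one_ne_top (piG_le_one ν v _)
    have hhne : ∀ j : ℕ, (100:ℝ≥0∞) ^ j * hBad ν (10 ^ j) ≠ ∞ := fun j =>
      ne_top_of_le_ne_top ENNReal.coe_ne_top (hK j)
    have hreal : Tendsto (fun j : ℕ => (piG ν v (10 ^ j)).toReal) atTop (𝓝 0) := by
      refine rec_tendsto (g := fun j => (v : ℝ) * (40401 * ((100:ℝ≥0∞) ^ j * hBad ν (10 ^ j)).toReal))
        (C := C) (δ := δ) (fun k => ENNReal.toReal_nonneg) hC0 hCδ hδ ?_ ?_ ?_ ?_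
      · have h1 := piG_zero ν v
        have h2 := ENNReal.toReal_mono (by finiteness) h1
        rw [ENNReal.toReal_mul] at h2
        simp only [ENNReal.coe_toReal, ENNReal.toReal_ofNat] at h2
        simp only [pow_zero]
        linarith
      · intro k
        have h1 := piG_rec ν v (a := 10 ^ k) (Nat.one_le_pow _ _ (by norm_num))
        have h2 : v * ((2 * ((100 * 10 ^ k : ℕ) : ℝ≥0∞) + 1) ^ 2 * hBad ν (10 ^ k)) ≤
            v * (40401 * ((100:ℝ≥0∞) ^ k * hBad ν (10 ^ k))) := by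
          have h3 : (2 * (100 * 10 ^ k) + 1) ^ 2 ≤ 40401 * 100 ^ k := by
            have h4 : 1 ≤ 10 ^ k := Nat.one_le_pow _ _ (by norm_num)
            calc (2 * (100 * 10 ^ k) + 1) ^ 2 ≤ (201 * 10 ^ k) ^ 2 := by gcongr; omega
              _ = 40401 * 100 ^ k := by
                rw [mul_pow, ← pow_mul, mul_comm k 2, pow_mul]; norm_num
          have h3' : (2 * ((100 * 10 ^ k : ℕ) : ℝ≥0∞) + 1) ^ 2 ≤ 40401 * 100 ^ k := by
            exact_mod_cast h3
          calc v * ((2 * ((100 * 10 ^ k : ℕ) : ℝ≥0∞) + 1) ^ 2 * hBad ν (10 ^ k))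
              ≤ v * ((40401 * 100 ^ k) * hBad ν (10 ^ k)) := by gcongr
            _ = v * (40401 * ((100:ℝ≥0∞) ^ k * hBad ν (10 ^ k))) := by ring
        have h5 := h1.trans (add_le_add_right h2 _)
        have e : 10 * 10 ^ k = 10 ^ (k + 1) := by ring
        rw [e] at h5
        have h6 := ENNReal.toReal_mono (by
          refine ENNReal.add_ne_top.2 ⟨?_, ?_⟩
          · exact ENNReal.mul_ne_top (ENNReal.natCast_ne_top _) (ENNReal.pow_ne_top (hne k))
          · exact ENNReal.mul_ne_top ENNReal.coe_ne_top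
              (ENNReal.mul_ne_top (by norm_num) (hhne k))) h5
        rw [ENNReal.toReal_add (ENNReal.mul_ne_top (ENNReal.natCast_ne_top _)
          (ENNReal.pow_ne_top (hne k))) (ENNReal.mul_ne_top ENNReal.coe_ne_top
              (ENNReal.mul_ne_top (by norm_num) (hhne k))), ENNReal.toReal_mul,
          ENNReal.toReal_natCast, ENNReal.toReal_pow, ENNReal.toReal_mul (a := (v : ℝ≥0∞)),
          ENNReal.toReal_mul (a := 40401), ENNReal.coe_toReal, ENNReal.toReal_ofNat] at h6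
        exact h6
      · intro k
        have h1 : ((100:ℝ≥0∞) ^ k * hBad ν (10 ^ k)).toReal ≤ K := by
          have := ENNReal.toReal_mono ENNReal.coe_ne_top (hK k)
          simpa using this
        have h2 : 0 ≤ ((100:ℝ≥0∞) ^ k * hBad ν (10 ^ k)).toReal := ENNReal.toReal_nonneg
        calc (v:ℝ) * (40401 * ((100:ℝ≥0∞) ^ k * hBad ν (10 ^ k)).toReal) ≤ v0 * (40401 * K) := by
              gcongr
          _ ≤ δ / 2 := hv2
      · have h1 : Tendsto (fun j : ℕ => ((100:ℝ≥0∞) ^ j * hBad ν (10 ^ j)).toReal) atTop (𝓝 0) := by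
          have := (ENNReal.tendsto_toReal ENNReal.zero_ne_top).comp hB
          rw [ENNReal.toReal_zero] at this
          exact this
        have h2 := (h1.const_mul (40401:ℝ)).const_mul (v : ℝ)
        simpa using h2
    have h1 := ENNReal.tendsto_ofReal hreal
    simp only [ENNReal.ofReal_zero] at h1
    refine h1.congr fun j => ENNReal.ofReal_toReal (hne j)
  -- a fixed vertex is a.s. not in an infinite component
  have hx : ∀ x : V, zooLaw ν v {ω | ∀ R : ℕ, ∃ z : V, R < nd x z ∧ Conn (occupied ω) x z} = 0 := by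
    intro x
    have hle : ∀ j : ℕ, zooLaw ν v {ω | ∀ R : ℕ, ∃ z : V, R < nd x z ∧ Conn (occupied ω) x z} ≤
        piG ν v (10 ^ j) + v * tFar ν (10 ^ j) := by
      intro j
      have hsub : {ω | ∀ R : ℕ, ∃ z : V, R < nd x z ∧ Conn (occupied ω) x z} ⊆
          G x (10 ^ j) ∪ Far x (10 ^ j) := by
        intro ω hω
        obtain ⟨z, hz, hc⟩ := hω (8 * 10 ^ j)
        exact conn_subset hz hc
      refine (measure_mono hsub).trans ((measure_union_le _ _).trans ?_)
      exact add_le_add (le_iSup (fun x => zooLaw ν v (G x (10 ^ j))) x) (prob_Far ν v x _)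
    have hlim : Tendsto (fun j : ℕ => piG ν v (10 ^ j) + v * tFar ν (10 ^ j)) atTop (𝓝 (0 + v * 0)) := by
      refine hmain.add ?_
      exact ENNReal.Tendsto.const_mul hT (Or.inr ENNReal.coe_ne_top)
    rw [mul_zero, add_zero] at hlim
    exact le_antisymm (ge_of_tendsto' hlim hle) bot_le
  refine measure_mono_null ?_ (measure_iUnion_null hx)
  rintro ω ⟨c, hc⟩
  obtain ⟨x, hx⟩ := exists_far_conn c hc
  exact mem_iUnion.2 ⟨x, hx⟩

end Pool.Agent.Helper96.Worm
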