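import Mathlib
import Pool.Agent.Helper96.WormProb

set_option autoImplicit false
open MeasureTheory ProbabilityTheory Set Filter Topology
open scoped NNReal ENNReal

namespace Pool.Agent.Helper96.Worm

/-- uniform probability on step sequences -/
noncomputable def pr (l : ℕ) (E : Set (Fin l → Fin 4)) : ℝ≥0∞ :=
  (PMF.uniformOfFintype (Fin l → Fin 4)).toOuterMeasure E

lemma pr_le_one (l : ℕ) (E : Set (Fin l → Fin 4)) : pr l E ≤ 1 := by
  unfold pr
  rw [PMF.toOuterMeasure_apply]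
  calc ∑' x, E.indicator (PMF.uniformOfFintype (Fin l → Fin 4)) x
      ≤ ∑' x, (PMF.uniformOfFintype (Fin l → Fin 4)) x :=
        ENNReal.tsum_le_tsum fun x => indicator_le_self _ _ _
    _ = 1 := PMF.tsum_coe _

lemma pr_univ (l : ℕ) : pr l univ = 1 := by
  unfold pr
  rw [PMF.toOuterMeasure_apply, indicator_univ, PMF.tsum_coe]

lemma pr_empty (l : ℕ) : pr l ∅ = 0 := by
  unfold pr; simp

lemma pr_mono {l : ℕ} {E F : Set (Fin l → Fin 4)} (h : E ⊆ F) : pr l E ≤ pr l F := by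
  unfold pr; exact measure_mono h

lemma pr_succ (l : ℕ) (E : Set (Fin (l + 1) → Fin 4)) :
    pr (l + 1) E = (∑ e : Fin 4, pr l {w | (Fin.cons e w : Fin (l + 1) → Fin 4) ∈ E}) / 4 := by
  classical
  unfold pr
  simp only [PMF.toOuterMeasure_apply_fintype]
  rw [← (Fin.consEquiv (fun _ : Fin (l + 1) => Fin 4)).sum_comp, Fintype.sum_prod_type,
    ENNReal.div_eq_inv_mul, Finset.mul_sum]
  refine Finset.sum_congr rfl fun e _ => ?_
  rw [Finset.mul_sum]
  refine Finset.sum_congr rfl fun w _ => ?_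
  have hcons : (Fin.consEquiv (fun _ : Fin (l + 1) => Fin 4)) (e, w) = Fin.cons e w := rfl
  rw [hcons]
  simp only [indicator, PMF.uniformOfFintype_apply, mem_ofPred_eq,
    Fintype.card_pi, Finset.prod_const, Finset.card_univ, Fintype.card_fin]
  split_ifs
  · push_cast
    rw [pow_succ, ENNReal.mul_inv (Or.inr (by norm_num)) (Or.inr (by norm_num)), mul_comm]
  · simp

lemma pos_zero {l : ℕ} (w : Fin l → Fin 4) : pos w 0 = 0 := by
  unfold pos; simp

lemma pos_cons {l : ℕ} (e : Fin 4) (w : Fin l → Fin 4) (t : ℕ) :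
    pos (Fin.cons e w : Fin (l + 1) → Fin 4) (t + 1) = step e + pos w t := by
  unfold pos
  rw [Fin.sum_univ_succ]
  simp

lemma mem_trace {l : ℕ} {w : Fin l → Fin 4} {z : V} : z ∈ trace w ↔ ∃ t ≤ l, pos w t = z := by
  unfold trace
  simp [Nat.lt_succ_iff]

/-- probability that the trace hits the set `{P}` -/
noncomputable def hitP (l : ℕ) (P : V → Prop) : ℝ≥0∞ := pr l {w | ∃ h ∈ trace w, P h}

lemma exists_trace_cons {l : ℕ} (e : Fin 4) (w : Fin l → Fin 4) (P : V → Prop) :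
    (∃ h ∈ trace (Fin.cons e w : Fin (l + 1) → Fin 4), P h) ↔ P 0 ∨ ∃ h ∈ trace w, P (step e + h) := by
  constructor
  · rintro ⟨h, hh, hP⟩
    obtain ⟨t, ht, rfl⟩ := mem_trace.1 hh
    rcases t with _ | t
    · left; rwa [pos_zero] at hP
    · right
      rw [pos_cons] at hP
      exact ⟨pos w t, mem_trace.2 ⟨t, by omega, rfl⟩, hP⟩
  · rintro (hP | ⟨h, hh, hP⟩)
    · exact ⟨0, mem_trace.2 ⟨0, by omega, pos_zero _⟩, hP⟩
    · obtain ⟨t, ht, rfl⟩ := mem_trace.1 hh
      exact ⟨step e + pos w t, mem_trace.2 ⟨t + 1, by omega, pos_cons e w t⟩, hP⟩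

lemma zero_mem_trace {l : ℕ} (w : Fin l → Fin 4) : (0 : V) ∈ trace w :=
  mem_trace.2 ⟨0, by omega, pos_zero _⟩

lemma hitP_le_one (l : ℕ) (P : V → Prop) : hitP l P ≤ 1 := pr_le_one _ _

lemma hitP_mono {l : ℕ} {P Q : V → Prop} (h : ∀ z, P z → Q z) : hitP l P ≤ hitP l Q :=
  pr_mono fun _ ⟨z, hz, hP⟩ => ⟨z, hz, h z hP⟩

lemma hitP_of_zero {l : ℕ} {P : V → Prop} (h : P 0) : hitP l P = 1 := by
  unfold hitP
  have : {w : Fin l → Fin 4 | ∃ h ∈ trace w, P h} = univ :=
    eq_univ_of_forall fun w => ⟨0, zero_mem_trace w, h⟩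
  rw [this, pr_univ]

lemma hitP_zero_of_not {P : V → Prop} (h : ¬ P 0) : hitP 0 P = 0 := by
  unfold hitP
  have : {w : Fin 0 → Fin 4 | ∃ h ∈ trace w, P h} = ∅ := by
    ext w
    simp only [mem_ofPred_eq, mem_empty_iff_false, iff_false]
    rintro ⟨z, hz, hP⟩
    obtain ⟨t, ht, rfl⟩ := mem_trace.1 hz
    obtain rfl : t = 0 := by omega
    rw [pos_zero] at hP
    exact h hP
  rw [this, pr_empty]

lemma hitP_succ_of_not {l : ℕ} {P : V → Prop} (h : ¬ P 0) :
    hitP (l + 1) P = (∑ e : Fin 4, hitP l (fun z => P (step e + z))) / 4 := by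
  unfold hitP
  rw [pr_succ]
  congr 1
  refine Finset.sum_congr rfl fun e _ => ?_
  congr 1
  ext w
  simp only [mem_ofPred_eq]
  rw [exists_trace_cons]
  exact ⟨fun h' => h'.resolve_left h, Or.inr⟩

/-! ### displacement estimate -/

def nsq (x : V) : ℕ := x.1.natAbs ^ 2 + x.2.natAbs ^ 2

lemma nsq_cast (x : V) : (nsq x : ℤ) = x.1 ^ 2 + x.2 ^ 2 := by
  unfold nsq; push_cast; rw [sq_abs, sq_abs]

lemma sum_nsq (x : V) : ∑ e : Fin 4, nsq (x + step e) = 4 * nsq x + 4 := by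
  have : ((∑ e : Fin 4, nsq (x + step e) : ℕ) : ℤ) = ((4 * nsq x + 4 : ℕ) : ℤ) := by
    push_cast
    rw [Fin.sum_univ_four]
    simp only [nsq_cast, step, Matrix.cons_val, Prod.fst_add, Prod.snd_add]
    ring
  exact_mod_cast this

lemma sum_nsq_sub (x : V) : ∑ e : Fin 4, nsq (x - step e) = 4 * nsq x + 4 := by
  have : ((∑ e : Fin 4, nsq (x - step e) : ℕ) : ℤ) = ((4 * nsq x + 4 : ℕ) : ℤ) := by
    push_cast
    rw [Fin.sum_univ_four]
    simp only [nsq_cast, step, Matrix.cons_val, Prod.fst_sub, Prod.snd_sub]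
    ring
  exact_mod_cast this

lemma sum_psi (x : V) (l : ℕ) :
    ∑ e : Fin 4, (nsq (x + step e) ^ 2 + 4 * l * nsq (x + step e) + 2 * l ^ 2) ≤
      4 * (nsq x ^ 2 + 4 * (l + 1) * nsq x + 2 * (l + 1) ^ 2) := by
  have : ((∑ e : Fin 4, (nsq (x + step e) ^ 2 + 4 * l * nsq (x + step e) + 2 * l ^ 2) : ℕ) : ℤ) ≤
      ((4 * (nsq x ^ 2 + 4 * (l + 1) * nsq x + 2 * (l + 1) ^ 2) : ℕ) : ℤ) := by
    push_cast
    rw [Fin.sum_univ_four]
    simp only [nsq_cast, step, Matrix.cons_val, Prod.fst_add, Prod.snd_add]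
    nlinarith
  exact_mod_cast this

lemma disp_bound (A : ℕ) : ∀ (l : ℕ) (x : V),
    hitP l (fun h => A ≤ nsq (x + h)) * (A:ℝ≥0∞) ^ 2 ≤
      ((nsq x ^ 2 + 4 * l * nsq x + 2 * l ^ 2 : ℕ) : ℝ≥0∞) := by
  intro l
  induction l with
  | zero =>
    intro x
    by_cases h : A ≤ nsq x
    · have : hitP 0 (fun h => A ≤ nsq (x + h)) ≤ 1 := hitP_le_one _ _
      calc hitP 0 (fun h => A ≤ nsq (x + h)) * (A:ℝ≥0∞) ^ 2 ≤ 1 * (A:ℝ≥0∞) ^ 2 := by gcongr
        _ = ((A ^ 2 : ℕ) : ℝ≥0∞) := by rw [one_mul]; push_cast; rfl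
        _ ≤ _ := by
          apply Nat.cast_le.2
          have : A ^ 2 ≤ nsq x ^ 2 := Nat.pow_le_pow_left h 2
          omega
    · rw [hitP_zero_of_not (by simpa using h)]; simp
  | succ l ih =>
    intro x
    by_cases h : A ≤ nsq x
    · have : hitP (l + 1) (fun h => A ≤ nsq (x + h)) ≤ 1 := hitP_le_one _ _
      calc hitP (l + 1) (fun h => A ≤ nsq (x + h)) * (A:ℝ≥0∞) ^ 2 ≤ 1 * (A:ℝ≥0∞) ^ 2 := by gcongr
        _ = ((A ^ 2 : ℕ) : ℝ≥0∞) := by rw [one_mul]; push_cast; rfl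
        _ ≤ _ := by
          apply Nat.cast_le.2
          have : A ^ 2 ≤ nsq x ^ 2 := Nat.pow_le_pow_left h 2
          omega
    · rw [hitP_succ_of_not (by simpa using h), ← ENNReal.mul_div_right_comm, Finset.sum_mul]
      rw [ENNReal.div_le_iff (by norm_num) (by norm_num)]
      calc ∑ e : Fin 4, hitP l (fun z => A ≤ nsq (x + (step e + z))) * (A:ℝ≥0∞) ^ 2
          = ∑ e : Fin 4, hitP l (fun z => A ≤ nsq ((x + step e) + z)) * (A:ℝ≥0∞) ^ 2 := by
            simp only [add_assoc]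
        _ ≤ ∑ e : Fin 4, ((nsq (x + step e) ^ 2 + 4 * l * nsq (x + step e) + 2 * l ^ 2 : ℕ) : ℝ≥0∞) :=
            Finset.sum_le_sum fun e _ => ih (x + step e)
        _ = ((∑ e : Fin 4, (nsq (x + step e) ^ 2 + 4 * l * nsq (x + step e) + 2 * l ^ 2) : ℕ) : ℝ≥0∞) := by
            push_cast; rfl
        _ ≤ ((4 * (nsq x ^ 2 + 4 * (l + 1) * nsq x + 2 * (l + 1) ^ 2) : ℕ) : ℝ≥0∞) :=
            Nat.cast_le.2 (sum_psi x l)
        _ = _ := by push_cast; ring

lemma sq_lt_nsq {a : ℕ} {h : V} (hh : a < nd 0 h) : a ^ 2 ≤ nsq h := by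
  unfold nsq
  have : a < h.1.natAbs ∨ a < h.2.natAbs := by
    unfold nd at hh
    simp only [Prod.fst_zero, Prod.snd_zero] at hh
    omega
  rcases this with h1 | h1
  · have := Nat.pow_le_pow_left h1.le 2; omega
  · have := Nat.pow_le_pow_left h1.le 2; omega

lemma disp_bound' (a l : ℕ) : hitP l (fun h => a < nd 0 h) * (a:ℝ≥0∞) ^ 4 ≤ 2 * (l:ℝ≥0∞) ^ 2 := by
  have h1 := disp_bound (a ^ 2) l 0
  have h2 : hitP l (fun h => a < nd 0 h) ≤ hitP l (fun h => a ^ 2 ≤ nsq (0 + h)) :=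
    hitP_mono fun z hz => by rw [zero_add]; exact sq_lt_nsq hz
  calc hitP l (fun h => a < nd 0 h) * (a:ℝ≥0∞) ^ 4
      ≤ hitP l (fun h => a ^ 2 ≤ nsq (0 + h)) * (((a ^ 2 : ℕ) : ℝ≥0∞)) ^ 2 := by
        push_cast
        rw [← pow_mul]
        gcongr
    _ ≤ _ := h1
    _ = 2 * (l:ℝ≥0∞) ^ 2 := by
        have : nsq (0 : V) = 0 := by unfold nsq; simp
        rw [this]; push_cast; ring

/-! ### hitting sums -/

noncomputable def U (r : ℕ) : ℕ → V → ℝ≥0∞
  | 0, s => if nd 0 s ≤ r then 1 else 0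
  | n + 1, s => (if nd 0 s ≤ r then 1 else 0) + (∑ e : Fin 4, U r n (s + step e)) / 4

lemma U_le_succ (r : ℕ) : ∀ n s, U r n s ≤ U r (n + 1) s := by
  intro n
  induction n with
  | zero => intro s; unfold U; exact le_self_add
  | succ n ih =>
    intro s
    rw [U, U]
    gcongr with e _
    exact ih _

lemma U_mono (r : ℕ) {n m : ℕ} (h : n ≤ m) (s : V) : U r n s ≤ U r m s :=
  monotone_nat_of_le_succ (f := fun n => U r n s) (fun n => U_le_succ r n s) h

lemma hit_mul_le {ρ r l : ℕ} {g : ℝ≥0∞} (hg : ∀ y, nd 0 y ≤ ρ → g ≤ U r l y) :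
    ∀ (n : ℕ) (s : V), hitP n (fun h => nd 0 (s + h) ≤ ρ) * g ≤ U r (n + l) s := by
  intro n
  induction n with
  | zero =>
    intro s
    by_cases h : nd 0 s ≤ ρ
    · calc _ ≤ 1 * g := by gcongr; exact hitP_le_one _ _
        _ = g := one_mul _
        _ ≤ U r (0 + l) s := by rw [zero_add]; exact hg s h
    · rw [hitP_zero_of_not (by simpa using h)]; simp
  | succ n ih =>
    intro s
    by_cases h : nd 0 s ≤ ρ
    · calc _ ≤ 1 * g := by gcongr; exact hitP_le_one _ _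
        _ = g := one_mul _
        _ ≤ U r l s := hg s h
        _ ≤ U r (n + 1 + l) s := U_mono r (by omega) s
    · rw [hitP_succ_of_not (by simpa using h), ← ENNReal.mul_div_right_comm, Finset.sum_mul]
      have e : n + 1 + l = (n + l) + 1 := by ring
      rw [e, U]
      refine le_add_of_nonneg_of_le bot_le ?_
      gcongr with e _
      have := ih (s + step e)
      simpa only [add_assoc] using this

lemma tsum_shift (f : V → ℝ≥0∞) (e : V) : ∑' s : V, f (s + e) = ∑' s : V, f s :=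
  (Equiv.addRight e).tsum_eq f

lemma tsum_avg (f : V → ℝ≥0∞) : ∑' s : V, (∑ e : Fin 4, f (s + step e)) / 4 = ∑' s : V, f s := by
  simp_rw [ENNReal.div_eq_inv_mul]
  rw [ENNReal.tsum_mul_left]
  have : ∑' s : V, ∑ e : Fin 4, f (s + step e) = 4 * ∑' s : V, f s := by
    rw [Summable.tsum_finsetSum (fun _ _ => ENNReal.summable)]
    simp_rw [tsum_shift]
    rw [Finset.sum_const, Finset.card_univ, Fintype.card_fin, nsmul_eq_mul]
    push_cast; rfl
  rw [this, ← mul_assoc, ENNReal.inv_mul_cancel (by norm_num) (by norm_num), one_mul]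

lemma tsum_U (r : ℕ) : ∀ n : ℕ, ∑' s : V, U r n s = (n + 1) * (2 * r + 1) ^ 2 := by
  intro n
  induction n with
  | zero =>
    have h := tsum_ball 0 r 1
    simp only [U]
    rw [h]; simp
  | succ n ih =>
    simp only [U]
    rw [ENNReal.tsum_add, tsum_avg, ih, tsum_ball]
    push_cast; ring

/-- probability to be in the ball of radius `a` at time `n` -/
noncomputable def q (a : ℕ) : ℕ → V → ℝ≥0∞
  | 0, s => if nd 0 s ≤ a then 1 else 0
  | n + 1, s => (∑ e : Fin 4, q a n (s + step e)) / 4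

lemma U_ge {ρ a r : ℕ} (h : ρ + a ≤ r) {y : V} (hy : nd 0 y ≤ ρ) :
    ∀ (l : ℕ) (s : V), ∑ t ∈ Finset.range (l + 1), q a t s ≤ U r l (y + s) := by
  have h0 : ∀ s : V, (if nd 0 s ≤ a then (1:ℝ≥0∞) else 0) ≤ if nd 0 (y + s) ≤ r then 1 else 0 := by
    intro s
    by_cases hs : nd 0 s ≤ a
    · have h1 := nd_triangle 0 y (y + s)
      have h2 := nd_add_right y s
      rw [if_pos hs, if_pos (by omega)]
    · rw [if_neg hs]; exact bot_le
  intro l
  induction l with
  | zero =>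
    intro s
    simp only [zero_add, Finset.range_one, Finset.sum_singleton, q, U]
    exact h0 s
  | succ l ih =>
    intro s
    rw [Finset.sum_range_succ', U, add_comm]
    refine add_le_add (h0 s) ?_
    simp only [q]
    simp_rw [ENNReal.div_eq_inv_mul]
    rw [← Finset.mul_sum, Finset.sum_comm]
    gcongr with e _
    have := ih (s + step e)
    simpa only [add_assoc] using this

/-! ### the law of the walk at time `n` -/

noncomputable def mu : ℕ → V → ℝ≥0∞
  | 0, z => if z = 0 then 1 else 0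
  | n + 1, z => (∑ e : Fin 4, mu n (z + step e)) / 4

lemma tsum_mu : ∀ n : ℕ, ∑' z : V, mu n z = 1 := by
  intro n
  induction n with
  | zero => simp only [mu]; rw [tsum_ite_eq]
  | succ n ih => simp only [mu]; rw [tsum_avg, ih]

lemma tsum_mu_nsq : ∀ n : ℕ, ∑' z : V, mu n z * (nsq z : ℝ≥0∞) = n := by
  intro n
  induction n with
  | zero =>
    simp only [mu]
    rw [tsum_eq_single 0]
    · simp [nsq]
    · intro z hz; simp [hz]
  | succ n ih =>
    have h1 : ∀ z : V, mu (n + 1) z * (nsq z : ℝ≥0∞) =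
        4⁻¹ * ∑ e : Fin 4, mu n (z + step e) * (nsq z : ℝ≥0∞) := by
      intro z
      rw [mu, ENNReal.div_eq_inv_mul, mul_assoc, Finset.sum_mul]
    simp_rw [h1]
    rw [ENNReal.tsum_mul_left, Summable.tsum_finsetSum (fun _ _ => ENNReal.summable)]
    have h2 : ∀ e : Fin 4, ∑' z : V, mu n (z + step e) * (nsq z : ℝ≥0∞) =
        ∑' z : V, mu n z * (nsq (z - step e) : ℝ≥0∞) := by
      intro e
      rw [← tsum_shift (fun z => mu n z * (nsq (z - step e) : ℝ≥0∞)) (step e)]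
      simp
    simp_rw [h2]
    rw [← Summable.tsum_finsetSum (fun _ _ => ENNReal.summable)]
    have h3 : ∀ z : V, ∑ e : Fin 4, mu n z * (nsq (z - step e) : ℝ≥0∞) =
        4 * (mu n z * (nsq z : ℝ≥0∞) + mu n z) := by
      intro z
      rw [← Finset.mul_sum]
      have h4 : ∑ e : Fin 4, (nsq (z - step e) : ℝ≥0∞) = 4 * nsq z + 4 := by
        have := sum_nsq_sub z
        exact_mod_cast congrArg (Nat.cast : ℕ → ℝ≥0∞) this
      rw [h4]; ring
    simp_rw [h3]
    rw [ENNReal.tsum_mul_left, ENNReal.tsum_add, ih, tsum_mu, ← mul_assoc,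
      ENNReal.inv_mul_cancel (by norm_num) (by norm_num), one_mul]
    push_cast; rfl

lemma sum_step_neg (f : V → ℝ≥0∞) (z : V) : ∑ e : Fin 4, f (z - step e) = ∑ e : Fin 4, f (z + step e) := by
  rw [Fin.sum_univ_four, Fin.sum_univ_four]
  simp only [step, Matrix.cons_val]
  have h1 : z - ((1, 0) : V) = z + (-1, 0) := by ext <;> simp [sub_eq_add_neg]
  have h2 : z - ((-1, 0) : V) = z + (1, 0) := by ext <;> simp [sub_eq_add_neg]
  have h3 : z - ((0, 1) : V) = z + (0, -1) := by ext <;> simp [sub_eq_add_neg]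
  have h4 : z - ((0, -1) : V) = z + (0, 1) := by ext <;> simp [sub_eq_add_neg]
  rw [h1, h2, h3, h4]
  ring

/-- Markov property -/
lemma E_succ (f : V → ℝ≥0∞) (n : ℕ) (s : V) : ∑' z : V, mu (n + 1) z * f (s + z) =
    (∑ e : Fin 4, ∑' z : V, mu n z * f (s + step e + z)) / 4 := by
  have h1 : ∀ z : V, mu (n + 1) z * f (s + z) =
      4⁻¹ * ∑ e : Fin 4, mu n (z - step e) * f (s + z) := by
    intro z
    rw [mu, ENNReal.div_eq_inv_mul, mul_assoc, Finset.sum_mul, ← Finset.sum_mul, ← Finset.sum_mul,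
      sum_step_neg (mu n) z]
  simp_rw [h1]
  rw [ENNReal.tsum_mul_left, Summable.tsum_finsetSum (fun _ _ => ENNReal.summable),
    ENNReal.div_eq_inv_mul]
  congr 1
  refine Finset.sum_congr rfl fun e _ => ?_
  rw [← tsum_shift (fun z => mu n (z - step e) * f (s + z)) (step e)]
  congr 1; ext z
  rw [add_sub_cancel_right]
  congr 2
  abel

lemma q_eq (a : ℕ) : ∀ (n : ℕ) (s : V),
    q a n s = ∑' z : V, mu n z * (if nd 0 (s + z) ≤ a then 1 else 0) := by
  intro n
  induction n with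
  | zero =>
    intro s
    simp only [mu, q]
    rw [tsum_eq_single 0]
    · simp
    · intro z hz; simp [hz]
  | succ n ih =>
    intro s
    rw [q, E_succ (fun y => if nd 0 y ≤ a then 1 else 0) n s]
    simp_rw [ih]

lemma mu_add (m : ℕ) : ∀ (n : ℕ) (z : V), mu (n + m) z = ∑' y : V, mu n y * mu m (z + y) := by
  intro n
  induction n with
  | zero =>
    intro z
    simp only [mu, zero_add]
    rw [tsum_eq_single 0]
    · simp
    · intro y hy; simp [hy]
  | succ n ih =>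
    intro z
    rw [E_succ (mu m) n z]
    have e : n + 1 + m = n + m + 1 := by ring
    rw [e, mu]
    simp_rw [ih]

/-- box index -/
def box (a : ℕ) (z : V) : V := (z.1 / a, z.2 / a)

lemma nd_of_box {a : ℕ} (ha : 1 ≤ a) {x y : V} (h : box a x = box a y) : nd 0 (x - y) ≤ a := by
  have ha' : (0:ℤ) < a := by exact_mod_cast ha
  simp only [box, Prod.mk.injEq] at h
  have key : ∀ b d : ℤ, b / a = d / a → (b - d).natAbs ≤ a := by
    intro b d hbd
    have h1 := Int.emod_nonneg b ha'.ne'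
    have h2 := Int.emod_lt_of_pos b ha'
    have h3 := Int.emod_nonneg d ha'.ne'
    have h4 := Int.emod_lt_of_pos d ha'
    have h5 := Int.emod_def b a
    have h6 := Int.emod_def d a
    rw [hbd] at h5
    omega
  have h1 := key _ _ h.1
  have h2 := key _ _ h.2
  unfold nd
  simp only [Prod.fst_zero, Prod.snd_zero, Prod.fst_sub, Prod.snd_sub]
  omega

lemma box_mem {a D : ℕ} (ha : 1 ≤ a) {z : V} (h : nd 0 z ≤ D * a) : nd 0 (box a z) ≤ D := by
  have ha' : (0:ℤ) < a := by exact_mod_cast ha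
  have key : ∀ e : ℤ, e.natAbs ≤ D * a → (e / a).natAbs ≤ D := by
    intro e he
    have hDa : ((D * a : ℕ) : ℤ) = D * a := by push_cast; ring
    have h1 : e ≤ D * a := by omega
    have h2 : -(D * a : ℤ) ≤ e := by omega
    have h3 : -(D:ℤ) ≤ e / a := by
      rw [Int.le_ediv_iff_mul_le ha']; linarith
    have h4 : e / a ≤ D := by
      have := Int.ediv_le_ediv ha' h1
      rwa [Int.mul_ediv_cancel _ ha'.ne'] at this
    omega
  unfold nd at h ⊢
  simp only [Prod.fst_zero, Prod.snd_zero, box] at h ⊢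
  have h1 := key z.1 (by omega)
  have h2 := key z.2 (by omega)
  omega

/-- Chebyshev -/
lemma mu_ball {n R : ℕ} (hn : 2 * n ≤ R ^ 2) (hR : 1 ≤ R) :
    (2:ℝ≥0∞)⁻¹ ≤ ∑' z : V, (if nd 0 z ≤ R then mu n z else 0) := by
  have h1 : (∑' z : V, if nd 0 z ≤ R then mu n z else 0) + (∑' z : V, if nd 0 z ≤ R then 0 else mu n z) = 1 := by
    rw [← ENNReal.tsum_add, ← tsum_mu n]
    congr 1; ext z
    split_ifs <;> simp
  have h2 : (∑' z : V, if nd 0 z ≤ R then 0 else mu n z) * (R:ℝ≥0∞) ^ 2 ≤ n := by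
    rw [← ENNReal.tsum_mul_right, ← tsum_mu_nsq n]
    refine ENNReal.tsum_le_tsum fun z => ?_
    split_ifs with h
    · simp
    · gcongr
      have := sq_lt_nsq (a := R) (h := z) (by omega)
      exact_mod_cast this
  have hR0 : ((R:ℝ≥0∞) ^ 2) ≠ 0 := by positivity
  have hRt : ((R:ℝ≥0∞) ^ 2) ≠ ⊤ := by finiteness
  have h3 : (∑' z : V, if nd 0 z ≤ R then 0 else mu n z) ≤ 2⁻¹ := by
    rw [← ENNReal.le_div_iff_mul_le (Or.inl hR0) (Or.inl hRt)] at h2
    refine h2.trans ?_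
    rw [ENNReal.div_le_iff hR0 hRt, ← ENNReal.div_eq_inv_mul,
      ENNReal.le_div_iff_mul_le (Or.inl (by norm_num)) (Or.inl (by norm_num))]
    have : n * 2 ≤ R ^ 2 := by omega
    exact_mod_cast this
  have h4 : (∑' z : V, if nd 0 z ≤ R then 0 else mu n z) ≠ ⊤ := ne_top_of_le_ne_top (by norm_num) h3
  have h5 : (∑' z : V, if nd 0 z ≤ R then mu n z else 0) =
      1 - (∑' z : V, if nd 0 z ≤ R then 0 else mu n z) := ENNReal.eq_sub_of_add_eq h4 h1
  rw [h5]
  calc (2:ℝ≥0∞)⁻¹ = 1 - 2⁻¹ := ENNReal.one_sub_inv_two.symm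
    _ ≤ _ := tsub_le_tsub_left h3 1

lemma q_lower {a D n : ℕ} (ha : 1 ≤ a) (hD : 1 ≤ D) (hn : 2 * n ≤ (D * a) ^ 2) :
    1 ≤ q a (n + n) 0 * (36 * (D:ℝ≥0∞) ^ 2) := by
  classical
  set F : Finset V := ballF 0 D with hF
  let M : V → ℝ≥0∞ := fun b => ∑' x : V, if box a x = b then mu n x else 0
  have hMle : ∀ b, M b ≤ 1 := by
    intro b
    rw [← tsum_mu n]
    refine ENNReal.tsum_le_tsum fun x => ?_
    split_ifs
    · exact le_rfl
    · exact bot_le
  -- q as a double sum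
  have hq : q a (n + n) 0 = ∑' y : V, ∑' x : V, mu n y * (mu n x * (if nd 0 (x - y) ≤ a then 1 else 0)) := by
    rw [q_eq]
    simp_rw [mu_add n n, ← ENNReal.tsum_mul_right]
    rw [ENNReal.tsum_comm]
    congr 1; ext y
    rw [← tsum_shift (fun x => mu n y * (mu n x * (if nd 0 (x - y) ≤ a then 1 else 0))) y]
    congr 1; ext z
    rw [zero_add, add_sub_cancel_right, mul_assoc]
  have h1 : ∑ b ∈ F, M b ^ 2 ≤ q a (n + n) 0 := by
    rw [hq]
    calc ∑ b ∈ F, M b ^ 2 = ∑ b ∈ F, ∑' y : V, ∑' x : V,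
          (if box a y = b then mu n y else 0) * (if box a x = b then mu n x else 0) := by
          refine Finset.sum_congr rfl fun b _ => ?_
          simp_rw [ENNReal.tsum_mul_left]
          rw [ENNReal.tsum_mul_right, sq]
      _ = ∑' y : V, ∑' x : V, ∑ b ∈ F,
          (if box a y = b then mu n y else 0) * (if box a x = b then mu n x else 0) := by
          rw [← Summable.tsum_finsetSum (fun _ _ => ENNReal.summable)]
          congr 1; ext y
          rw [← Summable.tsum_finsetSum (fun _ _ => ENNReal.summable)]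
      _ ≤ _ := by
          refine ENNReal.tsum_le_tsum fun y => ENNReal.tsum_le_tsum fun x => ?_
          by_cases hxy : box a x = box a y
          · rw [if_pos (nd_of_box ha hxy), mul_one]
            calc ∑ b ∈ F, (if box a y = b then mu n y else 0) * (if box a x = b then mu n x else 0)
                = ∑ b ∈ F, if box a y = b then mu n y * mu n x else 0 := by
                  refine Finset.sum_congr rfl fun b _ => ?_
                  by_cases hb : box a y = b
                  · rw [if_pos hb, if_pos hb, if_pos (hxy.trans hb)]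
                  · rw [if_neg hb, if_neg hb, zero_mul]
              _ ≤ mu n y * mu n x := by
                  rw [Finset.sum_ite_eq]
                  split_ifs
                  · exact le_rfl
                  · exact bot_le
          · have : ∑ b ∈ F, (if box a y = b then mu n y else 0) * (if box a x = b then mu n x else 0) = 0 := by
              refine Finset.sum_eq_zero fun b _ => ?_
              by_cases hb : box a y = b
              · rw [if_neg (show ¬ box a x = b from fun h => hxy (h.trans hb.symm)), mul_zero]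
              · rw [if_neg hb, zero_mul]
            rw [this]; exact bot_le
  have h2 : (2:ℝ≥0∞)⁻¹ ≤ ∑ b ∈ F, M b := by
    refine (mu_ball hn (Nat.one_le_iff_ne_zero.2 (by positivity))).trans ?_
    calc (∑' z : V, if nd 0 z ≤ D * a then mu n z else 0)
        ≤ ∑' z : V, ∑ b ∈ F, (if box a z = b then mu n z else 0) := by
          refine ENNReal.tsum_le_tsum fun z => ?_
          split_ifs with hz
          · rw [Finset.sum_ite_eq, if_pos (mem_ballF.2 (box_mem ha hz))]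
          · exact bot_le
      _ = ∑ b ∈ F, M b := Summable.tsum_finsetSum (fun _ _ => ENNReal.summable)
  -- Cauchy-Schwarz in the reals
  have hMt : ∀ b, M b ≠ ⊤ := fun b => ne_top_of_le_ne_top ENNReal.one_ne_top (hMle b)
  have h3 : (∑ b ∈ F, M b) ^ 2 ≤ F.card * ∑ b ∈ F, M b ^ 2 := by
    have hr : (∑ b ∈ F, (M b).toReal) ^ 2 ≤ F.card * ∑ b ∈ F, (M b).toReal ^ 2 :=
      sq_sum_le_card_mul_sum_sq
    have e1 : (∑ b ∈ F, M b) = ENNReal.ofReal (∑ b ∈ F, (M b).toReal) := by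
      rw [ENNReal.ofReal_sum_of_nonneg (fun b _ => ENNReal.toReal_nonneg)]
      exact Finset.sum_congr rfl fun b _ => (ENNReal.ofReal_toReal (hMt b)).symm
    have e2 : (∑ b ∈ F, M b ^ 2) = ENNReal.ofReal (∑ b ∈ F, (M b).toReal ^ 2) := by
      rw [ENNReal.ofReal_sum_of_nonneg (fun b _ => by positivity)]
      refine Finset.sum_congr rfl fun b _ => ?_
      rw [ENNReal.ofReal_pow ENNReal.toReal_nonneg, ENNReal.ofReal_toReal (hMt b)]
    rw [e1, e2, ← ENNReal.ofReal_pow (Finset.sum_nonneg fun b _ => ENNReal.toReal_nonneg),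
      ← ENNReal.ofReal_natCast, ← ENNReal.ofReal_mul (by positivity)]
    exact ENNReal.ofReal_le_ofReal hr
  have h4 : (4:ℝ≥0∞)⁻¹ ≤ F.card * q a (n + n) 0 := by
    calc (4:ℝ≥0∞)⁻¹ = (2⁻¹) ^ 2 := by rw [← ENNReal.inv_pow]; norm_num
      _ ≤ (∑ b ∈ F, M b) ^ 2 := by gcongr
      _ ≤ F.card * ∑ b ∈ F, M b ^ 2 := h3
      _ ≤ F.card * q a (n + n) 0 := by gcongr
  have h5 : (F.card : ℝ≥0∞) ≤ 9 * (D:ℝ≥0∞) ^ 2 := by
    rw [hF, card_ballF]
    have : (2 * D + 1) ^ 2 ≤ 9 * D ^ 2 := by nlinarith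
    exact_mod_cast this
  have h6 : (4:ℝ≥0∞)⁻¹ ≤ (9 * (D:ℝ≥0∞) ^ 2) * q a (n + n) 0 := h4.trans (by gcongr)
  calc (1:ℝ≥0∞) = 4 * 4⁻¹ := (ENNReal.mul_inv_cancel (by norm_num) (by norm_num)).symm
    _ ≤ 4 * ((9 * (D:ℝ≥0∞) ^ 2) * q a (n + n) 0) := by gcongr
    _ = q a (n + n) 0 * (36 * (D:ℝ≥0∞) ^ 2) := by ring

end Pool.Agent.Helper96.Worm
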