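import Mathlib
import Pool.Agent.Helper96.WormWalk

set_option autoImplicit false
open MeasureTheory ProbabilityTheory Set Filter Topology
open scoped NNReal ENNReal

namespace Pool.Agent.Helper96.Worm

lemma ennreal_cancel {x y z : ℝ≥0∞} (hx0 : x ≠ 0) (hxt : x ≠ ⊤) (h : x * y ≤ x * z) : y ≤ z :=
  (ENNReal.mul_le_mul_iff_right hx0 hxt).1 h

lemma pow_ne_zero' (n : ℕ) : (100:ℝ≥0∞) ^ n ≠ 0 := by positivity
lemma pow_ne_top' (n : ℕ) : (100:ℝ≥0∞) ^ n ≠ ⊤ := by finiteness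

/-- lower bound for the expected occupation time -/
lemma gamma_lower (j : ℕ) : ∀ d : ℕ, (d : ℝ≥0∞) * 100 ^ j ≤
    74 * ∑ t ∈ Finset.range (100 ^ (j + d) + 1), q (10 ^ j) t 0 := by
  intro d
  induction d with
  | zero => simp
  | succ d ih =>
    set a := 10 ^ j with ha
    have ha1 : 1 ≤ a := Nat.one_le_pow _ _ (by norm_num)
    have hP : 1 ≤ 100 ^ (j + d) := Nat.one_le_pow _ _ (by norm_num)
    have hsucc : 100 ^ (j + (d + 1)) = 100 * 100 ^ (j + d) := by rw [← add_assoc, pow_succ]; ring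
    set P := 100 ^ (j + d) with hPdef
    rw [hsucc]
    -- split the sum
    have hsplit : ∑ t ∈ Finset.range (100 * P + 1), q a t 0 =
        ∑ t ∈ Finset.range (P + 1), q a t 0 + ∑ t ∈ Finset.Ico (P + 1) (100 * P + 1), q a t 0 :=
      (Finset.sum_range_add_sum_Ico _ (by omega)).symm
    have hsub : (Finset.Ioc P (50 * P)).image (fun n => n + n) ⊆ Finset.Ico (P + 1) (100 * P + 1) := by
      intro t ht
      simp only [Finset.mem_image, Finset.mem_Ioc] at ht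
      obtain ⟨n, ⟨h1, h2⟩, rfl⟩ := ht
      simp only [Finset.mem_Ico]
      omega
    have hinj : Set.InjOn (fun n : ℕ => n + n) (Finset.Ioc P (50 * P)) := by
      intro x _ y _ hxy
      simp only at hxy
      omega
    have h1 : ∑ n ∈ Finset.Ioc P (50 * P), q a (n + n) 0 ≤
        ∑ t ∈ Finset.Ico (P + 1) (100 * P + 1), q a t 0 := by
      rw [← Finset.sum_image (f := fun t => q a t 0) hinj]
      exact Finset.sum_le_sum_of_subset hsub
    have h2 : ((49 * P : ℕ) : ℝ≥0∞) ≤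
        (∑ n ∈ Finset.Ioc P (50 * P), q a (n + n) 0) * (3600 * 100 ^ d) := by
      calc ((49 * P : ℕ) : ℝ≥0∞) = ∑ n ∈ Finset.Ioc P (50 * P), (1:ℝ≥0∞) := by
            rw [Finset.sum_const, Nat.card_Ioc, nsmul_eq_mul, mul_one]
            congr 1
            omega
        _ ≤ ∑ n ∈ Finset.Ioc P (50 * P), q a (n + n) 0 * (3600 * 100 ^ d) := by
            refine Finset.sum_le_sum fun n hn => ?_
            rw [Finset.mem_Ioc] at hn
            have h3 := q_lower (a := a) (D := 10 ^ (d + 1)) (n := n) ha1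
              (Nat.one_le_pow _ _ (by norm_num)) (by
                have : (10 ^ (d + 1) * a) ^ 2 = 100 * P := by
                  rw [ha, hPdef, ← pow_add, ← pow_mul, mul_comm _ 2, pow_mul]
                  norm_num
                  rw [show d + 1 + j = (j + d) + 1 by ring, pow_succ]; ring
                rw [this]; omega)
            have h4 : (36 * (((10 ^ (d + 1) : ℕ) : ℝ≥0∞)) ^ 2) = 3600 * 100 ^ d := by
              have : 36 * (10 ^ (d + 1)) ^ 2 = 3600 * 100 ^ d := by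
                rw [← pow_mul, mul_comm _ 2, pow_mul, pow_succ]; norm_num; ring
              exact_mod_cast congrArg (Nat.cast : ℕ → ℝ≥0∞) this
            rwa [h4] at h3
        _ = _ := by rw [Finset.sum_mul]
    have h3 : (100:ℝ≥0∞) ^ j ≤ 74 * ∑ n ∈ Finset.Ioc P (50 * P), q a (n + n) 0 := by
      apply ennreal_cancel (x := 49 * 100 ^ d) (by positivity) (by finiteness)
      calc (49 * 100 ^ d) * (100:ℝ≥0∞) ^ j = ((49 * P : ℕ) : ℝ≥0∞) := by
            rw [hPdef]; push_cast; rw [pow_add]; ring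
        _ ≤ (∑ n ∈ Finset.Ioc P (50 * P), q a (n + n) 0) * (3600 * 100 ^ d) := h2
        _ ≤ (∑ n ∈ Finset.Ioc P (50 * P), q a (n + n) 0) * (3626 * 100 ^ d) := by
            gcongr; norm_num
        _ = 49 * 100 ^ d * (74 * ∑ n ∈ Finset.Ioc P (50 * P), q a (n + n) 0) := by ring
    rw [hsplit]
    push_cast
    calc ((d:ℝ≥0∞) + 1) * 100 ^ j = d * 100 ^ j + 100 ^ j := by ring
      _ ≤ 74 * (∑ t ∈ Finset.range (P + 1), q a t 0) +
          74 * ∑ n ∈ Finset.Ioc P (50 * P), q a (n + n) 0 := add_le_add ih h3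
      _ ≤ 74 * (∑ t ∈ Finset.range (P + 1), q a t 0) +
          74 * ∑ t ∈ Finset.Ico (P + 1) (100 * P + 1), q a t 0 := by gcongr
      _ = _ := by ring

/-- long worms -/
lemma sum_hit_long (j d : ℕ) :
    (d : ℝ≥0∞) * ∑' s : V, hitP (100 ^ (j + d)) (fun h => nd 0 (s + h) ≤ 8 * 10 ^ j + 1) ≤
      97902 * 100 ^ (j + d) := by
  set a := 10 ^ j with ha
  have ha1 : 1 ≤ a := Nat.one_le_pow _ _ (by norm_num)
  set l := 100 ^ (j + d) with hl
  have hl1 : 1 ≤ l := Nat.one_le_pow _ _ (by norm_num)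
  set g := ∑ t ∈ Finset.range (l + 1), q a t 0 with hg
  have hg1 : ∀ y, nd 0 y ≤ 8 * a + 1 → g ≤ U (9 * a + 1) l y := by
    intro y hy
    have := U_ge (ρ := 8 * a + 1) (a := a) (r := 9 * a + 1) (by omega) hy l 0
    rwa [add_zero] at this
  have h1 : (∑' s : V, hitP l (fun h => nd 0 (s + h) ≤ 8 * a + 1)) * g ≤ 1323 * l * 100 ^ j := by
    rw [← ENNReal.tsum_mul_right]
    calc ∑' s : V, hitP l (fun h => nd 0 (s + h) ≤ 8 * a + 1) * g
        ≤ ∑' s : V, U (9 * a + 1) (l + l) s := ENNReal.tsum_le_tsum fun s => hit_mul_le hg1 l s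
      _ = (((l + l : ℕ) : ℝ≥0∞) + 1) * (2 * ((9 * a + 1 : ℕ) : ℝ≥0∞) + 1) ^ 2 := tsum_U _ _
      _ ≤ 1323 * l * 100 ^ j := by
        have h2 : (l + l + 1) * (2 * (9 * a + 1) + 1) ^ 2 ≤ 1323 * l * 100 ^ j := by
          have e : a ^ 2 = 100 ^ j := by rw [ha, ← pow_mul, mul_comm, pow_mul]; norm_num
          calc (l + l + 1) * (2 * (9 * a + 1) + 1) ^ 2 ≤ (3 * l) * (21 * a) ^ 2 := by
                gcongr <;> omega
            _ = 1323 * l * 100 ^ j := by rw [mul_pow, e]; ring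
        exact_mod_cast h2
  have h2 := gamma_lower j d
  rw [← ha, ← hl, ← hg] at h2
  apply ennreal_cancel (pow_ne_zero' j) (pow_ne_top' j)
  calc (100:ℝ≥0∞) ^ j * (d * ∑' s : V, hitP l (fun h => nd 0 (s + h) ≤ 8 * a + 1))
      = (d * 100 ^ j) * ∑' s : V, hitP l (fun h => nd 0 (s + h) ≤ 8 * a + 1) := by ring
    _ ≤ (74 * g) * ∑' s : V, hitP l (fun h => nd 0 (s + h) ≤ 8 * a + 1) := by gcongr
    _ = 74 * ((∑' s : V, hitP l (fun h => nd 0 (s + h) ≤ 8 * a + 1)) * g) := by ring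
    _ ≤ 74 * (1323 * l * 100 ^ j) := by gcongr
    _ = 100 ^ j * (97902 * 100 ^ (j + d)) := by rw [hl]; push_cast; ring

lemma exists_scale {n m : ℕ} (h : 10 ^ (m + 1) < n) : ∃ d : ℕ, 10 ^ (m + 1 + d) < n ∧
    n ≤ 10 ^ (m + 2 + d) := by
  classical
  have hex : ∃ d : ℕ, n ≤ 10 ^ (m + 2 + d) := by
    refine ⟨n, ?_⟩
    calc n ≤ 10 ^ n := (Nat.lt_pow_self (by norm_num)).le
      _ ≤ 10 ^ (m + 2 + n) := Nat.pow_le_pow_right (by norm_num) (by omega)
  refine ⟨Nat.find hex, ?_, Nat.find_spec hex⟩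
  rcases Nat.eq_zero_or_pos (Nat.find hex) with h0 | h0
  · rw [h0]; exact h
  · obtain ⟨e, he⟩ : ∃ e, Nat.find hex = e + 1 := ⟨Nat.find hex - 1, by omega⟩
    have := Nat.find_min hex (m := e) (by omega)
    rw [he]
    rw [show m + 1 + (e + 1) = m + 2 + e by ring]
    omega

/-- short worms -/
lemma sum_hit_short (j l : ℕ) :
    (100:ℝ≥0∞) ^ j * ∑' s : V, (if 10 * 10 ^ j < nd 0 s then
      hitP l (fun h => nd 0 (s + h) ≤ 8 * 10 ^ j + 1) else 0) ≤ 161604 * (l:ℝ≥0∞) ^ 2 := by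
  let c : ℕ → ℝ≥0∞ := fun d => 2 * (l:ℝ≥0∞) ^ 2 * (((100:ℝ≥0∞) ^ (j + d)) ^ 2)⁻¹
  have hpt : ∀ s : V, (if 10 * 10 ^ j < nd 0 s then
      hitP l (fun h => nd 0 (s + h) ≤ 8 * 10 ^ j + 1) else 0) ≤
      ∑' d : ℕ, (if nd 0 s ≤ 10 ^ (j + 2 + d) then c d else 0) := by
    intro s
    split_ifs with hs
    · obtain ⟨d, hd1, hd2⟩ := exists_scale (n := nd 0 s) (m := j) (by rw [pow_succ]; omega)
      refine le_trans ?_ (ENNReal.le_tsum d)
      rw [if_pos hd2]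
      have h1 : hitP l (fun h => nd 0 (s + h) ≤ 8 * 10 ^ j + 1) ≤ hitP l (fun h => 10 ^ (j + d) < nd 0 h) := by
        refine hitP_mono fun h hh => ?_
        have h2 := nd_triangle 0 (s + h) s
        have h3 : nd (s + h) s = nd 0 h := by rw [nd_comm]; exact nd_add_right s h
        have h4 : 10 ^ (j + 1 + d) = 10 * 10 ^ (j + d) := by
          rw [show j + 1 + d = (j + d) + 1 by ring, pow_succ]; ring
        have h5 : 10 ^ j ≤ 10 ^ (j + d) := Nat.pow_le_pow_right (by norm_num) (by omega)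
        have h6 : 1 ≤ 10 ^ (j + d) := Nat.one_le_pow _ _ (by norm_num)
        omega
      refine h1.trans ?_
      have h2 := disp_bound' (10 ^ (j + d)) l
      have h3 : (((10 ^ (j + d) : ℕ) : ℝ≥0∞)) ^ 4 = ((100:ℝ≥0∞) ^ (j + d)) ^ 2 := by
        have : (10 ^ (j + d)) ^ 4 = (100 ^ (j + d)) ^ 2 := by
          rw [show (100:ℕ) = 10 ^ 2 by norm_num, ← pow_mul, ← pow_mul, ← pow_mul]; ring_nf
        exact_mod_cast congrArg (Nat.cast : ℕ → ℝ≥0∞) this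
      rw [h3] at h2
      have hx0 : ((100:ℝ≥0∞) ^ (j + d)) ^ 2 ≠ 0 := by positivity
      have hxt : ((100:ℝ≥0∞) ^ (j + d)) ^ 2 ≠ ⊤ := by finiteness
      show _ ≤ 2 * (l:ℝ≥0∞) ^ 2 * (((100:ℝ≥0∞) ^ (j + d)) ^ 2)⁻¹
      rw [← div_eq_mul_inv]
      exact (ENNReal.le_div_iff_mul_le (Or.inl hx0) (Or.inl hxt)).2 h2
    · exact bot_le
  calc (100:ℝ≥0∞) ^ j * ∑' s : V, (if 10 * 10 ^ j < nd 0 s then
      hitP l (fun h => nd 0 (s + h) ≤ 8 * 10 ^ j + 1) else 0)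
      ≤ (100:ℝ≥0∞) ^ j * ∑' s : V, ∑' d : ℕ, (if nd 0 s ≤ 10 ^ (j + 2 + d) then c d else 0) := by
        gcongr with s
        exact hpt s
    _ = (100:ℝ≥0∞) ^ j * ∑' d : ℕ, ((2 * ((10 ^ (j + 2 + d) : ℕ) : ℝ≥0∞) + 1) ^ 2 * c d) := by
        rw [ENNReal.tsum_comm]
        congr 2; ext d
        exact tsum_ball _ _ _
    _ ≤ (100:ℝ≥0∞) ^ j * ∑' d : ℕ, (80802 * (l:ℝ≥0∞) ^ 2 * (((100:ℝ≥0∞) ^ j)⁻¹ * (100⁻¹) ^ d)) := by
        refine mul_le_mul' le_rfl (ENNReal.tsum_le_tsum fun d => ?_)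
        have h1 : (2 * ((10 ^ (j + 2 + d) : ℕ) : ℝ≥0∞) + 1) ^ 2 ≤ 40401 * (100:ℝ≥0∞) ^ (j + d) := by
          have h2 : (2 * 10 ^ (j + 2 + d) + 1) ^ 2 ≤ 40401 * 100 ^ (j + d) := by
            have h4 : 1 ≤ 10 ^ (j + d) := Nat.one_le_pow _ _ (by norm_num)
            have h5 : 10 ^ (j + 2 + d) = 100 * 10 ^ (j + d) := by
              rw [show j + 2 + d = (j + d) + 2 by ring, pow_add]; ring
            calc (2 * 10 ^ (j + 2 + d) + 1) ^ 2 ≤ (201 * 10 ^ (j + d)) ^ 2 := by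
                  gcongr; omega
              _ = 40401 * 100 ^ (j + d) := by
                rw [mul_pow, ← pow_mul, mul_comm (j + d) 2, pow_mul]; norm_num
          exact_mod_cast h2
        calc (2 * ((10 ^ (j + 2 + d) : ℕ) : ℝ≥0∞) + 1) ^ 2 * c d
            ≤ (40401 * (100:ℝ≥0∞) ^ (j + d)) * c d := by gcongr
          _ = 80802 * (l:ℝ≥0∞) ^ 2 * ((100:ℝ≥0∞) ^ (j + d) * (((100:ℝ≥0∞) ^ (j + d)) ^ 2)⁻¹) := by
            simp only [c]; ring
          _ = 80802 * (l:ℝ≥0∞) ^ 2 * (((100:ℝ≥0∞) ^ j)⁻¹ * (100⁻¹) ^ d) := by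
            congr 1
            rw [sq, ENNReal.mul_inv (Or.inl (pow_ne_zero' _)) (Or.inl (pow_ne_top' _)), ← mul_assoc,
              ENNReal.mul_inv_cancel (pow_ne_zero' _) (pow_ne_top' _), one_mul, pow_add,
              ENNReal.mul_inv (Or.inl (pow_ne_zero' _)) (Or.inl (pow_ne_top' _)), ENNReal.inv_pow (n := d)]
    _ = 80802 * (l:ℝ≥0∞) ^ 2 * (1 - 100⁻¹)⁻¹ := by
        rw [ENNReal.tsum_mul_left, ENNReal.tsum_mul_left, ENNReal.tsum_geometric]
        calc (100:ℝ≥0∞) ^ j * (80802 * (l:ℝ≥0∞) ^ 2 * (((100:ℝ≥0∞) ^ j)⁻¹ * (1 - 100⁻¹)⁻¹))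
            = ((100:ℝ≥0∞) ^ j * ((100:ℝ≥0∞) ^ j)⁻¹) * (80802 * (l:ℝ≥0∞) ^ 2 * (1 - 100⁻¹)⁻¹) := by ring
          _ = _ := by rw [ENNReal.mul_inv_cancel (pow_ne_zero' _) (pow_ne_top' _), one_mul]
    _ ≤ 80802 * (l:ℝ≥0∞) ^ 2 * 2 := by
        gcongr
        rw [ENNReal.inv_le_iff_inv_le]
        rw [← ENNReal.one_sub_inv_two]
        apply tsub_le_tsub_left
        rw [ENNReal.inv_le_inv]
        norm_num
    _ = 161604 * (l:ℝ≥0∞) ^ 2 := by ring

end Pool.Agent.Helper96.Worm
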