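import Mathlib
import Pool.Agent.Helper96.WormSum

set_option autoImplicit false
open MeasureTheory ProbabilityTheory Set Filter Topology
open scoped NNReal ENNReal

namespace Pool.Agent.Helper96.Worm

/-- weights of the scales -/
noncomputable def wt (k : ℕ) : ℝ≥0∞ := ((100:ℝ≥0∞) ^ k)⁻¹ * ((k:ℝ≥0∞) + 1)⁻¹

lemma tsum_wt_ne_zero : tsum wt ≠ 0 := by
  intro h
  rw [ENNReal.tsum_eq_zero] at h
  have := h 0
  simp [wt] at this

lemma one_le_tsum_wt : 1 ≤ tsum wt := by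
  have : wt 0 = 1 := by simp [wt]
  rw [← this]; exact ENNReal.le_tsum 0

lemma inv_succ_le_one (k : ℕ) : ((k:ℝ≥0∞) + 1)⁻¹ ≤ 1 := by
  rw [ENNReal.inv_le_one]; exact le_add_self

lemma tsum_wt_ne_top : tsum wt ≠ ⊤ := by
  have h1 : tsum wt ≤ ∑' k : ℕ, ((100:ℝ≥0∞)⁻¹) ^ k := by
    refine ENNReal.tsum_le_tsum fun k => ?_
    unfold wt
    calc ((100:ℝ≥0∞) ^ k)⁻¹ * ((k:ℝ≥0∞) + 1)⁻¹ ≤ ((100:ℝ≥0∞) ^ k)⁻¹ * 1 := by
          gcongr; exact inv_succ_le_one k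
      _ = _ := by rw [mul_one, ENNReal.inv_pow]
  refine ne_top_of_le_ne_top ?_ h1
  rw [ENNReal.tsum_geometric, ENNReal.inv_ne_top]
  have : (100:ℝ≥0∞)⁻¹ < 1 := by rw [ENNReal.inv_lt_one]; norm_num
  exact (tsub_pos_of_lt this).ne'

/-- law of the scale -/
noncomputable def scaleLaw : PMF ℕ := PMF.normalize wt tsum_wt_ne_zero tsum_wt_ne_top

lemma scaleLaw_le (k : ℕ) : scaleLaw k ≤ wt k := by
  unfold scaleLaw
  rw [PMF.normalize_apply]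
  calc wt k * (tsum wt)⁻¹ ≤ wt k * 1 := by
        gcongr; rw [ENNReal.inv_le_one]; exact one_le_tsum_wt
    _ = wt k := mul_one _

/-- The length law: `L = 100^k` with probability proportional to `100^{-k} / (k+1)`. -/
noncomputable def lenLaw : PMF ℕ := scaleLaw.map fun k => 100 ^ k

lemma lenLaw_zero : lenLaw 0 = 0 := by
  unfold lenLaw
  rw [PMF.map_apply, ENNReal.tsum_eq_zero]
  intro k
  rw [if_neg]
  exact (pow_pos (by norm_num) k).ne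

lemma tsum_inv_succ : ∑' k : ℕ, ((k:ℝ≥0∞) + 1)⁻¹ = ⊤ := by
  by_contra h
  have h1 := ENNReal.summable_toReal h
  have h2 : Summable (fun k : ℕ => 1 / ((k + 1 : ℕ) : ℝ)) := by
    refine h1.congr fun k => ?_
    rw [ENNReal.toReal_inv, ENNReal.toReal_add (by finiteness) (by finiteness)]
    simp
  exact Real.not_summable_one_div_natCast ((summable_nat_add_iff 1).1 h2)

lemma mean_lenLaw : ∑' l : ℕ, (l : ℝ≥0∞) * lenLaw l = ⊤ := by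
  have h1 : ∑' l : ℕ, (l : ℝ≥0∞) * lenLaw l = ∑' k : ℕ, (100:ℝ≥0∞) ^ k * scaleLaw k := by
    unfold lenLaw
    simp_rw [PMF.map_apply, ← ENNReal.tsum_mul_left]
    rw [ENNReal.tsum_comm]
    congr 1; ext k
    rw [tsum_eq_single (100 ^ k)]
    · rw [if_pos rfl]; push_cast; rfl
    · intro l hl; rw [if_neg hl, mul_zero]
  rw [h1]
  have h2 : ∀ k : ℕ, (100:ℝ≥0∞) ^ k * scaleLaw k = (tsum wt)⁻¹ * ((k:ℝ≥0∞) + 1)⁻¹ := by
    intro k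
    unfold scaleLaw
    rw [PMF.normalize_apply, show wt k = ((100:ℝ≥0∞) ^ k)⁻¹ * ((k:ℝ≥0∞) + 1)⁻¹ from rfl]
    calc (100:ℝ≥0∞) ^ k * (((100:ℝ≥0∞) ^ k)⁻¹ * ((k:ℝ≥0∞) + 1)⁻¹ * (tsum wt)⁻¹)
        = ((100:ℝ≥0∞) ^ k * ((100:ℝ≥0∞) ^ k)⁻¹) * ((tsum wt)⁻¹ * ((k:ℝ≥0∞) + 1)⁻¹) := by ring
      _ = _ := by rw [ENNReal.mul_inv_cancel (pow_ne_zero' k) (pow_ne_top' k), one_mul]
  simp_rw [h2]
  rw [ENNReal.tsum_mul_left, tsum_inv_succ, ENNReal.mul_top]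
  exact ENNReal.inv_ne_zero.2 tsum_wt_ne_top

lemma traceLaw_hit (P : V → Prop) : (traceLaw lenLaw).toOuterMeasure {H | ∃ h ∈ H, P h} ≤
    ∑' k : ℕ, wt k * hitP (100 ^ k) P := by
  unfold traceLaw lenLaw
  rw [PMF.bind_map, PMF.toOuterMeasure_bind_apply]
  refine ENNReal.tsum_le_tsum fun k => ?_
  rw [Function.comp_apply, PMF.toOuterMeasure_map_apply]
  exact mul_le_mul' (scaleLaw_le k) le_rfl

/-- majorant -/
noncomputable def bb (j k : ℕ) : ℝ≥0∞ :=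
  if k ≤ j then ((100:ℝ≥0∞) ^ (j - k))⁻¹ * ((k:ℝ≥0∞) + 1)⁻¹
  else ((k - j : ℕ) : ℝ≥0∞)⁻¹ * ((k:ℝ≥0∞) + 1)⁻¹

lemma claim1 (j k : ℕ) :
    (100:ℝ≥0∞) ^ j * (wt k * hitP (100 ^ k) (fun h => 10 ^ j < nd 0 h)) ≤ 2 * bb j k := by
  unfold bb wt
  split_ifs with hk
  · obtain ⟨e, rfl⟩ : ∃ e, j = k + e := ⟨j - k, by omega⟩
    have h1 := disp_bound' (10 ^ (k + e)) (100 ^ k)
    set x := hitP (100 ^ k) (fun h => 10 ^ (k + e) < nd 0 h)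
    have h3 : (((10 ^ (k + e) : ℕ) : ℝ≥0∞)) ^ 4 = ((100:ℝ≥0∞) ^ k) ^ 2 * ((100:ℝ≥0∞) ^ e) ^ 2 := by
      have : (10 ^ (k + e)) ^ 4 = (100 ^ k) ^ 2 * (100 ^ e) ^ 2 := by
        rw [show (100:ℕ) = 10 ^ 2 by norm_num, ← pow_mul, ← pow_mul, ← pow_mul, ← pow_mul,
          ← pow_mul, ← pow_add]
        ring_nf
      exact_mod_cast congrArg (Nat.cast : ℕ → ℝ≥0∞) this
    rw [h3] at h1
    push_cast at h1
    have h4 : x * ((100:ℝ≥0∞) ^ e) ^ 2 ≤ 2 := by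
      apply ennreal_cancel (x := ((100:ℝ≥0∞) ^ k) ^ 2) (by positivity) (by finiteness)
      calc ((100:ℝ≥0∞) ^ k) ^ 2 * (x * ((100:ℝ≥0∞) ^ e) ^ 2)
          = x * (((100:ℝ≥0∞) ^ k) ^ 2 * ((100:ℝ≥0∞) ^ e) ^ 2) := by ring
        _ ≤ 2 * ((100:ℝ≥0∞) ^ k) ^ 2 := h1
        _ = _ := by ring
    have h5 : (100:ℝ≥0∞) ^ e * x ≤ 2 * ((100:ℝ≥0∞) ^ e)⁻¹ := by
      apply ennreal_cancel (pow_ne_zero' e) (pow_ne_top' e)
      calc (100:ℝ≥0∞) ^ e * ((100:ℝ≥0∞) ^ e * x) = x * ((100:ℝ≥0∞) ^ e) ^ 2 := by ring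
        _ ≤ 2 := h4
        _ = 2 * ((100:ℝ≥0∞) ^ e * ((100:ℝ≥0∞) ^ e)⁻¹) := by
          rw [ENNReal.mul_inv_cancel (pow_ne_zero' e) (pow_ne_top' e), mul_one]
        _ = _ := by ring
    rw [show k + e - k = e by omega, pow_add]
    calc (100:ℝ≥0∞) ^ k * 100 ^ e * (((100:ℝ≥0∞) ^ k)⁻¹ * ((k:ℝ≥0∞) + 1)⁻¹ * x)
        = ((100:ℝ≥0∞) ^ k * ((100:ℝ≥0∞) ^ k)⁻¹) * (((k:ℝ≥0∞) + 1)⁻¹ * (100 ^ e * x)) := by ring
      _ = ((k:ℝ≥0∞) + 1)⁻¹ * (100 ^ e * x) := by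
          rw [ENNReal.mul_inv_cancel (pow_ne_zero' k) (pow_ne_top' k), one_mul]
      _ ≤ ((k:ℝ≥0∞) + 1)⁻¹ * (2 * ((100:ℝ≥0∞) ^ e)⁻¹) := by gcongr
      _ = _ := by ring
  · obtain ⟨e, rfl⟩ : ∃ e, k = j + e := ⟨k - j, by omega⟩
    have he : 1 ≤ e := by omega
    rw [show j + e - j = e by omega]
    have hx := hitP_le_one (100 ^ (j + e)) (fun h => 10 ^ j < nd 0 h)
    set x := hitP (100 ^ (j + e)) (fun h => 10 ^ j < nd 0 h)
    have h1 : ((100:ℝ≥0∞) ^ e)⁻¹ ≤ (e:ℝ≥0∞)⁻¹ := by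
      rw [ENNReal.inv_le_inv]
      have : e ≤ 100 ^ e := (Nat.lt_pow_self (by norm_num)).le
      exact_mod_cast this
    calc (100:ℝ≥0∞) ^ j * (((100:ℝ≥0∞) ^ (j + e))⁻¹ * (((j + e : ℕ):ℝ≥0∞) + 1)⁻¹ * x)
        ≤ (100:ℝ≥0∞) ^ j * (((100:ℝ≥0∞) ^ (j + e))⁻¹ * (((j + e : ℕ):ℝ≥0∞) + 1)⁻¹ * 1) := by gcongr
      _ = ((100:ℝ≥0∞) ^ j * ((100:ℝ≥0∞) ^ j)⁻¹) * (((100:ℝ≥0∞) ^ e)⁻¹ * (((j + e : ℕ):ℝ≥0∞) + 1)⁻¹) := by
          rw [pow_add, ENNReal.mul_inv (Or.inl (pow_ne_zero' _)) (Or.inl (pow_ne_top' _))]; ring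
      _ = ((100:ℝ≥0∞) ^ e)⁻¹ * (((j + e : ℕ):ℝ≥0∞) + 1)⁻¹ := by
          rw [ENNReal.mul_inv_cancel (pow_ne_zero' j) (pow_ne_top' j), one_mul]
      _ ≤ (e:ℝ≥0∞)⁻¹ * (((j + e : ℕ):ℝ≥0∞) + 1)⁻¹ := by gcongr
      _ ≤ 2 * ((e:ℝ≥0∞)⁻¹ * (((j + e : ℕ):ℝ≥0∞) + 1)⁻¹) := le_mul_of_one_le_left' (by norm_num)

lemma claim2 (j k : ℕ) :
    wt k * (∑' s : V, (if 10 * 10 ^ j < nd 0 s then
      hitP (100 ^ k) (fun h => nd 0 (s + h) ≤ 8 * 10 ^ j + 1) else 0)) ≤ 161604 * bb j k := by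
  unfold bb wt
  split_ifs with hk
  · obtain ⟨e, rfl⟩ : ∃ e, j = k + e := ⟨j - k, by omega⟩
    have h1 := sum_hit_short (k + e) (100 ^ k)
    set x := ∑' s : V, (if 10 * 10 ^ (k + e) < nd 0 s then
      hitP (100 ^ k) (fun h => nd 0 (s + h) ≤ 8 * 10 ^ (k + e) + 1) else 0)
    push_cast at h1
    have h4 : (100:ℝ≥0∞) ^ e * x ≤ 161604 * 100 ^ k := by
      apply ennreal_cancel (pow_ne_zero' k) (pow_ne_top' k)
      calc (100:ℝ≥0∞) ^ k * ((100:ℝ≥0∞) ^ e * x) = (100:ℝ≥0∞) ^ (k + e) * x := by rw [pow_add]; ring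
        _ ≤ 161604 * ((100:ℝ≥0∞) ^ k) ^ 2 := h1
        _ = _ := by ring
    rw [show k + e - k = e by omega]
    apply ennreal_cancel (pow_ne_zero' e) (pow_ne_top' e)
    calc (100:ℝ≥0∞) ^ e * (((100:ℝ≥0∞) ^ k)⁻¹ * ((k:ℝ≥0∞) + 1)⁻¹ * x)
        = (((100:ℝ≥0∞) ^ k)⁻¹ * ((k:ℝ≥0∞) + 1)⁻¹) * ((100:ℝ≥0∞) ^ e * x) := by ring
      _ ≤ (((100:ℝ≥0∞) ^ k)⁻¹ * ((k:ℝ≥0∞) + 1)⁻¹) * (161604 * 100 ^ k) := by gcongr
      _ = 161604 * ((100:ℝ≥0∞) ^ k * ((100:ℝ≥0∞) ^ k)⁻¹) * ((k:ℝ≥0∞) + 1)⁻¹ := by ring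
      _ = 161604 * ((100:ℝ≥0∞) ^ e * ((100:ℝ≥0∞) ^ e)⁻¹) * ((k:ℝ≥0∞) + 1)⁻¹ := by
          rw [ENNReal.mul_inv_cancel (pow_ne_zero' k) (pow_ne_top' k),
            ENNReal.mul_inv_cancel (pow_ne_zero' e) (pow_ne_top' e)]
      _ = _ := by ring
  · obtain ⟨e, rfl⟩ : ∃ e, k = j + e := ⟨k - j, by omega⟩
    have he : 1 ≤ e := by omega
    rw [show j + e - j = e by omega]
    have h1 := sum_hit_long j e
    have h2 : (∑' s : V, (if 10 * 10 ^ j < nd 0 s then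
      hitP (100 ^ (j + e)) (fun h => nd 0 (s + h) ≤ 8 * 10 ^ j + 1) else 0)) ≤
        ∑' s : V, hitP (100 ^ (j + e)) (fun h => nd 0 (s + h) ≤ 8 * 10 ^ j + 1) := by
      refine ENNReal.tsum_le_tsum fun s => ?_
      split_ifs
      · exact le_rfl
      · exact bot_le
    set x := ∑' s : V, (if 10 * 10 ^ j < nd 0 s then
      hitP (100 ^ (j + e)) (fun h => nd 0 (s + h) ≤ 8 * 10 ^ j + 1) else 0)
    set y := ∑' s : V, hitP (100 ^ (j + e)) (fun h => nd 0 (s + h) ≤ 8 * 10 ^ j + 1)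
    have he0 : (e:ℝ≥0∞) ≠ 0 := by exact_mod_cast (show e ≠ 0 by omega)
    have het : (e:ℝ≥0∞) ≠ ⊤ := ENNReal.natCast_ne_top e
    apply ennreal_cancel he0 het
    calc (e:ℝ≥0∞) * (((100:ℝ≥0∞) ^ (j + e))⁻¹ * (((j + e : ℕ):ℝ≥0∞) + 1)⁻¹ * x)
        ≤ (e:ℝ≥0∞) * (((100:ℝ≥0∞) ^ (j + e))⁻¹ * (((j + e : ℕ):ℝ≥0∞) + 1)⁻¹ * y) := by gcongr
      _ = (((100:ℝ≥0∞) ^ (j + e))⁻¹ * (((j + e : ℕ):ℝ≥0∞) + 1)⁻¹) * (e * y) := by ring
      _ ≤ (((100:ℝ≥0∞) ^ (j + e))⁻¹ * (((j + e : ℕ):ℝ≥0∞) + 1)⁻¹) * (97902 * 100 ^ (j + e)) := by gcongr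
      _ = 97902 * ((100:ℝ≥0∞) ^ (j + e) * ((100:ℝ≥0∞) ^ (j + e))⁻¹) * (((j + e : ℕ):ℝ≥0∞) + 1)⁻¹ := by ring
      _ = 97902 * ((e:ℝ≥0∞) * (e:ℝ≥0∞)⁻¹) * (((j + e : ℕ):ℝ≥0∞) + 1)⁻¹ := by
          rw [ENNReal.mul_inv_cancel (pow_ne_zero' _) (pow_ne_top' _), ENNReal.mul_inv_cancel he0 het]
      _ ≤ 161604 * ((e:ℝ≥0∞) * (e:ℝ≥0∞)⁻¹) * (((j + e : ℕ):ℝ≥0∞) + 1)⁻¹ := by gcongr; norm_num
      _ = _ := by ring

/-! ### the majorant series tends to zero -/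

lemma tendsto_part2 : Tendsto (fun j : ℕ => ∑' d : ℕ, (((d + 1 : ℕ) : ℝ≥0∞)⁻¹ *
    (((d + (j + 1) : ℕ) : ℝ≥0∞) + 1)⁻¹)) atTop (𝓝 0) := by
  have hreal : Tendsto (fun j : ℕ => ∑' d : ℕ, (1 / ((d:ℝ) + 1) * (1 / ((d:ℝ) + (j + 1) + 1))))
      atTop (𝓝 (∑' _ : ℕ, (0:ℝ))) := by
    refine tendsto_tsum_of_dominated_convergence (bound := fun d : ℕ => 1 / ((d:ℝ) + 1) ^ 2) ?_ ?_ ?_
    · have := (summable_nat_add_iff 1).2 (Real.summable_one_div_nat_pow.2 (by norm_num : 1 < 2))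
      simpa using this
    · intro d
      have h1 : Tendsto (fun j : ℕ => (1 / ((d:ℝ) + (j + 1) + 1))) atTop (𝓝 0) := by
        have h2 := tendsto_one_div_add_atTop_nhds_zero_nat (𝕜 := ℝ)
        refine squeeze_zero (fun j => by positivity) (fun j => ?_) h2
        gcongr
        have : (0:ℝ) ≤ d := by positivity
        linarith
      simpa using h1.const_mul (1 / ((d:ℝ) + 1))
    · refine Eventually.of_forall fun j d => ?_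
      rw [Real.norm_of_nonneg (by positivity), sq, one_div_mul_one_div]
      gcongr
      have : (0:ℝ) ≤ j := by positivity
      linarith
  rw [tsum_zero] at hreal
  have h1 := ENNReal.tendsto_ofReal hreal
  rw [ENNReal.ofReal_zero] at h1
  refine h1.congr fun j => ?_
  rw [ENNReal.ofReal_tsum_of_nonneg (fun d => by positivity)]
  · congr 1; ext d
    rw [ENNReal.ofReal_mul (by positivity), ENNReal.ofReal_div_of_pos (by positivity),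
      ENNReal.ofReal_div_of_pos (by positivity), ENNReal.ofReal_one, one_div, one_div]
    congr 2
    · rw [ENNReal.ofReal_add (by positivity) (by norm_num)]; simp
    · rw [ENNReal.ofReal_add (by positivity) (by norm_num), ENNReal.ofReal_add (by positivity) (by positivity),
        ENNReal.ofReal_add (by positivity) (by norm_num)]
      simp
  · refine Summable.of_nonneg_of_le (fun d => by positivity) (fun d => ?_)
      (f := fun d : ℕ => 1 / ((d:ℝ) + 1) ^ 2) ?_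
    · rw [sq, one_div_mul_one_div]
      gcongr
      have : (0:ℝ) ≤ j := by positivity
      linarith
    · have := (summable_nat_add_iff 1).2 (Real.summable_one_div_nat_pow.2 (by norm_num : 1 < 2))
      simpa using this

lemma part1_le (j : ℕ) : ∑ k ∈ Finset.range (j + 1), bb j k ≤ 2 * ((j:ℝ≥0∞) + 1)⁻¹ := by
  rw [← Finset.sum_range_reflect]
  calc ∑ m ∈ Finset.range (j + 1), bb j (j + 1 - 1 - m)
      ≤ ∑ m ∈ Finset.range (j + 1), ((50:ℝ≥0∞)⁻¹) ^ m * ((j:ℝ≥0∞) + 1)⁻¹ := by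
        refine Finset.sum_le_sum fun m hm => ?_
        rw [Finset.mem_range] at hm
        unfold bb
        rw [if_pos (by omega), show j - (j + 1 - 1 - m) = m by omega, show j + 1 - 1 - m = j - m by omega]
        have h1 : j + 1 ≤ 2 ^ m * (j - m + 1) := by
          have h2 : m + 1 ≤ 2 ^ m := Nat.lt_two_pow_self
          calc j + 1 ≤ (m + 1) * (j - m + 1) := by
                obtain ⟨e, rfl⟩ : ∃ e, j = m + e := ⟨j - m, by omega⟩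
                rw [show m + e - m = e by omega]
                nlinarith
            _ ≤ _ := Nat.mul_le_mul_right _ h2
        have h3 : ((j:ℝ≥0∞) + 1) ≤ 2 ^ m * (((j - m : ℕ) : ℝ≥0∞) + 1) := by exact_mod_cast h1
        have h4 : (((j - m : ℕ) : ℝ≥0∞) + 1)⁻¹ ≤ 2 ^ m * ((j:ℝ≥0∞) + 1)⁻¹ := by
          have hY0 : ((j:ℝ≥0∞) + 1) ≠ 0 := by positivity
          have hYt : ((j:ℝ≥0∞) + 1) ≠ ⊤ := by finiteness
          have hX0 : (((j - m : ℕ) : ℝ≥0∞) + 1) ≠ 0 := by positivity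
          have hXt : (((j - m : ℕ) : ℝ≥0∞) + 1) ≠ ⊤ := by finiteness
          generalize (((j - m : ℕ) : ℝ≥0∞) + 1) = X at *
          generalize ((j:ℝ≥0∞) + 1) = Y at *
          calc X⁻¹ = X⁻¹ * (Y * Y⁻¹) := by rw [ENNReal.mul_inv_cancel hY0 hYt, mul_one]
            _ ≤ X⁻¹ * ((2 ^ m * X) * Y⁻¹) := by gcongr
            _ = 2 ^ m * (X * X⁻¹) * Y⁻¹ := by ring
            _ = 2 ^ m * Y⁻¹ := by rw [ENNReal.mul_inv_cancel hX0 hXt, mul_one]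
        calc ((100:ℝ≥0∞) ^ m)⁻¹ * (((j - m : ℕ) : ℝ≥0∞) + 1)⁻¹
            ≤ ((100:ℝ≥0∞) ^ m)⁻¹ * (2 ^ m * ((j:ℝ≥0∞) + 1)⁻¹) := by gcongr
          _ = ((50:ℝ≥0∞)⁻¹) ^ m * ((j:ℝ≥0∞) + 1)⁻¹ := by
            rw [← mul_assoc]
            congr 1
            rw [show (100:ℝ≥0∞) = 50 * 2 by norm_num, mul_pow,
              ENNReal.mul_inv (Or.inr (by finiteness)) (Or.inr (by positivity)), mul_assoc,
              ENNReal.inv_mul_cancel (by positivity) (by finiteness), mul_one, ENNReal.inv_pow]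
    _ = (∑ m ∈ Finset.range (j + 1), ((50:ℝ≥0∞)⁻¹) ^ m) * ((j:ℝ≥0∞) + 1)⁻¹ := by
        rw [Finset.sum_mul]
    _ ≤ 2 * ((j:ℝ≥0∞) + 1)⁻¹ := by
        gcongr
        refine (ENNReal.sum_le_tsum _).trans ?_
        rw [ENNReal.tsum_geometric, ENNReal.inv_le_iff_inv_le]
        rw [← ENNReal.one_sub_inv_two]
        apply tsub_le_tsub_left
        rw [ENNReal.inv_le_inv]
        norm_num

lemma tendsto_bb : Tendsto (fun j : ℕ => ∑' k : ℕ, bb j k) atTop (𝓝 0) := by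
  have h1 : Tendsto (fun j : ℕ => 2 * ((j:ℝ≥0∞) + 1)⁻¹) atTop (𝓝 (2 * 0)) := by
    refine ENNReal.Tendsto.const_mul ?_ (Or.inr (by norm_num))
    have h2 := (tendsto_add_atTop_iff_nat 1).2 ENNReal.tendsto_inv_nat_nhds_zero
    refine h2.congr fun j => ?_
    push_cast; rfl
  have h2 := h1.add tendsto_part2
  rw [mul_zero, add_zero] at h2
  refine tendsto_of_tendsto_of_tendsto_of_le_of_le tendsto_const_nhds h2 (fun j => bot_le)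
    (fun j => ?_)
  show ∑' k : ℕ, bb j k ≤ _
  rw [← Summable.sum_add_tsum_nat_add' (k := j + 1) ENNReal.summable]
  refine add_le_add (part1_le j) (le_of_eq ?_)
  congr 1; ext d
  unfold bb
  rw [if_neg (by omega), show d + (j + 1) - j = d + 1 by omega]

/-- Assumptions of the non-percolation criterion for the trace law. -/
lemma tendsto_hBad : Tendsto (fun j : ℕ => (100:ℝ≥0∞) ^ j * hBad (traceLaw lenLaw) (10 ^ j))
    atTop (𝓝 0) := by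
  have h1 : Tendsto (fun j : ℕ => 2 * ∑' k : ℕ, bb j k) atTop (𝓝 (2 * 0)) :=
    ENNReal.Tendsto.const_mul tendsto_bb (Or.inr (by norm_num))
  rw [mul_zero] at h1
  refine tendsto_of_tendsto_of_tendsto_of_le_of_le tendsto_const_nhds h1 (fun j => bot_le)
    (fun j => ?_)
  show (100:ℝ≥0∞) ^ j * hBad (traceLaw lenLaw) (10 ^ j) ≤ 2 * ∑' k : ℕ, bb j k
  unfold hBad
  calc (100:ℝ≥0∞) ^ j * (traceLaw lenLaw).toOuterMeasure {H | ∃ h ∈ H, 10 ^ j < nd 0 h}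
      ≤ (100:ℝ≥0∞) ^ j * ∑' k : ℕ, wt k * hitP (100 ^ k) (fun h => 10 ^ j < nd 0 h) := by
        gcongr; exact traceLaw_hit _
    _ = ∑' k : ℕ, (100:ℝ≥0∞) ^ j * (wt k * hitP (100 ^ k) (fun h => 10 ^ j < nd 0 h)) := by
        rw [ENNReal.tsum_mul_left]
    _ ≤ ∑' k : ℕ, 2 * bb j k := ENNReal.tsum_le_tsum fun k => claim1 j k
    _ = 2 * ∑' k : ℕ, bb j k := ENNReal.tsum_mul_left

lemma tendsto_tFar : Tendsto (fun j : ℕ => tFar (traceLaw lenLaw) (10 ^ j)) atTop (𝓝 0) := by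
  have h1 : Tendsto (fun j : ℕ => 161604 * ∑' k : ℕ, bb j k) atTop (𝓝 (161604 * 0)) :=
    ENNReal.Tendsto.const_mul tendsto_bb (Or.inr (by norm_num))
  rw [mul_zero] at h1
  refine tendsto_of_tendsto_of_tendsto_of_le_of_le tendsto_const_nhds h1 (fun j => bot_le)
    (fun j => ?_)
  show tFar (traceLaw lenLaw) (10 ^ j) ≤ 161604 * ∑' k : ℕ, bb j k
  unfold tFar
  calc (∑' s : V, if 10 * 10 ^ j < nd 0 s then
        (traceLaw lenLaw).toOuterMeasure {H | ∃ h ∈ H, nd 0 (s + h) ≤ 8 * 10 ^ j + 1} else 0)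
      ≤ ∑' s : V, ∑' k : ℕ, wt k * (if 10 * 10 ^ j < nd 0 s then
          hitP (100 ^ k) (fun h => nd 0 (s + h) ≤ 8 * 10 ^ j + 1) else 0) := by
        refine ENNReal.tsum_le_tsum fun s => ?_
        split_ifs with hs
        · exact traceLaw_hit _
        · exact bot_le
    _ = ∑' k : ℕ, wt k * ∑' s : V, (if 10 * 10 ^ j < nd 0 s then
          hitP (100 ^ k) (fun h => nd 0 (s + h) ≤ 8 * 10 ^ j + 1) else 0) := by
        rw [ENNReal.tsum_comm]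
        simp_rw [ENNReal.tsum_mul_left]
    _ ≤ ∑' k : ℕ, 161604 * bb j k := ENNReal.tsum_le_tsum fun k => claim2 j k
    _ = 161604 * ∑' k : ℕ, bb j k := ENNReal.tsum_mul_left

lemma bounded_of_tendsto {f : ℕ → ℝ≥0∞} (hf : ∀ j, f j ≠ ⊤) (h : Tendsto f atTop (𝓝 0)) :
    ∃ K : ℝ≥0, ∀ j, f j ≤ K := by
  have h1 := (ENNReal.tendsto_toReal ENNReal.zero_ne_top).comp h
  obtain ⟨B, hB⟩ := h1.bddAbove_range
  refine ⟨B.toNNReal, fun j => ?_⟩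
  have h2 : (f j).toReal ≤ B := hB ⟨j, rfl⟩
  rw [← ENNReal.ofReal_toReal (hf j)]
  exact ENNReal.ofReal_le_ofReal h2

theorem exists_no_percolation : ∃ v0 : ℝ≥0, 0 < v0 ∧ ∀ v ≤ v0,
    zooLaw (traceLaw lenLaw) v {ω | Percolates (occupied ω)} = 0 := by
  have hne : ∀ j : ℕ, (100:ℝ≥0∞) ^ j * hBad (traceLaw lenLaw) (10 ^ j) ≠ ⊤ := by
    intro j
    refine ENNReal.mul_ne_top (pow_ne_top' j) ?_
    unfold hBad
    refine ne_top_of_le_ne_top ENNReal.one_ne_top ?_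
    rw [PMF.toOuterMeasure_apply]
    calc _ ≤ ∑' H, (traceLaw lenLaw) H := ENNReal.tsum_le_tsum fun H => indicator_le_self _ _ _
      _ = 1 := PMF.tsum_coe _
  obtain ⟨K, hK⟩ := bounded_of_tendsto hne tendsto_hBad
  exact no_percolation _ K hK tendsto_hBad tendsto_tFar

theorem criticalIntensity_pos : 0 < criticalIntensity lenLaw := by
  obtain ⟨v0, hv0, h⟩ := exists_no_percolation
  refine lt_of_lt_of_le (ENNReal.coe_pos.2 hv0) ?_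
  unfold criticalIntensity
  refine le_iInf fun v => le_iInf fun _ => le_iInf fun hperc => ?_
  by_contra hcon
  rw [not_le, ENNReal.coe_lt_coe] at hcon
  rw [h v hcon.le] at hperc
  exact lt_irrefl _ hperc

end Pool.Agent.Helper96.Worm
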